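import Mathlib
import Pool.Agent.Lib.MP_3550b5_nt.SSpec

/-!
The group law of `y^2 = x^3 + a x + b` in coordinates.
-/

namespace Pool.Agent.Lib.MP_3550b5_nt.G

open WeierstrassCurve.Affine

variable {F : Type*} [Field F] {a b : F}

lemma nonsing_iff {x y : F} : (scurve a b).Nonsingular x y ↔
    y ^ 2 = x ^ 3 + a * x + b ∧ (2 * y ≠ 0 ∨ 3 * x ^ 2 + a ≠ 0) := by
  rw [WeierstrassCurve.Affine.nonsingular_iff, WeierstrassCurve.Affine.equation_iff]
  simp only [scurve]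
  constructor
  · rintro ⟨h1, h2⟩
    refine ⟨by linear_combination h1, ?_⟩
    rcases h2 with h2 | h2
    · right
      intro h0
      apply h2
      linear_combination -h0
    · left
      intro h0
      apply h2
      linear_combination h0
  · rintro ⟨h1, h2⟩
    refine ⟨by linear_combination h1, ?_⟩
    rcases h2 with h2 | h2
    · right
      intro h0
      apply h2
      linear_combination h0
    · left
      intro h0
      apply h2
      linear_combination -h0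

/-- On a curve with nonzero discriminant all solutions are nonsingular points. -/
lemma nonsing_of_eq {x y : F} (h2 : (2 : F) ≠ 0) (hΔ : 4 * a ^ 3 + 27 * b ^ 2 ≠ 0)
    (h : y ^ 2 = x ^ 3 + a * x + b) : (scurve a b).Nonsingular x y := by
  rw [nonsing_iff]
  refine ⟨h, ?_⟩
  by_contra hcon
  push Not at hcon
  obtain ⟨h3, h4⟩ := hcon
  apply hΔ
  have hy : y = 0 := by
    rcases mul_eq_zero.mp h3 with h5 | h5
    · exact absurd h5 h2
    · exact h5
  have ha : a = -3 * x ^ 2 := by linear_combination h4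
  have hb : b = 2 * x ^ 3 := by
    rw [hy, ha] at h
    linear_combination -h
  rw [ha, hb]; ring

variable [DecidableEq F]

lemma add_coord {x1 y1 x2 y2 : F} (h1 : (scurve a b).Nonsingular x1 y1)
    (h2 : (scurve a b).Nonsingular x2 y2) (hx : x1 ≠ x2) :
    ∃ (l x3 y3 : F) (h3 : (scurve a b).Nonsingular x3 y3), l * (x1 - x2) = y1 - y2 ∧
      x3 = l ^ 2 - x1 - x2 ∧ y3 = -y1 - l * (x3 - x1) ∧
      (Point.some x1 y1 h1 + Point.some x2 y2 h2 : (scurve a b).Point) = Point.some x3 y3 h3 := by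
  have hd : x1 - x2 ≠ 0 := sub_ne_zero.mpr hx
  have e := Point.add_some (h₁ := h1) (h₂ := h2) (fun hh => hx hh.1)
  refine ⟨(y1 - y2) / (x1 - x2), _, _, nonsingular_add h1 h2 (fun hh => hx hh.1), ?_, ?_, ?_, e⟩
  · field_simp
  · rw [WeierstrassCurve.Affine.slope_of_X_ne hx]
    simp only [WeierstrassCurve.Affine.addX, scurve]
    ring
  · rw [WeierstrassCurve.Affine.slope_of_X_ne hx]
    simp only [WeierstrassCurve.Affine.addX, WeierstrassCurve.Affine.addY,
      WeierstrassCurve.Affine.negAddY, WeierstrassCurve.Affine.negY, scurve]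
    ring

lemma dbl_coord {x1 y1 : F} (h1 : (scurve a b).Nonsingular x1 y1) (hy : 2 * y1 ≠ 0) :
    ∃ (l x3 y3 : F) (h3 : (scurve a b).Nonsingular x3 y3), 2 * y1 * l = 3 * x1 ^ 2 + a ∧
      x3 = l ^ 2 - 2 * x1 ∧ y3 = -y1 - l * (x3 - x1) ∧
      (Point.some x1 y1 h1 + Point.some x1 y1 h1 : (scurve a b).Point) =
        Point.some x3 y3 h3 := by
  have hYne : y1 ≠ (scurve a b).negY x1 y1 := by
    rw [scurve_negY]
    intro h0
    apply hy
    linear_combination h0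
  have e := Point.add_some (h₁ := h1) (h₂ := h1) (fun hh => hYne hh.2)
  refine ⟨(3 * x1 ^ 2 + a) / (2 * y1), _, _, nonsingular_add h1 h1 (fun hh => hYne hh.2),
    ?_, ?_, ?_, e⟩
  · exact mul_div_cancel₀ _ hy
  · rw [WeierstrassCurve.Affine.slope_of_Y_ne rfl hYne, scurve_negY]
    simp only [WeierstrassCurve.Affine.addX, scurve]
    have : y1 - -y1 = 2 * y1 := by ring
    rw [this]
    ring
  · rw [WeierstrassCurve.Affine.slope_of_Y_ne rfl hYne, scurve_negY]
    simp only [WeierstrassCurve.Affine.addX, WeierstrassCurve.Affine.addY,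
      WeierstrassCurve.Affine.negAddY, WeierstrassCurve.Affine.negY, scurve]
    have : y1 - -y1 = 2 * y1 := by ring
    rw [this]
    ring

lemma dbl_eq_zero {x1 y1 : F} (h1 : (scurve a b).Nonsingular x1 y1) (hy : 2 * y1 = 0) :
    (Point.some x1 y1 h1 + Point.some x1 y1 h1 : (scurve a b).Point) = 0 := by
  apply Point.add_of_Y_eq rfl
  rw [scurve_negY]
  linear_combination hy

omit [DecidableEq F] in
lemma neg_coord {x1 y1 : F} (h1 : (scurve a b).Nonsingular x1 y1) :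
    ∃ h : (scurve a b).Nonsingular x1 (-y1),
      -(Point.some x1 y1 h1 : (scurve a b).Point) = Point.some x1 (-y1) h := by
  have h : (scurve a b).Nonsingular x1 (-y1) := by
    rw [← scurve_negY (a := a) (b := b) x1 y1]
    exact (nonsingular_neg ..).mpr h1
  refine ⟨h, ?_⟩
  rw [Point.neg_some]
  simp only [scurve_negY]

omit [DecidableEq F] in
lemma eq_or_neg_of_x {x1 y1 x2 y2 : F} (h1 : (scurve a b).Nonsingular x1 y1)
    (h2 : (scurve a b).Nonsingular x2 y2) (hx : x1 = x2) :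
    (Point.some x1 y1 h1 : (scurve a b).Point) = Point.some x2 y2 h2 ∨
      (Point.some x1 y1 h1 : (scurve a b).Point) = -Point.some x2 y2 h2 :=
  Point.X_eq_iff.mp hx

/-- Difference in coordinates. -/
lemma sub_coord {x1 y1 x2 y2 : F} (h1 : (scurve a b).Nonsingular x1 y1)
    (h2 : (scurve a b).Nonsingular x2 y2) (hx : x1 ≠ x2) :
    ∃ (l x3 y3 : F) (h3 : (scurve a b).Nonsingular x3 y3), l * (x1 - x2) = y1 + y2 ∧
      x3 = l ^ 2 - x1 - x2 ∧ y3 = -y1 - l * (x3 - x1) ∧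
      (Point.some x1 y1 h1 - Point.some x2 y2 h2 : (scurve a b).Point) = Point.some x3 y3 h3 := by
  obtain ⟨h, e⟩ := neg_coord h2
  obtain ⟨l, x3, y3, h3, e1, e2, e3, e4⟩ := add_coord h1 h hx
  refine ⟨l, x3, y3, h3, by rw [e1]; ring, e2, e3, ?_⟩
  rw [sub_eq_add_neg, e, e4]

/-- Sum and product of `x(P + Q)` and `x(P - Q)`. -/
lemma add_sub_coord {x1 y1 x2 y2 : F} (h1 : (scurve a b).Nonsingular x1 y1)
    (h2 : (scurve a b).Nonsingular x2 y2) (hx : x1 ≠ x2) :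
    ∃ (x3 y3 : F) (h3 : (scurve a b).Nonsingular x3 y3) (x4 y4 : F)
      (h4 : (scurve a b).Nonsingular x4 y4),
      (Point.some x1 y1 h1 + Point.some x2 y2 h2 : (scurve a b).Point) = Point.some x3 y3 h3 ∧
      (Point.some x1 y1 h1 - Point.some x2 y2 h2 : (scurve a b).Point) = Point.some x4 y4 h4 ∧
      (x1 - x2) ^ 2 * (x3 + x4) = 2 * ((x1 + x2) * (x1 * x2 + a) + 2 * b) ∧
      (x1 - x2) ^ 2 * (x3 * x4) = (x1 * x2 - a) ^ 2 - 4 * b * (x1 + x2) := by
  obtain ⟨l, x3, y3, h3, e1, e2, e3, e4⟩ := add_coord h1 h2 hx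
  obtain ⟨m, x4, y4, h4, f1, f2, f3, f4⟩ := sub_coord h1 h2 hx
  refine ⟨x3, y3, h3, x4, y4, h4, e4, f4, ?_, ?_⟩
  · have g1 := scurve_eq h1
    have g2 := scurve_eq h2
    rw [e2, f2]
    have k1 : (x1 - x2) ^ 2 * (l ^ 2 - x1 - x2 + (m ^ 2 - x1 - x2)) =
        (l * (x1 - x2)) ^ 2 + (m * (x1 - x2)) ^ 2 - 2 * (x1 - x2) ^ 2 * (x1 + x2) := by ring
    rw [k1, e1, f1]
    linear_combination 2 * g1 + 2 * g2
  · have g1 := scurve_eq h1
    have g2 := scurve_eq h2
    have hd : (x1 - x2) ^ 2 ≠ 0 := pow_ne_zero 2 (sub_ne_zero.mpr hx)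
    apply mul_left_cancel₀ hd
    rw [e2, f2]
    have k1 : (x1 - x2) ^ 2 * ((x1 - x2) ^ 2 * ((l ^ 2 - x1 - x2) * (m ^ 2 - x1 - x2))) =
        ((l * (x1 - x2)) ^ 2 - (x1 - x2) ^ 2 * (x1 + x2)) *
        ((m * (x1 - x2)) ^ 2 - (x1 - x2) ^ 2 * (x1 + x2)) := by ring
    rw [k1, e1, f1]
    have k2 : ((y1 - y2) ^ 2 - (x1 - x2) ^ 2 * (x1 + x2)) *
        ((y1 + y2) ^ 2 - (x1 - x2) ^ 2 * (x1 + x2)) =
        (y1 ^ 2 - y2 ^ 2) ^ 2 - 2 * (y1 ^ 2 + y2 ^ 2) * ((x1 - x2) ^ 2 * (x1 + x2)) +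
        ((x1 - x2) ^ 2 * (x1 + x2)) ^ 2 := by ring
    rw [k2, g1, g2]
    ring

end Pool.Agent.Lib.MP_3550b5_nt.G
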