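import Mathlib

/-!
Discrete valuations as integer valued functions.
-/

namespace Pool.Agent.Lib.MP_3550b5_nt.G

/-- A discrete valuation of a field, as an integer valued function (its value at `0` is junk). -/
structure DVal (K : Type*) [Field K] where
  v : K → ℤ
  map_mul : ∀ {x y : K}, x ≠ 0 → y ≠ 0 → v (x * y) = v x + v y
  map_add : ∀ {x y : K}, x ≠ 0 → y ≠ 0 → x + y ≠ 0 → min (v x) (v y) ≤ v (x + y)

namespace DVal

variable {K : Type*} [Field K] (V : DVal K)

/-- `x` has valuation at least `k`. -/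
def D (k : ℤ) (x : K) : Prop := x = 0 ∨ k ≤ V.v x

variable {V}

lemma v_one : V.v 1 = 0 := by
  have := V.map_mul (one_ne_zero (α := K)) one_ne_zero
  rw [mul_one] at this
  omega

lemma v_neg (x : K) : V.v (-x) = V.v x := by
  by_cases hx : x = 0
  · rw [hx, neg_zero]
  have h1 : V.v (-1) = 0 := by
    have := V.map_mul (x := -1) (y := -1) (by simp) (by simp)
    rw [neg_one_mul, neg_neg, v_one] at this
    omega
  have := V.map_mul (x := -1) (y := x) (by simp) hx
  rw [neg_one_mul, h1] at this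
  omega

lemma v_pow {x : K} (hx : x ≠ 0) (n : ℕ) : V.v (x ^ n) = n * V.v x := by
  induction n with
  | zero => simp [v_one]
  | succ n ih =>
    rw [pow_succ, V.map_mul (pow_ne_zero n hx) hx, ih]; push_cast; ring

lemma v_inv {x : K} (hx : x ≠ 0) : V.v x⁻¹ = -V.v x := by
  have := V.map_mul hx (inv_ne_zero hx)
  rw [mul_inv_cancel₀ hx, v_one] at this
  omega

lemma v_div {x y : K} (hx : x ≠ 0) (hy : y ≠ 0) : V.v (x / y) = V.v x - V.v y := by
  rw [div_eq_mul_inv, V.map_mul hx (inv_ne_zero hy), v_inv hy]; ring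

lemma D_zero (k : ℤ) : V.D k 0 := Or.inl rfl

lemma D_iff {x : K} (hx : x ≠ 0) {k : ℤ} : V.D k x ↔ k ≤ V.v x := by
  simp [D, hx]

lemma not_D_iff {x : K} (hx : x ≠ 0) {k : ℤ} : ¬ V.D k x ↔ V.v x < k := by
  rw [D_iff hx, not_le]

lemma ne_zero_of_not_D {x : K} {k : ℤ} (h : ¬ V.D k x) : x ≠ 0 := by
  rintro rfl
  exact h (D_zero k)

lemma D_mono {j k : ℤ} (h : j ≤ k) {x : K} (hx : V.D k x) : V.D j x :=
  hx.imp id fun h' => h.trans h'

lemma D_neg {k : ℤ} {x : K} (hx : V.D k x) : V.D k (-x) := by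
  rcases hx with rfl | h
  · rw [neg_zero]; exact D_zero k
  · exact Or.inr (by rw [v_neg]; exact h)

lemma D_neg_iff {k : ℤ} {x : K} : V.D k (-x) ↔ V.D k x :=
  ⟨fun h => by simpa using D_neg h, D_neg⟩

lemma D_add {k : ℤ} {x y : K} (hx : V.D k x) (hy : V.D k y) : V.D k (x + y) := by
  rcases hx with rfl | hx
  · rwa [zero_add]
  rcases hy with rfl | hy
  · rw [add_zero]; exact Or.inr hx
  by_cases hx0 : x = 0
  · subst hx0; rw [zero_add]; exact Or.inr hy
  by_cases hy0 : y = 0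
  · subst hy0; rw [add_zero]; exact Or.inr hx
  by_cases hxy : x + y = 0
  · exact Or.inl hxy
  exact Or.inr ((le_min hx hy).trans (V.map_add hx0 hy0 hxy))

lemma D_sub {k : ℤ} {x y : K} (hx : V.D k x) (hy : V.D k y) : V.D k (x - y) := by
  rw [sub_eq_add_neg]; exact D_add hx (D_neg hy)

lemma D_mul {j k : ℤ} {x y : K} (hx : V.D j x) (hy : V.D k y) : V.D (j + k) (x * y) := by
  by_cases hx0 : x = 0
  · subst hx0; rw [zero_mul]; exact D_zero _
  by_cases hy0 : y = 0
  · subst hy0; rw [mul_zero]; exact D_zero _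
  rw [D_iff hx0] at hx
  rw [D_iff hy0] at hy
  exact Or.inr (by rw [V.map_mul hx0 hy0]; omega)

/-- Version of `D_mul` with a free exponent. -/
lemma D_mul' {j k l : ℤ} {x y : K} (hx : V.D j x) (hy : V.D k y) (h : l ≤ j + k) :
    V.D l (x * y) := D_mono h (D_mul hx hy)

lemma D_pow {k : ℤ} {x : K} (hx : V.D k x) (n : ℕ) : V.D (n * k) (x ^ n) := by
  induction n with
  | zero => exact Or.inr (by simp [v_one])
  | succ n ih =>
    rw [pow_succ]
    exact D_mul' ih hx (by push_cast; linarith)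

lemma D_pow' {k l : ℤ} {x : K} (hx : V.D k x) (n : ℕ) (h : l ≤ n * k) : V.D l (x ^ n) :=
  D_mono h (D_pow hx n)

lemma D_one : V.D 0 (1 : K) := Or.inr (by rw [v_one])

lemma D_nat (n : ℕ) : V.D 0 (n : K) := by
  induction n with
  | zero => rw [Nat.cast_zero]; exact D_zero 0
  | succ n ih => rw [Nat.cast_succ]; exact D_add ih D_one

lemma D_ofNat (n : ℕ) [n.AtLeastTwo] : V.D 0 (OfNat.ofNat n : K) := by
  have := D_nat (V := V) n
  rwa [← Nat.cast_ofNat (R := K)]

lemma D_int (n : ℤ) : V.D 0 (n : K) := by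
  obtain ⟨m, rfl | rfl⟩ := n.eq_nat_or_neg
  · rw [Int.cast_natCast]; exact D_nat m
  · rw [Int.cast_neg, Int.cast_natCast]; exact D_neg (D_nat m)

lemma not_D_mul {j k : ℤ} {x y : K} (hx : ¬ V.D j x) (hy : ¬ V.D k y) :
    ¬ V.D (j + k - 1) (x * y) := by
  have hx0 := ne_zero_of_not_D hx
  have hy0 := ne_zero_of_not_D hy
  rw [not_D_iff hx0] at hx
  rw [not_D_iff hy0] at hy
  rw [not_D_iff (mul_ne_zero hx0 hy0), V.map_mul hx0 hy0]
  omega

/-- `D` is prime: cancel a factor of valuation `< j`. -/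
lemma D_of_mul {j k : ℤ} {x y : K} (hx : ¬ V.D j x) (h : V.D (j + k - 1) (x * y)) : V.D k y := by
  by_contra hy
  exact not_D_mul hx hy h

lemma not_D_add {k : ℤ} {x y : K} (hx : V.D k x) (hy : ¬ V.D k y) : ¬ V.D k (x + y) := by
  intro h
  apply hy
  have := D_sub h hx
  rwa [add_sub_cancel_left] at this

/-- The exact valuation. -/
lemma exists_exact {x : K} (hx : x ≠ 0) : V.D (V.v x) x ∧ ¬ V.D (V.v x + 1) x := by
  refine ⟨Or.inr le_rfl, ?_⟩
  rw [not_D_iff hx]; omega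

/-- Squares. -/
lemma D_sq_iff {k : ℤ} {x : K} : V.D (2 * k - 1) (x ^ 2) ↔ V.D k x := by
  by_cases hx : x = 0
  · subst hx
    rw [zero_pow (by norm_num)]
    exact ⟨fun _ => D_zero _, fun _ => D_zero _⟩
  rw [D_iff hx, D_iff (pow_ne_zero 2 hx), v_pow hx]
  push_cast
  omega

lemma D_sq {k : ℤ} {x : K} (h : V.D (2 * k - 1) (x ^ 2)) : V.D k x := D_sq_iff.mp h

end DVal

end Pool.Agent.Lib.MP_3550b5_nt.G
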