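import Mathlib
import Pool.Agent.Lib.MP_3550b5_nt.G.Val
import Pool.Agent.Lib.MP_3550b5_nt.G.Coord

/-!
Points with nonsingular reduction.
-/

namespace Pool.Agent.Lib.MP_3550b5_nt.G

open WeierstrassCurve.Affine

variable {K : Type*} [Field K]

/-- `(x, y)` reduces to a singular point of `y^2 = x^3 + a x + b` (`2` is a unit). -/
def DVal.Sing (V : DVal K) (a x y : K) : Prop :=
  V.D 0 x ∧ V.D 1 y ∧ V.D 1 (3 * x ^ 2 + a)

/-- The point `P` has nonsingular reduction. -/
def DVal.NS (V : DVal K) {a b : K} (P : (scurve a b).Point) : Prop :=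
  ∀ (x y : K) (h : (scurve a b).Nonsingular x y), P = Point.some x y h → ¬ V.Sing a x y

variable {V : DVal K} {a b : K}

lemma DVal.NS_zero : V.NS (0 : (scurve a b).Point) := by
  intro x y h e
  exact absurd e.symm (Point.some_ne_zero h)

lemma DVal.NS_some {x y : K} {h : (scurve a b).Nonsingular x y} :
    V.NS (Point.some x y h) ↔ ¬ V.Sing a x y := by
  constructor
  · intro hh
    exact hh x y h rfl
  · intro hh x' y' h' e
    simp only [Point.some.injEq] at e
    obtain ⟨rfl, rfl⟩ := e
    exact hh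

lemma DVal.Sing_neg {x y : K} : V.Sing a x (-y) ↔ V.Sing a x y := by
  simp only [DVal.Sing, DVal.D_neg_iff]

lemma DVal.NS_neg [DecidableEq K] {P : (scurve a b).Point} : V.NS (-P) ↔ V.NS P := by
  rcases P with _ | ⟨x, y, h⟩
  · change V.NS (-(0 : (scurve a b).Point)) ↔ V.NS (0 : (scurve a b).Point)
    rw [neg_zero]
  · change V.NS (-Point.some x y h) ↔ V.NS (Point.some x y h)
    obtain ⟨h', e⟩ := neg_coord h
    rw [e, NS_some, NS_some, Sing_neg]

end Pool.Agent.Lib.MP_3550b5_nt.G
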