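import Mathlib
import Pool.Agent.Lib.MP_3550b5_nt.G.NS

/-!
The valuation of the fraction field of a factorial ring defined by a prime element, and
representations `(X / W^2, Y / W^3)` of points.
-/

namespace Pool.Agent.Lib.MP_3550b5_nt.G

open WeierstrassCurve.Affine

variable {A : Type*} [CommRing A] [IsDomain A] [UniqueFactorizationMonoid A]
  {K : Type*} [Field K]

/-- `K` is the fraction field of `A` via `φ`. -/
structure IsFrac (φ : A →+* K) : Prop where
  inj : Function.Injective φ
  surj : ∀ x : K, ∃ f g : A, g ≠ 0 ∧ x = φ f / φ g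

/-- The valuation of a prime element. PROOF. For `x ≠ 0` choose `f`, `g` by `surj` and put
`v x = multiplicity π f - multiplicity π g` (all finite, `FiniteMultiplicity.of_prime_left`). If
`φ f / φ g = φ f' / φ g'` then `f g' = f' g`, so the value does not depend on the choice
(`multiplicity_mul`). `map_mul`: `x y = φ (f f') / φ (g g')`. `map_add`:
`x + y = φ (f g' + f' g) / φ (g g')`, and `π ^ k` divides both terms of the numerator for
`k = min (..) (..)`. The last property: `φ f = φ f / φ 1`. -/
theorem exists_dval {φ : A →+* K} (hφ : IsFrac φ) {π : A} (hπ : Prime π) :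
    ∃ V : DVal K, ∀ (k : ℕ) (f : A), V.D k (φ f) ↔ π ^ k ∣ f := by
  classical
  have hfin : ∀ {f : A}, f ≠ 0 → FiniteMultiplicity π f := fun hf =>
    FiniteMultiplicity.of_prime_left hπ hf
  have hmul : ∀ {f g : A}, f ≠ 0 → g ≠ 0 →
      multiplicity π (f * g) = multiplicity π f + multiplicity π g := fun hf hg =>
    multiplicity_mul hπ (hfin (mul_ne_zero hf hg))
  have hdvd : ∀ {f : A} (k : ℕ), f ≠ 0 → (π ^ k ∣ f ↔ k ≤ multiplicity π f) := fun k hf =>
    (hfin hf).pow_dvd_iff_le_multiplicity
  have h0 : ∀ {f : A}, φ f = 0 ↔ f = 0 := fun {f} =>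
    ⟨fun h => hφ.inj (by rw [h, map_zero]), fun h => by rw [h, map_zero]⟩
  choose F G hG hFG using hφ.surj
  have hφG : ∀ x, φ (G x) ≠ 0 := fun x h => hG x (h0.1 h)
  have hF : ∀ {x : K}, x ≠ 0 → F x ≠ 0 := fun {x} hx h => hx (by rw [hFG x, h, map_zero, zero_div])
  -- independence of the representation
  have key : ∀ {x : K} {f g : A}, x ≠ 0 → g ≠ 0 → x = φ f / φ g →
      (multiplicity π (F x) : ℤ) - multiplicity π (G x) =
        (multiplicity π f : ℤ) - multiplicity π g := by
    intro x f g hx hg e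
    have hf : f ≠ 0 := fun h => hx (by rw [e, h, map_zero, zero_div])
    have hg' : φ g ≠ 0 := fun h => hg (h0.1 h)
    have e1 : φ (F x) / φ (G x) = φ f / φ g := by rw [← hFG x, e]
    rw [div_eq_div_iff (hφG x) hg', ← map_mul, ← map_mul] at e1
    have e2 : F x * g = f * G x := hφ.inj e1
    have e3 := congrArg (multiplicity π) e2
    rw [hmul (hF hx) hg, hmul hf (hG x)] at e3
    omega
  refine ⟨⟨fun x => (multiplicity π (F x) : ℤ) - multiplicity π (G x), ?_, ?_⟩, ?_⟩
  · intro x y hx hy
    have e : x * y = φ (F x * F y) / φ (G x * G y) := by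
      conv_lhs => rw [hFG x, hFG y]
      rw [map_mul, map_mul, div_mul_div_comm]
    have := key (mul_ne_zero hx hy) (mul_ne_zero (hG x) (hG y)) e
    rw [this, hmul (hF hx) (hF hy), hmul (hG x) (hG y)]
    push_cast
    ring
  · intro x y hx hy hxy
    have e : x + y = φ (F x * G y + G x * F y) / φ (G x * G y) := by
      conv_lhs => rw [hFG x, hFG y]
      rw [map_add, map_mul, map_mul, map_mul, div_add_div _ _ (hφG x) (hφG y)]
    have hn : F x * G y + G x * F y ≠ 0 := fun h => hxy (by rw [e, h, map_zero, zero_div])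
    have h1 := key hxy (mul_ne_zero (hG x) (hG y)) e
    rw [h1, hmul (hG x) (hG y)]
    -- the numerator is divisible by the minimum
    set k : ℕ := min (multiplicity π (F x) + multiplicity π (G y))
      (multiplicity π (G x) + multiplicity π (F y)) with hk
    have d1 : π ^ k ∣ F x * G y := by
      rw [hdvd k (mul_ne_zero (hF hx) (hG y)), hmul (hF hx) (hG y)]
      exact min_le_left _ _
    have d2 : π ^ k ∣ G x * F y := by
      rw [hdvd k (mul_ne_zero (hG x) (hF hy)), hmul (hG x) (hF hy)]
      exact min_le_right _ _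
    have d3 := (hdvd k hn).1 (dvd_add d1 d2)
    omega
  · intro k f
    by_cases hf : f = 0
    · subst hf
      exact ⟨fun _ => dvd_zero _, fun _ => Or.inl (map_zero φ)⟩
    · have hx : φ f ≠ 0 := fun h => hf (h0.1 h)
      have e : φ f = φ f / φ 1 := by rw [map_one, div_one]
      have h1 := key hx one_ne_zero e
      have h2 : multiplicity π (1 : A) = 0 :=
        multiplicity_eq_zero.2 fun h => hπ.not_isUnit (isUnit_of_dvd_one h)
      rw [DVal.D_iff hx, hdvd k hf]
      simp only
      rw [h1, h2]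
      omega

/-- The valuation of a prime element. -/
noncomputable def primeVal {φ : A →+* K} (hφ : IsFrac φ) {π : A} (hπ : Prime π) : DVal K :=
  Classical.choose (exists_dval hφ hπ)

lemma primeVal_D {φ : A →+* K} (hφ : IsFrac φ) {π : A} (hπ : Prime π) (k : ℕ) (f : A) :
    (primeVal hφ hπ).D k (φ f) ↔ π ^ k ∣ f :=
  Classical.choose_spec (exists_dval hφ hπ) k f

/-- `P = (X / W^2, Y / W^3)`. -/
def Rep (φ : A →+* K) {a b : A} (X Y W : A) (P : (scurve (φ a) (φ b)).Point) : Prop :=
  W ≠ 0 ∧ ∃ h : (scurve (φ a) (φ b)).Nonsingular (φ X / φ W ^ 2) (φ Y / φ W ^ 3),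
    P = Point.some _ _ h

/-- `X` and `W` have no common prime factor. -/
def Low (X W : A) : Prop := ∀ π : A, Prime π → ¬ (π ∣ X ∧ π ∣ W)

end Pool.Agent.Lib.MP_3550b5_nt.G
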