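import Mathlib
import Pool.Agent.Lib.MP_3550b5_nt.G.NS

/-!
Additive reduction (residue characteristic not `2`, `3`): a multiple of index at most `4` has
nonsingular reduction.
-/

namespace Pool.Agent.Lib.MP_3550b5_nt.G

open WeierstrassCurve.Affine

variable {K : Type*} [Field K] {V : DVal K} {a b : K}

/-- In the additive case a singular point has `D 1 x`. PROOF. `Sing` gives `D 1 (3 x^2 + a)`, so
`D 1 (3 x^2)` by `D_sub`; `¬ V.D 1 3` and `D_of_mul` give `D 1 (x^2)`, and `DVal.D_sq` (with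
`k = 1`) gives `D 1 x`. -/
lemma D_of_sing (h3 : ¬ V.D 1 (3 : K)) (ha : V.D 1 a) {x y : K} (h : V.Sing a x y) : V.D 1 x := by
  obtain ⟨_, _, h⟩ := h
  have h1 : V.D 1 (3 * x ^ 2) := by
    have := DVal.D_sub h ha
    rwa [add_sub_cancel_right] at this
  have h2 : V.D 1 (x ^ 2) := DVal.D_of_mul (k := 1) h3 (DVal.D_mono (by norm_num) h1)
  exact DVal.D_sq (k := 1) (DVal.D_mono (by norm_num) h2)

/-- Doubling. Let `l` be the slope of the tangent at `(x, y)`. If `l` is not divisible by the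
uniformiser then `2 P` is nonsingular. PROOF. `x3 = l^2 - 2 x`. If `2 P = (x3, y3)` were singular,
then `D 1 x3` (`D_of_sing`), so `D 1 (l^2)`, so `D 1 l`. -/
lemma ns_dbl (h3 : ¬ V.D 1 (3 : K)) (ha : V.D 1 a) {x l x3 y3 : K} (hx : V.D 1 x)
    (e : x3 = l ^ 2 - 2 * x) (hl : ¬ V.D 1 l) : ¬ V.Sing a x3 y3 := by
  intro h
  have h1 := D_of_sing h3 ha h
  have h2 : V.D 1 (l ^ 2) := by
    have h4 : l ^ 2 = x3 + 2 * x := by rw [e]; ring
    rw [h4]
    exact DVal.D_add h1 (DVal.D_mul' (DVal.D_ofNat 2) hx (by norm_num))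
  exact hl (DVal.D_sq (k := 1) (DVal.D_mono (by norm_num) h2))

/-- The third multiple is nonsingular (used with `k = 2` and `k = 3`). -/
private lemma three [DecidableEq K] (h2 : ¬ V.D 1 (2 : K)) (h3 : ¬ V.D 1 (3 : K))
    (ha : V.D 1 a) {x y x2 y2 : K} (hP : (scurve a b).Nonsingular x y)
    (hQ : (scurve a b).Nonsingular x2 y2)
    (e : (Point.some x y hP + Point.some x y hP : (scurve a b).Point) = Point.some x2 y2 hQ)
    {k : ℤ} (hx : V.D 1 x) (hx2 : V.D 1 x2) (hd : V.D (k - 1) (x2 - x)) (hs : V.D k (y2 + y))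
    (hny : ¬ V.D k y) :
    ∃ m : ℕ, 1 ≤ m ∧ V.NS (m • (Point.some x y hP : (scurve a b).Point)) := by
  by_cases hxx : x2 = x
  · rcases eq_or_neg_of_x hQ hP hxx with h | h
    · rw [h] at e
      have h0 : (Point.some x y hP : (scurve a b).Point) = 0 := by
        have := e
        rwa [add_eq_right] at this
      exact absurd h0 (Point.some_ne_zero hP)
    · refine ⟨3, by norm_num, ?_⟩
      have h4 : 3 • (Point.some x y hP : (scurve a b).Point) = 0 := by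
        rw [succ_nsmul, two_nsmul, e, h, neg_add_cancel]
      rw [h4]
      exact DVal.NS_zero
  · obtain ⟨l3, x3, y3, hR, f1, f2, f3, f4⟩ := add_coord hQ hP hxx
    refine ⟨3, by norm_num, ?_⟩
    rw [succ_nsmul, two_nsmul, e, f4, DVal.NS_some]
    intro hsing
    have g1 := D_of_sing h3 ha hsing
    have g2 : V.D 1 (l3 ^ 2) := by
      have h4 : l3 ^ 2 = x3 + x2 + x := by rw [f2]; ring
      rw [h4]
      exact DVal.D_add (DVal.D_add g1 hx2) hx
    have g3 : V.D 1 l3 := DVal.D_sq (k := 1) (DVal.D_mono (by norm_num) g2)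
    have g4 : V.D k (y2 - y) := by
      rw [← f1]
      exact DVal.D_mul' g3 hd (by omega)
    have g5 : V.D k (2 * y) := by
      have h4 : 2 * y = (y2 + y) - (y2 - y) := by ring
      rw [h4]
      exact DVal.D_sub hs g4
    exact hny (DVal.D_of_mul h2 (DVal.D_mono (by omega) g5))

/-- Additive reduction. `V.D k x` says that `x` has valuation at least `k`; `2` and `3` are units.

PROOF. (API in `G/Val.lean`, coordinates in `G/Coord.lean`, `NS` in `G/NS.lean`.) If `P` is `NS`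
take `m = 1`. Otherwise `P = (x, y)` with `Sing a x y`, so `D 1 x` (`D_of_sing`) and `D 1 y`.
If `y = 0` then `2 P = 0` (`dbl_eq_zero`) and `m = 2`. Let `y ≠ 0` and let `l`, `x2`, `y2` be as in
`dbl_coord`: `2 y l = 3 x^2 + a`, `x2 = l^2 - 2 x`, `y2 = -y - l (x2 - x)`, `2 P = (x2, y2)`.
If `¬ D 1 l` then `2 P` is `NS` by `ns_dbl`; `m = 2`. So let `D 1 l`. Note `D 1 x2`.

Case 1: `¬ D 2 y`. As `D 2 (2 y l)` we get `D 2 (3 x^2 + a)` and `D 2 a`. `x2 - x = l^2 - 3 x` has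
`D 1`, so `y2 + y = -l (x2 - x)` has `D 2`. If `x2 = x` then `2 P = P` or `2 P = -P`
(`eq_or_neg_of_x`), so `P = 0` (impossible) or `3 P = 0`: `m = 3`. Otherwise let `l3`, `x3`, `y3` be
as in `add_coord` for `2 P + P`: `l3 (x2 - x) = y2 - y`, `x3 = l3^2 - x2 - x`. If `3 P` were
singular, `D 1 x3` (`D_of_sing`), so `D 1 l3`, so `D 2 (y2 - y)`; with `D 2 (y2 + y)` we get
`D 2 (2 y)`, so `D 2 y` (`D_of_mul` with `¬ D 1 2`), a contradiction. So `3 P` is `NS`.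

Case 2: `D 2 y`. Then `D 3 (3 x^2 + a)`.
Case 2a: `¬ D 2 x`. Let `Q = 2 P = (x2, y2)`. If `y2 = 0` then `4 P = 0`, `m = 4`. Else let
`2 y2 l' = 3 x2^2 + a`, `2 Q = (x4, y4)`, `x4 = l'^2 - 2 x2`. If `D 1 l'`: if `Q` is `NS` then
`m = 2`; otherwise `D 1 y2`. We even have `D 2 y2` (`y2 = -y - l (x2 - x)`, `D 1 l`, and
`x2 - x = l^2 - 3 x` has `D 1`). So `D 3 (3 x2^2 + a)`. But
`3 x2^2 + a = (3 x^2 + a) + 9 x^2 - 12 x l^2 + 3 l^4`, so `D 3 (9 x^2)` and (`D_of_mul` twice with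
`¬ D 1 3`) `D 3 (x^2)`, so `D 2 x` (`D_sq` with `k = 2`), a contradiction. So `¬ D 1 l'`, and `4 P`
is `NS` by `ns_dbl` (`D 1 x2`).
Case 2b: `D 2 x`. Then `D 3 a`. `D 4 b` from `b = y^2 - x^3 - a x`.
  If `¬ D 3 y`: `x2 - x = l^2 - 3 x` has `D 2`, `y2 + y = -l (x2 - x)` has `D 3`. As in Case 1: if
  `x2 = x` then `3 P = 0`. Otherwise `l3 (x2 - x) = y2 - y`; if `3 P` were singular then `D 1 l3`,
  so `D 3 (y2 - y)`, so `D 3 (2 y)`, `D 3 y`, a contradiction: `m = 3`.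
  If `D 3 y`: `D 4 (3 x^2 + a)` (as `2 y l` with `D 1 l`), `D 4 (3 x^2)`, so `D 4 a`; and
  `b = y^2 - x^3 - a x` has `D 6`. This contradicts `hmin`. -/
theorem exists_ns_additive [DecidableEq K] (h2 : ¬ V.D 1 (2 : K)) (h3 : ¬ V.D 1 (3 : K))
    (ha : V.D 1 a) (hmin : ¬ (V.D 4 a ∧ V.D 6 b)) (P : (scurve a b).Point) :
    ∃ m : ℕ, 1 ≤ m ∧ V.NS (m • P) := by
  by_cases hns : V.NS P
  · exact ⟨1, le_rfl, by rwa [one_nsmul]⟩
  rcases P with _ | ⟨x, y, hP⟩
  · exact absurd DVal.NS_zero hns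
  rw [DVal.NS_some, not_not] at hns
  have hx : V.D 1 x := D_of_sing h3 ha hns
  obtain ⟨-, hy, hq⟩ := hns
  have h20 : (2 : K) ≠ 0 := DVal.ne_zero_of_not_D h2
  have D02 : V.D 0 (2 : K) := DVal.D_ofNat 2
  have D03 : V.D 0 (3 : K) := DVal.D_ofNat 3
  by_cases hy0 : y = 0
  · refine ⟨2, by norm_num, ?_⟩
    rw [two_nsmul, dbl_eq_zero hP (by rw [hy0, mul_zero])]
    exact DVal.NS_zero
  obtain ⟨l, x2, y2, hQ, e1, e2, e3, e4⟩ := dbl_coord hP (mul_ne_zero h20 hy0)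
  by_cases hl : V.D 1 l
  swap
  · refine ⟨2, by norm_num, ?_⟩
    rw [two_nsmul, e4, DVal.NS_some]
    exact ns_dbl h3 ha hx e2 hl
  have hl2 : V.D 2 (l ^ 2) := DVal.D_pow' hl 2 (by norm_num)
  have hx2 : V.D 1 x2 := by
    rw [e2]
    exact DVal.D_sub (DVal.D_mono (by norm_num) hl2) (DVal.D_mul' D02 hx (by norm_num))
  have ed : x2 - x = l ^ 2 - 3 * x := by rw [e2]; ring
  have es : y2 + y = -(l * (x2 - x)) := by rw [e3]; ring
  have hd1 : V.D 1 (x2 - x) := DVal.D_sub hx2 hx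
  have hs2 : V.D 2 (y2 + y) := by
    rw [es]
    exact DVal.D_neg (DVal.D_mul' hl hd1 (by norm_num))
  by_cases hy2 : V.D 2 y
  swap
  · exact three h2 h3 ha hP hQ e4 (k := 2) hx hx2 (DVal.D_mono (by norm_num) hd1) hs2 hy2
  have hq3 : V.D 3 (3 * x ^ 2 + a) := by
    rw [← e1]
    exact DVal.D_mul' (DVal.D_mul' D02 hy2 (by norm_num) : V.D 2 (2 * y)) hl (by norm_num)
  by_cases hx' : V.D 2 x
  swap
  · -- case 2a
    by_cases hy20 : y2 = 0
    · refine ⟨4, by norm_num, ?_⟩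
      have h4 : 4 • (Point.some x y hP : (scurve a b).Point) = 0 := by
        rw [show (4 : ℕ) = 2 * 2 by norm_num, mul_nsmul, two_nsmul, two_nsmul, e4]
        exact dbl_eq_zero hQ (by rw [hy20, mul_zero])
      rw [h4]
      exact DVal.NS_zero
    obtain ⟨l', x4, y4, hR, f1, f2, f3, f4⟩ := dbl_coord hQ (mul_ne_zero h20 hy20)
    by_cases hl' : V.D 1 l'
    · exfalso
      have hy2' : V.D 2 y2 := by
        have h4 : y2 = (y2 + y) - y := by ring
        rw [h4]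
        exact DVal.D_sub hs2 hy2
      have hq3' : V.D 3 (3 * x2 ^ 2 + a) := by
        rw [← f1]
        exact DVal.D_mul' (DVal.D_mul' D02 hy2' (by norm_num) : V.D 2 (2 * y2)) hl' (by norm_num)
      have h9 : V.D 3 (3 * (3 * x ^ 2)) := by
        have h4 : 3 * (3 * x ^ 2) = (3 * x2 ^ 2 + a) - (3 * x ^ 2 + a) - 3 * (l ^ 2) ^ 2 +
            3 * (2 * (2 * (x * l ^ 2))) := by rw [e2]; ring
        rw [h4]
        refine DVal.D_add (DVal.D_sub (DVal.D_sub hq3' hq3) ?_) ?_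
        · exact DVal.D_mul' D03 (DVal.D_pow' hl2 2 (by norm_num) : V.D 4 ((l ^ 2) ^ 2)) (by norm_num)
        · have k1 : V.D 3 (x * l ^ 2) := DVal.D_mul' hx hl2 (by norm_num)
          have k2 : V.D 3 (2 * (x * l ^ 2)) := DVal.D_mul' D02 k1 (by norm_num)
          have k3 : V.D 3 (2 * (2 * (x * l ^ 2))) := DVal.D_mul' D02 k2 (by norm_num)
          exact DVal.D_mul' D03 k3 (by norm_num)
      have k1 : V.D 3 (3 * x ^ 2) := DVal.D_of_mul (k := 3) h3 (DVal.D_mono (by norm_num) h9)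
      have k2 : V.D 3 (x ^ 2) := DVal.D_of_mul (k := 3) h3 (DVal.D_mono (by norm_num) k1)
      exact hx' (DVal.D_sq (k := 2) (DVal.D_mono (by norm_num) k2))
    · refine ⟨4, by norm_num, ?_⟩
      rw [show (4 : ℕ) = 2 * 2 by norm_num, mul_nsmul, two_nsmul, two_nsmul, e4, f4, DVal.NS_some]
      exact ns_dbl h3 ha hx2 f2 hl'
  -- case 2b
  have hxx : V.D 4 (3 * x ^ 2) :=
    DVal.D_mul' D03 (DVal.D_pow' hx' 2 (by norm_num) : V.D 4 (x ^ 2)) (by norm_num)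
  have hd2 : V.D 2 (x2 - x) := by
    rw [ed]
    exact DVal.D_sub hl2 (DVal.D_mul' D03 hx' (by norm_num))
  by_cases hy3 : V.D 3 y
  swap
  · refine three h2 h3 ha hP hQ e4 (k := 3) hx hx2 (DVal.D_mono (by norm_num) hd2) ?_ hy3
    rw [es]
    exact DVal.D_neg (DVal.D_mul' hl hd2 (by norm_num))
  exfalso
  have hq4 : V.D 4 (3 * x ^ 2 + a) := by
    rw [← e1]
    exact DVal.D_mul' (DVal.D_mul' D02 hy3 (by norm_num) : V.D 3 (2 * y)) hl (by norm_num)
  have ha4 : V.D 4 a := by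
    have h4 : a = (3 * x ^ 2 + a) - 3 * x ^ 2 := by ring
    rw [h4]
    exact DVal.D_sub hq4 hxx
  refine hmin ⟨ha4, ?_⟩
  have h4 : b = y ^ 2 - x ^ 3 - a * x := by
    linear_combination -(scurve_eq hP)
  rw [h4]
  refine DVal.D_sub (DVal.D_sub ?_ ?_) ?_
  · exact DVal.D_pow' hy3 2 (by norm_num)
  · exact DVal.D_pow' hx' 3 (by norm_num)
  · exact DVal.D_mul' ha4 hx' (by norm_num)

end Pool.Agent.Lib.MP_3550b5_nt.G
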