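import Mathlib
import Pool.Agent.Lib.MP_3550b5_nt.G.NS

/-!
The points with nonsingular reduction form a subgroup.
-/

namespace Pool.Agent.Lib.MP_3550b5_nt.G

open WeierstrassCurve.Affine

variable {K : Type*} [Field K] {V : DVal K} {a b : K}

private lemma closed_sing_of_D {x0 y0 x2 y2 : K} (e0 : y0 ^ 2 = x0 ^ 3 + a * x0 + b)
    (e2 : y2 ^ 2 = x2 ^ 3 + a * x2 + b) (h0 : V.Sing a x0 y0) (hu : V.D 1 (x2 - x0)) :
    V.Sing a x2 y2 := by
  obtain ⟨hx, hy, hf⟩ := h0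
  have hx2 : V.D 0 x2 := by
    have h1 := DVal.D_add hx (DVal.D_mono (by norm_num : (0 : ℤ) ≤ 1) hu)
    rwa [add_sub_cancel] at h1
  refine ⟨hx2, ?_, ?_⟩
  · apply DVal.D_sq
    have h1 : y2 ^ 2 = y0 ^ 2 + (3 * x0 ^ 2 + a) * (x2 - x0) + 3 * x0 * (x2 - x0) ^ 2 +
        (x2 - x0) ^ 3 := by
      linear_combination e2 - e0
    rw [h1]
    have h2 : V.D (2 * 1 - 1) (y0 ^ 2) := DVal.D_pow' hy 2 (by norm_num)
    have h3 : V.D (2 * 1 - 1) ((3 * x0 ^ 2 + a) * (x2 - x0)) := DVal.D_mul' hf hu (by norm_num)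
    have h4 : V.D (2 * 1 - 1) (3 * x0 * (x2 - x0) ^ 2) :=
      DVal.D_mul' (DVal.D_mul (DVal.D_ofNat 3) hx) (DVal.D_pow hu 2) (by norm_num)
    have h5 : V.D (2 * 1 - 1) ((x2 - x0) ^ 3) := DVal.D_pow' hu 3 (by norm_num)
    exact DVal.D_add (DVal.D_add (DVal.D_add h2 h3) h4) h5
  · have h1 : 3 * x2 ^ 2 + a = (3 * x0 ^ 2 + a) + 6 * x0 * (x2 - x0) + 3 * (x2 - x0) ^ 2 := by
      ring
    rw [h1]
    have h3 : V.D 1 (6 * x0 * (x2 - x0)) :=
      DVal.D_mul' (DVal.D_mul (DVal.D_ofNat 6) hx) hu (by norm_num)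
    have h4 : V.D 1 (3 * (x2 - x0) ^ 2) :=
      DVal.D_mul' (DVal.D_ofNat 3) (DVal.D_pow hu 2) (by norm_num)
    exact DVal.D_add (DVal.D_add hf h3) h4

/-- PROOF. Let `u = x2 - x0`. Suppose `D 1 u`. Then `D 0 x2`; `y2^2 = x2^3 + a x2 + b =
y0^2 + (3 x0^2 + a) u + 3 x0 u^2 + u^3` has `D 1`, so `D 1 y2` (`D_sq` with `k = 1`), and
`3 x2^2 + a = (3 x0^2 + a) + 6 x0 u + 3 u^2` has `D 1`: `(x2, y2)` is singular, a contradiction. -/
lemma not_D_sub {x0 y0 x2 y2 : K} (e0 : y0 ^ 2 = x0 ^ 3 + a * x0 + b)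
    (e2 : y2 ^ 2 = x2 ^ 3 + a * x2 + b) (h0 : V.Sing a x0 y0) (h2 : ¬ V.Sing a x2 y2) :
    ¬ V.D 1 (x2 - x0) :=
  fun hu => h2 (closed_sing_of_D e0 e2 h0 hu)

/-- Two elements with small sum and small product are small. PROOF. If `¬ D 1 s`: as
`D 1 (s + t)`, also `¬ D 1 t` (`t = (s + t) - s`, `D_sub`). So `¬ D 1 (s t)` by `not_D_mul`,
a contradiction. Symmetrically for `t`. -/
lemma D_of_sum_prod {s t : K} (h1 : V.D 1 (s + t)) (h2 : V.D 1 (s * t)) : V.D 1 s ∧ V.D 1 t := by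
  have key : ∀ {s t : K}, V.D 1 (s + t) → V.D 1 (s * t) → V.D 1 s := by
    intro s t h1 h2
    by_contra hs
    have ht : ¬ V.D 1 t := by
      intro ht
      apply hs
      have h3 := DVal.D_sub h1 ht
      rwa [add_sub_cancel_right] at h3
    have h4 := DVal.not_D_mul hs ht
    exact h4 (by norm_num; exact h2)
  refine ⟨key h1 h2, key (s := t) (t := s) (by rwa [add_comm]) (by rwa [mul_comm])⟩

/-- A singular point minus a nonsingular point is singular.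

PROOF. Let `R = (x0, y0)` be singular, `Q = (x2, y2)` nonsingular, `R - Q = (x4, y4)`. If
`x0 = x2` then `not_D_sub` fails (`D 1 0`). So `x0 ≠ x2`, and `add_sub_coord` gives
`R + Q = (s, _)`, `R - Q = (t, _)`, `t = x4`, with
`(x0 - x2)^2 (s + t) = 2 ((x0 + x2) (x0 x2 + a) + 2 b)` and
`(x0 - x2)^2 (s t) = (x0 x2 - a)^2 - 4 b (x0 + x2)`. With `u = x2 - x0`, `f' = 3 x0^2 + a`,
`b = y0^2 - x0^3 - a x0` one checks (`linear_combination`)
`u^2 ((s - x0) + (t - x0)) = 2 f' u + 4 y0^2` and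
`u^2 ((s - x0) (t - x0)) = f'^2 - 12 x0 y0^2 - 4 y0^2 u`.
By `not_D_sub`, `¬ D 1 u`, i.e. `V.v u ≤ 0`. Let `k = V.v u ≤ 0`, so `D k u`, `¬ D (k + 1) u`.
The right sides have `D (2 k + 1)`: `f' u` has `D (1 + k)` and `1 + k ≥ 2 k + 1`; `y0^2` has `D 2`;
etc. Cancelling `u^2` (`D_of_mul` twice, or `¬ D (2 k + 1) (u^2)` and `D_of_mul`):
`D 1 ((s - x0) + (t - x0))` and `D 1 ((s - x0) (t - x0))`. By `D_of_sum_prod`, `D 1 (t - x0)`. So
`D 0 t`, `y4^2 = t^3 + a t + b` has `D 1` (Taylor expansion at `x0` as in `not_D_sub`), so `D 1 y4`,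
and `D 1 (3 t^2 + a)`. -/
lemma sing_sub [DecidableEq K] {x0 y0 x2 y2 x4 y4 : K} (h0 : (scurve a b).Nonsingular x0 y0)
    (h2 : (scurve a b).Nonsingular x2 y2) (h4 : (scurve a b).Nonsingular x4 y4)
    (e : (Point.some x0 y0 h0 : (scurve a b).Point) - Point.some x2 y2 h2 = Point.some x4 y4 h4)
    (s0 : V.Sing a x0 y0) (s2 : ¬ V.Sing a x2 y2) : V.Sing a x4 y4 := by
  have e0 := scurve_eq h0
  have e2 := scurve_eq h2
  have hu := not_D_sub e0 e2 s0 s2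
  have hx : x0 ≠ x2 := by
    rintro rfl
    exact hu (by rw [sub_self]; exact DVal.D_zero 1)
  obtain ⟨s, ys, hs, t, yt, ht, es, et, k1, k2⟩ := add_sub_coord h0 h2 hx
  rw [et] at e
  simp only [Point.some.injEq] at e
  obtain ⟨rfl, rfl⟩ := e
  obtain ⟨hx0, hy0, hf⟩ := s0
  have k3 : (x2 - x0) ^ 2 * ((s - x0) + (t - x0)) =
      2 * (3 * x0 ^ 2 + a) * (x2 - x0) + 4 * y0 ^ 2 := by
    linear_combination k1 - 4 * e0
  have k4 : (x2 - x0) ^ 2 * ((s - x0) * (t - x0)) =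
      (3 * x0 ^ 2 + a) ^ 2 - 12 * x0 * y0 ^ 2 - 4 * y0 ^ 2 * (x2 - x0) := by
    linear_combination k2 - x0 * k1 + (8 * x0 + 4 * x2) * e0
  have hu0 : x2 - x0 ≠ 0 := sub_ne_zero.mpr hx.symm
  obtain ⟨k, hk⟩ : ∃ k : ℤ, k = V.v (x2 - x0) := ⟨_, rfl⟩
  have hk0 : k ≤ 0 := by
    have h1 := (DVal.not_D_iff hu0).mp hu
    omega
  obtain ⟨hk1, hk2⟩ := DVal.exists_exact (V := V) hu0
  rw [← hk] at hk1 hk2
  have hsq : ¬ V.D (2 * k + 1) ((x2 - x0) ^ 2) := by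
    have h1 := DVal.not_D_mul hk2 hk2
    rw [← sq] at h1
    have h2 : k + 1 + (k + 1) - 1 = 2 * k + 1 := by ring
    rwa [h2] at h1
  have d1 : V.D (2 * k + 1) (2 * (3 * x0 ^ 2 + a) * (x2 - x0) + 4 * y0 ^ 2) := by
    refine DVal.D_add ?_ ?_
    · exact DVal.D_mul' (DVal.D_mul (DVal.D_ofNat 2) hf) hk1 (by omega)
    · exact DVal.D_mul' (DVal.D_ofNat 4) (DVal.D_pow hy0 2) (by push_cast; omega)
  have d2 : V.D (2 * k + 1)
      ((3 * x0 ^ 2 + a) ^ 2 - 12 * x0 * y0 ^ 2 - 4 * y0 ^ 2 * (x2 - x0)) := by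
    refine DVal.D_sub (DVal.D_sub ?_ ?_) ?_
    · exact DVal.D_pow' hf 2 (by push_cast; omega)
    · exact DVal.D_mul' (DVal.D_mul (DVal.D_ofNat 12) hx0) (DVal.D_pow hy0 2)
        (by push_cast; omega)
    · exact DVal.D_mul' (DVal.D_mul (DVal.D_ofNat 4) (DVal.D_pow hy0 2)) hk1
        (by push_cast; omega)
  have f1 : V.D 1 ((s - x0) + (t - x0)) := by
    apply DVal.D_of_mul hsq
    rw [k3]
    exact DVal.D_mono (by omega) d1
  have f2 : V.D 1 ((s - x0) * (t - x0)) := by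
    apply DVal.D_of_mul hsq
    rw [k4]
    exact DVal.D_mono (by omega) d2
  exact closed_sing_of_D e0 (scurve_eq ht) ⟨hx0, hy0, hf⟩ (D_of_sum_prod f1 f2).2

/-- The points with nonsingular reduction are closed under addition. PROOF. If `Q = 0` trivial.
Suppose `P + Q = R` is a singular point `(x0, y0)`; `Q = (x2, y2)` is nonsingular. `P = R - Q`.
`P ≠ 0`, since otherwise `R = Q`. So `P = (x4, y4)` and `sing_sub` says that `P` is singular. -/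
theorem DVal.NS_add [DecidableEq K] {P Q : (scurve a b).Point} (hP : V.NS P) (hQ : V.NS Q) :
    V.NS (P + Q) := by
  by_cases hQ0 : Q = 0
  · rw [hQ0, add_zero]; exact hP
  by_cases hP0 : P = 0
  · rw [hP0, zero_add]; exact hQ
  intro x y h e s
  rcases Q with _ | ⟨x2, y2, h2⟩
  · exact hQ0 rfl
  rcases P with _ | ⟨x4, y4, h4⟩
  · exact hP0 rfl
  have e' : (Point.some x y h : (scurve a b).Point) - Point.some x2 y2 h2 =
      Point.some x4 y4 h4 := by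
    rw [← e, add_sub_cancel_right]
  exact (DVal.NS_some.mp hP) (sing_sub h h2 h4 e' s (DVal.NS_some.mp hQ))

/-- PROOF. Induction on `m` with `NS_zero`, `NS_add`. -/
theorem DVal.NS_nsmul [DecidableEq K] {P : (scurve a b).Point} (hP : V.NS P) (m : ℕ) :
    V.NS (m • P) := by
  induction m with
  | zero => rw [zero_nsmul]; exact DVal.NS_zero
  | succ m ih => rw [succ_nsmul]; exact DVal.NS_add ih hP

/-- PROOF. `NS_add` and `NS_neg`. -/
theorem DVal.NS_sub [DecidableEq K] {P Q : (scurve a b).Point} (hP : V.NS P) (hQ : V.NS Q) :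
    V.NS (P - Q) := by
  rw [sub_eq_add_neg]
  exact DVal.NS_add hP (DVal.NS_neg.mpr hQ)

end Pool.Agent.Lib.MP_3550b5_nt.G
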