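import Mathlib
import Pool.Agent.Lib.MP_3550b5_nt.G.NS

/-!
Multiplicative reduction (residue characteristic not `2`, `3`): some multiple of every point has
nonsingular reduction.

Notation for the whole file: `a` is a unit; `x0 = -3 b / (2 a)` is (a lift of) the `x`-coordinate
of the node; `c = 3 x0`; `d1 = 3 x0^2 + a = (4 a^3 + 27 b^2) / (4 a^2)` and
`d0 = x0^3 + a x0 + b = -b (4 a^3 + 27 b^2) / (8 a^3)` are the Taylor coefficients of
`f = x^3 + a x + b` at `x0`, so that, with `X = x - x0`,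
`x^3 + a x + b = X^3 + c X^2 + d1 X + d0` and `3 x^2 + a = 3 X^2 + 2 c X + d1`.
-/

namespace Pool.Agent.Lib.MP_3550b5_nt.G

open WeierstrassCurve.Affine

variable {K : Type*} [Field K] {V : DVal K} {a b x0 c d1 d0 : K}

/-- The node data: `n` is the valuation of the discriminant. -/
structure NodeData (V : DVal K) (a b x0 c d1 d0 : K) (n : ℤ) : Prop where
  h2 : ¬ V.D 1 (2 : K)
  h3 : ¬ V.D 1 (3 : K)
  ha : ¬ V.D 1 a
  ha0 : V.D 0 a
  hc : c = 3 * x0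
  hx0 : 2 * a * x0 = -3 * b
  hd1 : d1 = 3 * x0 ^ 2 + a
  hd0 : d0 = x0 ^ 3 + a * x0 + b
  c_unit : V.D 0 c ∧ ¬ V.D 1 c
  n_pos : 1 ≤ n
  d1_D : V.D n d1
  d0_D : V.D n d0
  d0_not : ¬ V.D (n + 1) d0

/-- The point data in terms of `X = x - x0`. PROOF. `D 1 (x - x0)`: `3 (x^3 + a x + b) -
x (3 x^2 + a) = 2 a x + 3 b = 2 a (x - x0)`, where `x^3 + a x + b = y^2` has `D 1` and `D 0 x`;
cancel the units `2`, `a` (`D_of_mul`). -/
lemma NodeData.D_X {n : ℤ} (N : NodeData V a b x0 c d1 d0 n) {x y : K}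
    (e : y ^ 2 = x ^ 3 + a * x + b) (h : V.Sing a x y) : V.D 1 (x - x0) := by
  obtain ⟨hx, hy, hd⟩ := h
  have hy2 : V.D 1 (y ^ 2) := DVal.D_pow' hy 2 (by norm_num)
  have h3y : V.D 1 (3 * y ^ 2) := DVal.D_mul' (DVal.D_ofNat 3) hy2 (by norm_num)
  have hxd : V.D 1 (x * (3 * x ^ 2 + a)) := DVal.D_mul' hx hd (by norm_num)
  have h1 : V.D 1 (2 * (a * (x - x0))) := by
    have h4 := DVal.D_sub h3y hxd
    have h5 : 2 * (a * (x - x0)) = 3 * y ^ 2 - x * (3 * x ^ 2 + a) := by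
      rw [e]
      linear_combination -N.hx0
    rw [h5]
    exact h4
  have h2 : V.D 1 (a * (x - x0)) := DVal.D_of_mul (j := 1) (k := 1) N.h2 (by simpa using h1)
  exact DVal.D_of_mul (j := 1) (k := 1) N.ha (by simpa using h2)

/-- Existence of the node data if there is a singular point `(x, y)` and `a` is a unit.
PROOF. Put `x0 = -3 b / (2 a)` etc., `Δ = 4 a^3 + 27 b^2`. As in the previous lemma
`D 1 (2 a x + 3 b)`. Since `D 1 (3 x^2 + a)` and `a` is a unit, `¬ D 1 x`, so `¬ D 1 (3 b)` (else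
`D 1 (2 a x)`), so `¬ D 1 b`, and `D 0 b` from `b = y^2 - x^3 - a x`. So `V.v a = V.v b = 0`,
`V.v 2 = V.v 3 = 0`. `n := V.v Δ`; `n ≥ 1` because `Δ` is
`-(18 a x - 27 b) (x^3 + a x + b) + (6 a x^2 - 9 b x + 4 a^2) (3 x^2 + a)` (check with `ring`).
Then `d1 = Δ / (4 a^2)`, `d0 = -b Δ / (8 a^3)` have valuation exactly `n`, and
`c = 3 x0 = -9 b / (2 a)` has valuation `0`. -/
lemma exists_nodeData (h2 : ¬ V.D 1 (2 : K)) (h3 : ¬ V.D 1 (3 : K)) (ha : ¬ V.D 1 a)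
    (ha0 : V.D 0 a) (hΔ : 4 * a ^ 3 + 27 * b ^ 2 ≠ 0) {x y : K}
    (e : y ^ 2 = x ^ 3 + a * x + b) (h : V.Sing a x y) :
    ∃ (x0 c d1 d0 : K) (n : ℤ), NodeData V a b x0 c d1 d0 n := by
  obtain ⟨hx, hy, hd⟩ := h
  have hy2 : V.D 1 (y ^ 2) := DVal.D_pow' hy 2 (by norm_num)
  have k2 : V.D 0 (2 : K) := DVal.D_ofNat 2
  have k3 : V.D 0 (3 : K) := DVal.D_ofNat 3
  have e20 : (2 : K) ≠ 0 := DVal.ne_zero_of_not_D h2
  have e30 : (3 : K) ≠ 0 := DVal.ne_zero_of_not_D h3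
  have ea0 : a ≠ 0 := DVal.ne_zero_of_not_D ha
  -- `D 1 (2 a x + 3 b)`
  have h1 : V.D 1 (2 * (a * x) + 3 * b) := by
    have h3y : V.D 1 (3 * y ^ 2) := DVal.D_mul' k3 hy2 (by norm_num)
    have hxd : V.D 1 (x * (3 * x ^ 2 + a)) := DVal.D_mul' hx hd (by norm_num)
    have h5 : 2 * (a * x) + 3 * b = 3 * y ^ 2 - x * (3 * x ^ 2 + a) := by
      rw [e]; ring
    rw [h5]
    exact DVal.D_sub h3y hxd
  have hxu : ¬ V.D 1 x := by
    intro hx1
    apply ha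
    have h6 : V.D 1 (3 * x ^ 2) :=
      DVal.D_mul' (j := 0) (k := 1) k3 (DVal.D_pow' hx1 2 (by norm_num)) (by norm_num)
    have h7 := DVal.D_sub hd h6
    have h8 : 3 * x ^ 2 + a - 3 * x ^ 2 = a := by ring
    rwa [h8] at h7
  have hb : ¬ V.D 1 b := by
    intro hb1
    have h6 : V.D 1 (3 * b) := DVal.D_mul' (j := 0) (k := 1) k3 hb1 (by norm_num)
    have h7 := DVal.D_sub h1 h6
    have h8 : 2 * (a * x) + 3 * b - 3 * b = 2 * (a * x) := by ring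
    rw [h8] at h7
    have h9 : V.D 1 (a * x) := DVal.D_of_mul (j := 1) (k := 1) h2 (by simpa using h7)
    exact hxu (DVal.D_of_mul (j := 1) (k := 1) ha (by simpa using h9))
  have hb0 : V.D 0 b := by
    have h6 : b = y ^ 2 - x ^ 3 - a * x := by rw [e]; ring
    rw [h6]
    exact DVal.D_sub (DVal.D_sub (DVal.D_mono (by norm_num) hy2)
      (DVal.D_pow' hx 3 (by norm_num))) (DVal.D_mul' ha0 hx (by norm_num))
  have eb0 : b ≠ 0 := DVal.ne_zero_of_not_D hb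
  have unit : ∀ {t : K}, t ≠ 0 → V.D 0 t → ¬ V.D 1 t → V.v t = 0 := by
    intro t ht h0 h1
    rw [DVal.D_iff ht] at h0
    rw [DVal.not_D_iff ht] at h1
    omega
  have va : V.v a = 0 := unit ea0 ha0 ha
  have vb : V.v b = 0 := unit eb0 hb0 hb
  have v2 : V.v (2 : K) = 0 := unit e20 k2 h2
  have v3 : V.v (3 : K) = 0 := unit e30 k3 h3
  have n1 : 1 ≤ V.v (4 * a ^ 3 + 27 * b ^ 2) := by
    rw [← DVal.D_iff hΔ]
    have h6 : 4 * a ^ 3 + 27 * b ^ 2 =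
        (6 * a * x ^ 2 - 9 * b * x + 4 * a ^ 2) * (3 * x ^ 2 + a) -
          (18 * a * x - 27 * b) * y ^ 2 := by
      rw [e]; ring
    rw [h6]
    have k6 : V.D 0 (6 : K) := DVal.D_ofNat 6
    have k9 : V.D 0 (9 : K) := DVal.D_ofNat 9
    have k4 : V.D 0 (4 : K) := DVal.D_ofNat 4
    have k18 : V.D 0 (18 : K) := DVal.D_ofNat 18
    have k27 : V.D 0 (27 : K) := DVal.D_ofNat 27
    have mul0 : ∀ {s t : K}, V.D 0 s → V.D 0 t → V.D 0 (s * t) := fun hs ht =>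
      DVal.D_mul' hs ht (by norm_num)
    have q1 : V.D 0 (6 * a * x ^ 2 - 9 * b * x + 4 * a ^ 2) :=
      DVal.D_add (DVal.D_sub (mul0 (mul0 k6 ha0) (DVal.D_pow' hx 2 (by norm_num)))
        (mul0 (mul0 k9 hb0) hx)) (mul0 k4 (DVal.D_pow' ha0 2 (by norm_num)))
    have q2 : V.D 0 (18 * a * x - 27 * b) :=
      DVal.D_sub (mul0 (mul0 k18 ha0) hx) (mul0 k27 hb0)
    exact DVal.D_sub (DVal.D_mul' q1 hd (by norm_num)) (DVal.D_mul' q2 hy2 (by norm_num))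
  have v2a : V.v (2 * a) = 0 := by rw [V.map_mul e20 ea0, v2, va]; rfl
  have e2a : (2 : K) * a ≠ 0 := mul_ne_zero e20 ea0
  have e3b : (3 : K) * b ≠ 0 := mul_ne_zero e30 eb0
  have v3b : V.v (3 * b) = 0 := by rw [V.map_mul e30 eb0, v3, vb]; rfl
  -- the four constants
  have hx0' : 2 * a * (-(3 * b) / (2 * a)) = -3 * b := by
    field_simp
  have E1 : 3 * (-(3 * b) / (2 * a)) ^ 2 + a = (4 * a ^ 3 + 27 * b ^ 2) / (2 * a) ^ 2 := by
    field_simp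
    ring
  have E0 : (-(3 * b) / (2 * a)) ^ 3 + a * (-(3 * b) / (2 * a)) + b =
      -(b * (4 * a ^ 3 + 27 * b ^ 2)) / (2 * a) ^ 3 := by
    field_simp
    ring
  have V1 : V.v ((4 * a ^ 3 + 27 * b ^ 2) / (2 * a) ^ 2) = V.v (4 * a ^ 3 + 27 * b ^ 2) := by
    rw [DVal.v_div hΔ (pow_ne_zero 2 e2a), DVal.v_pow e2a, v2a]; ring
  have V0 : V.v (-(b * (4 * a ^ 3 + 27 * b ^ 2)) / (2 * a) ^ 3) =
      V.v (4 * a ^ 3 + 27 * b ^ 2) := by
    rw [DVal.v_div (neg_ne_zero.mpr (mul_ne_zero eb0 hΔ)) (pow_ne_zero 3 e2a), DVal.v_pow e2a,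
      v2a, DVal.v_neg, V.map_mul eb0 hΔ, vb]; ring
  have F1 : (4 * a ^ 3 + 27 * b ^ 2) / (2 * a) ^ 2 ≠ 0 := div_ne_zero hΔ (pow_ne_zero 2 e2a)
  have F0 : -(b * (4 * a ^ 3 + 27 * b ^ 2)) / (2 * a) ^ 3 ≠ 0 :=
    div_ne_zero (neg_ne_zero.mpr (mul_ne_zero eb0 hΔ)) (pow_ne_zero 3 e2a)
  have Fx : -(3 * b) / (2 * a) ≠ 0 := div_ne_zero (neg_ne_zero.mpr e3b) e2a
  have Vx : V.v (-(3 * b) / (2 * a)) = 0 := by
    rw [DVal.v_div (neg_ne_zero.mpr e3b) e2a, DVal.v_neg, v3b, v2a]; rfl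
  have Fc : (3 : K) * (-(3 * b) / (2 * a)) ≠ 0 := mul_ne_zero e30 Fx
  have Vc : V.v (3 * (-(3 * b) / (2 * a))) = 0 := by
    rw [V.map_mul e30 Fx, v3, Vx]; rfl
  refine ⟨-(3 * b) / (2 * a), _, _, _, V.v (4 * a ^ 3 + 27 * b ^ 2),
    { h2 := h2, h3 := h3, ha := ha, ha0 := ha0, hc := rfl, hx0 := hx0', hd1 := rfl, hd0 := rfl,
      c_unit := ?_, n_pos := n1, d1_D := ?_, d0_D := ?_, d0_not := ?_ }⟩
  · constructor
    · rw [DVal.D_iff Fc, Vc]
    · rw [DVal.not_D_iff Fc, Vc]; norm_num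
  · rw [E1, DVal.D_iff F1, V1]
  · rw [E0, DVal.D_iff F0, V0]
  · rw [E0, DVal.not_D_iff F0, V0]; omega

/-- A point on the middle component: twice the point is nonsingular. Here `X = x - x0` satisfies
`D h X` with `n ≤ 2 h` and `P = (x, y)` is singular.

PROOF. We may assume `h = (n + 1) / 2` rounded down (so `n ≤ 2 h ≤ n + 1`, `h ≥ 1`): `D_mono`.
`y^2 = X^3 + c X^2 + d1 X + d0`, every term has `D n`, so `D n (y^2)`. Also `D h y`
(`D (2 h - 1) (y^2)`, `D_sq`). `y^2 - c X^2 - d0 = X^3 + d1 X` has `D (n + 1)` (`3 h ≥ n + 1`). If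
`n = 2 h - 1` then `D (n + 1) (y^2)` and `D (n + 1) (c X^2)`, so `D (n + 1) d0`, a contradiction. So
`n = 2 h`. Put `u = y^2 - c X^2`; `¬ D (2 h + 1) u` (else `D (n + 1) d0`).
If `2 y = 0` then `2 P = 0`. Otherwise let `2 y l = 3 x^2 + a`, `2 P = (x2, y2)`,
`x2 = l^2 - 2 x` (`dbl_coord`). Suppose `2 P` singular. By `NodeData.D_X`, `D 1 (x2 - x0)`. And
`x2 - x0 = l^2 - c - 2 X` (as `2 x + x0 = 2 X + c`). So `D 1 (l^2 - c)`. Multiply by `4 y^2`:
`4 y^2 (l^2 - c) = (3 X^2 + 2 c X + d1)^2 - 4 c y^2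
  = -4 c u + [(3 X^2 + d1)^2 + 4 c X (3 X^2 + d1)]`. The bracket has `D (2 h + 1)`
(`3 X^2 + d1` has `D (2 h)` and `h ≥ 1`). The left side has `D (2 h + 1)` (`D (2 h) (y^2)`). So
`D (2 h + 1) (4 c u)`, and cancelling units `D (2 h + 1) u`, a contradiction. -/
lemma NodeData.ns_middle [DecidableEq K] {n : ℤ} (N : NodeData V a b x0 c d1 d0 n) {x y : K}
    (hP : (scurve a b).Nonsingular x y) (hs : V.Sing a x y) {h : ℤ} (hn : n ≤ 2 * h)
    (hX : V.D h (x - x0)) : V.NS (2 • (Point.some x y hP : (scurve a b).Point)) := by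
  have _ := hs
  have hn1 := N.n_pos
  obtain ⟨k, hk1, hk2, hk3⟩ : ∃ k : ℤ, n ≤ 2 * k ∧ 2 * k ≤ n + 1 ∧ k ≤ h :=
    ⟨(n + 1) / 2, by omega, by omega, by omega⟩
  have hXk : V.D k (x - x0) := DVal.D_mono hk3 hX
  have hT : y ^ 2 = (x - x0) ^ 3 + c * (x - x0) ^ 2 + d1 * (x - x0) + d0 := by
    rw [(nonsing_iff.mp hP).1, N.hc, N.hd1, N.hd0]; ring
  have hX3 : V.D (n + 1) ((x - x0) ^ 3) := DVal.D_pow' hXk 3 (by push_cast; omega)
  have hd1X : V.D (n + 1) (d1 * (x - x0)) := DVal.D_mul' N.d1_D hXk (by omega)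
  have hcX : V.D (2 * k) (c * (x - x0) ^ 2) :=
    DVal.D_mul' N.c_unit.1 (DVal.D_pow' (l := 2 * k) hXk 2 (by push_cast; omega)) (by omega)
  have hy2 : V.D n (y ^ 2) := by
    rw [hT]
    exact DVal.D_add (DVal.D_add (DVal.D_add (DVal.D_mono (by omega) hX3)
      (DVal.D_mono hk1 hcX)) (DVal.D_mono (by omega) hd1X)) N.d0_D
  have hy : V.D k y := DVal.D_sq (DVal.D_mono (by omega) hy2)
  have hy2' : V.D (2 * k) (y ^ 2) := DVal.D_pow' hy 2 (by push_cast; omega)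
  have hnk : n = 2 * k := by
    by_contra hne
    have hnk : n + 1 = 2 * k := by omega
    apply N.d0_not
    have e1 : d0 = y ^ 2 - (x - x0) ^ 3 - c * (x - x0) ^ 2 - d1 * (x - x0) := by rw [hT]; ring
    rw [e1]
    refine DVal.D_sub (DVal.D_sub (DVal.D_sub ?_ hX3) ?_) hd1X
    · rw [hnk]; exact hy2'
    · rw [hnk]; exact hcX
  have hu : ¬ V.D (2 * k + 1) (y ^ 2 - c * (x - x0) ^ 2) := by
    intro hu
    apply N.d0_not
    have e1 : d0 = y ^ 2 - c * (x - x0) ^ 2 - (x - x0) ^ 3 - d1 * (x - x0) := by rw [hT]; ring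
    rw [e1]
    refine DVal.D_sub (DVal.D_sub ?_ hX3) hd1X
    rw [hnk]; exact hu
  by_cases hy0 : 2 * y = 0
  · rw [two_nsmul, dbl_eq_zero hP hy0]
    exact DVal.NS_zero
  obtain ⟨l, x2, y2, h3, hl, ex2, -, eq⟩ := dbl_coord hP hy0
  rw [two_nsmul, eq, DVal.NS_some]
  intro hS
  have hx2 : V.D 1 (x2 - x0) := N.D_X (nonsing_iff.mp h3).1 hS
  have hk0 : 1 ≤ k := by omega
  have k2 : V.D 0 (2 : K) := DVal.D_ofNat 2
  have hlc : V.D 1 (l ^ 2 - c) := by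
    have e1 : l ^ 2 - c = (x2 - x0) + 2 * (x - x0) := by rw [ex2, N.hc]; ring
    rw [e1]
    exact DVal.D_add hx2 (DVal.D_mul' k2 hXk (by omega))
  have hL : V.D (2 * k + 1) (4 * (y ^ 2 * (l ^ 2 - c))) :=
    DVal.D_mul' (DVal.D_ofNat 4) (DVal.D_mul hy2' hlc) (by omega)
  have hW : V.D (2 * k) (3 * (x - x0) ^ 2 + d1) := by
    refine DVal.D_add (DVal.D_mul' (DVal.D_ofNat 3)
      (DVal.D_pow' (l := 2 * k) hXk 2 (by push_cast; omega)) (by omega)) ?_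
    rw [← hnk]; exact N.d1_D
  have hW2 : V.D (2 * k + 1) ((3 * (x - x0) ^ 2 + d1) ^ 2) :=
    DVal.D_pow' hW 2 (by push_cast; omega)
  have h4cX : V.D k (4 * (c * (x - x0))) :=
    DVal.D_mul' (DVal.D_ofNat 4) (DVal.D_mul' N.c_unit.1 hXk (l := k) (by omega)) (by omega)
  have hW3 : V.D (2 * k + 1) (4 * (c * (x - x0)) * (3 * (x - x0) ^ 2 + d1)) :=
    DVal.D_mul' h4cX hW (by omega)
  have hcu : V.D (2 * k + 1) (2 * (2 * (c * (y ^ 2 - c * (x - x0) ^ 2)))) := by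
    have e1 : 2 * (2 * (c * (y ^ 2 - c * (x - x0) ^ 2))) = (3 * (x - x0) ^ 2 + d1) ^ 2 +
        4 * (c * (x - x0)) * (3 * (x - x0) ^ 2 + d1) - 4 * (y ^ 2 * (l ^ 2 - c)) := by
      have e2 : 4 * (y ^ 2 * (l ^ 2 - c)) = (2 * y * l) ^ 2 - 4 * c * y ^ 2 := by ring
      rw [e2, hl, N.hd1, N.hc]
      ring
    rw [e1]
    exact DVal.D_sub (DVal.D_add hW2 hW3) hL
  have g1 : V.D (2 * k + 1) (2 * (c * (y ^ 2 - c * (x - x0) ^ 2))) :=
    DVal.D_of_mul (j := 1) N.h2 (DVal.D_mono (by omega) hcu)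
  have g2 : V.D (2 * k + 1) (c * (y ^ 2 - c * (x - x0) ^ 2)) :=
    DVal.D_of_mul (j := 1) N.h2 (DVal.D_mono (by omega) g1)
  exact hu (DVal.D_of_mul (j := 1) N.c_unit.2 (DVal.D_mono (by omega) g2))

/-- A point on a component `i < n / 2` (`X = x - x0`, `V.v X = i`, `1 ≤ i`, `2 i < n`): `y = r X`
with `r` integral and `r^2 = c` modulo the uniformiser.
PROOF. `r = y / X`; `y^2 - c X^2 = X^3 + d1 X + d0` has `D (2 i + 1)`. Divide by `X^2` (of
valuation exactly `2 i`): `D 1 (r^2 - c)`. So `D 0 (r^2)` and `D 0 r` (`D_mono` to `-1`, `D_sq` with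
`k = 0`). -/
lemma NodeData.slope {n : ℤ} (N : NodeData V a b x0 c d1 d0 n) {x y : K}
    (e : y ^ 2 = x ^ 3 + a * x + b) {i : ℤ} (hi : 1 ≤ i) (hn : 2 * i < n)
    (h1 : V.D i (x - x0)) (h2 : ¬ V.D (i + 1) (x - x0)) :
    ∃ r, y = r * (x - x0) ∧ V.D 0 r ∧ V.D 1 (r ^ 2 - c) := by
  have hX : x - x0 ≠ 0 := DVal.ne_zero_of_not_D h2
  have hr : y = y / (x - x0) * (x - x0) := (div_mul_cancel₀ y hX).symm
  have key : V.D 1 ((y / (x - x0)) ^ 2 - c) := by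
    have hnot : ¬ V.D (2 * i + 1) ((x - x0) ^ 2) := by
      have h := DVal.not_D_mul h2 h2
      rw [sq]
      intro hh
      exact h (by convert hh using 2; ring)
    have hD : V.D (2 * i + 1 + 1 - 1) ((x - x0) ^ 2 * ((y / (x - x0)) ^ 2 - c)) := by
      have e1 : (x - x0) ^ 2 * ((y / (x - x0)) ^ 2 - c) =
          (x - x0) ^ 3 + d1 * (x - x0) + d0 := by
        have e2 : (x - x0) ^ 2 * ((y / (x - x0)) ^ 2 - c) =
            (y / (x - x0) * (x - x0)) ^ 2 - c * (x - x0) ^ 2 := by ring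
        rw [e2, ← hr, e, N.hc, N.hd1, N.hd0]
        ring
      rw [e1]
      have t1 : V.D (2 * i + 1 + 1 - 1) ((x - x0) ^ 3) :=
        DVal.D_pow' h1 3 (by push_cast; omega)
      have t2 : V.D (2 * i + 1 + 1 - 1) (d1 * (x - x0)) := DVal.D_mul' N.d1_D h1 (by omega)
      have t3 : V.D (2 * i + 1 + 1 - 1) d0 := DVal.D_mono (by omega) N.d0_D
      exact DVal.D_add (DVal.D_add t1 t2) t3
    exact DVal.D_of_mul hnot hD
  refine ⟨y / (x - x0), hr, ?_, key⟩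
  have hsq : V.D 0 ((y / (x - x0)) ^ 2) := by
    have := DVal.D_add (DVal.D_mono (by norm_num) key) N.c_unit.1
    rwa [sub_add_cancel] at this
  exact DVal.D_sq (k := 0) (DVal.D_mono (by norm_num) hsq)

/-- Two points on the same component. PROOF. Let `P1 = (x1, y1)`, `P2 = (x2, y2)`, `X1 = x1 - x0`,
`X2 = x2 - x0`, both of valuation exactly `i`, `y1 = r X1`, `y2 = (r + s) X2` with `D 0 r`,
`D 1 (r^2 - c)`, `D 1 s`. If `x1 = x2` then `P1 = P2` or `P1 = -P2` (`eq_or_neg_of_x`): in the first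
case the difference is `0`. In the second case `y1 = -y2`, i.e. `r X1 = -(r + s) X1`, so
`2 r = -s`, so `D 1 r`, so `D 1 c`: impossible. So let `x1 ≠ x2`, `l (x1 - x2) = y1 + y2`,
`P1 - P2 = (x3, y3)`, `x3 = l^2 - x1 - x2` (`sub_coord`). If `P1 - P2` is singular,
`D 1 (x3 - x0)` (`NodeData.D_X`), and `x3 - x0 = l^2 - c - X1 - X2`, so `D 1 (l^2 - c)`. Multiply by
`(X1 - X2)^2`, which has `D (2 i)`: `D (2 i + 1) ((y1 + y2)^2 - c (X1 - X2)^2)`. But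
`(y1 + y2)^2 - c (X1 - X2)^2 = 4 c X1 X2 + (r^2 - c) (X1 + X2)^2 + 2 r s X2 (X1 + X2) + s^2 X2^2`
and all terms but the first have `D (2 i + 1)`. So `D (2 i + 1) (4 c X1 X2)`; cancel `4`, `c`, `X1`:
`D (i + 1) X2`, a contradiction. -/
lemma NodeData.ns_sub [DecidableEq K] {n : ℤ} (N : NodeData V a b x0 c d1 d0 n) {x1 y1 x2 y2 : K}
    (hP1 : (scurve a b).Nonsingular x1 y1) (hP2 : (scurve a b).Nonsingular x2 y2) {i : ℤ}
    (hi : 1 ≤ i) (h1 : V.D i (x1 - x0)) (h1' : ¬ V.D (i + 1) (x1 - x0)) (h2 : V.D i (x2 - x0))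
    (h2' : ¬ V.D (i + 1) (x2 - x0)) {r s : K} (e1 : y1 = r * (x1 - x0))
    (e2 : y2 = (r + s) * (x2 - x0)) (hr : V.D 0 r) (hrc : V.D 1 (r ^ 2 - c)) (hs : V.D 1 s) :
    V.NS ((Point.some x1 y1 hP1 : (scurve a b).Point) - Point.some x2 y2 hP2) := by
  by_cases hx : x1 = x2
  · rcases eq_or_neg_of_x hP1 hP2 hx with h | h
    · rw [h, sub_self]
      exact DVal.NS_zero
    · exfalso
      obtain ⟨h', e⟩ := neg_coord hP2
      rw [e] at h
      simp only [Point.some.injEq] at h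
      have hy : y1 = -y2 := h.2
      have hX : x1 - x0 ≠ 0 := DVal.ne_zero_of_not_D h1'
      have h2r : 2 * r = -s := by
        have h3 : (x1 - x0) * (2 * r + s) = 0 := by
          have h4 := hy
          rw [e1, e2, ← hx] at h4
          linear_combination h4
        rcases mul_eq_zero.mp h3 with h4 | h4
        · exact absurd h4 hX
        · linear_combination h4
      have hD2r : V.D (1 + 1 - 1) (2 * r) := by
        rw [h2r]
        exact DVal.D_neg (DVal.D_mono (by norm_num) hs)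
      have hDr : V.D 1 r := DVal.D_of_mul N.h2 hD2r
      have hDr2 : V.D 1 (r ^ 2) := DVal.D_pow' hDr 2 (by norm_num)
      have := DVal.D_sub hDr2 hrc
      rw [sub_sub_cancel] at this
      exact N.c_unit.2 this
  · obtain ⟨l, x3, y3, h3, f1, f2, f3, f4⟩ := sub_coord hP1 hP2 hx
    rw [f4, DVal.NS_some]
    intro hsing
    have g1 := N.D_X (nonsing_iff.mp h3).1 hsing
    have g2 : V.D 1 (l ^ 2 - c) := by
      have e3 : l ^ 2 - c = (x3 - x0) + (x1 - x0) + (x2 - x0) := by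
        rw [f2, N.hc]; ring
      rw [e3]
      exact DVal.D_add (DVal.D_add g1 (DVal.D_mono hi h1)) (DVal.D_mono hi h2)
    have g3 : V.D i (x1 - x2) := by
      have := DVal.D_sub h1 h2
      rwa [sub_sub_sub_cancel_right] at this
    have g4 : V.D (2 * i + 1) ((x1 - x2) ^ 2 * (l ^ 2 - c)) :=
      DVal.D_mul' (DVal.D_pow g3 2) g2 (by push_cast; omega)
    have e4 : (x1 - x2) ^ 2 * (l ^ 2 - c) = (y1 + y2) ^ 2 - c * (x1 - x2) ^ 2 := by
      rw [← f1]; ring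
    have e5 : 2 * 2 * (c * ((x1 - x0) * (x2 - x0))) =
        (x1 - x2) ^ 2 * (l ^ 2 - c) - ((r ^ 2 - c) * ((x1 - x0) + (x2 - x0)) ^ 2 +
          2 * (r * s * ((x2 - x0) * ((x1 - x0) + (x2 - x0)))) + s ^ 2 * (x2 - x0) ^ 2) := by
      rw [e4, e1, e2]; ring
    have g5 : V.D i ((x1 - x0) + (x2 - x0)) := DVal.D_add h1 h2
    have t1 : V.D (2 * i + 1) ((r ^ 2 - c) * ((x1 - x0) + (x2 - x0)) ^ 2) :=
      DVal.D_mul' hrc (DVal.D_pow g5 2) (by push_cast; omega)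
    have t2 : V.D (2 * i + 1) (2 * (r * s * ((x2 - x0) * ((x1 - x0) + (x2 - x0))))) :=
      DVal.D_mul' (DVal.D_ofNat 2) (DVal.D_mul (DVal.D_mul hr hs) (DVal.D_mul h2 g5)) (by omega)
    have t3 : V.D (2 * i + 1) (s ^ 2 * (x2 - x0) ^ 2) :=
      DVal.D_mul' (DVal.D_pow hs 2) (DVal.D_pow h2 2) (by push_cast; omega)
    have g6 : V.D (2 * i + 1) (2 * 2 * (c * ((x1 - x0) * (x2 - x0)))) := by
      rw [e5]
      exact DVal.D_sub g4 (DVal.D_add (DVal.D_add t1 t2) t3)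
    have g7 := DVal.not_D_mul (DVal.not_D_mul N.h2 N.h2)
      (DVal.not_D_mul N.c_unit.2 (DVal.not_D_mul h1' h2'))
    apply g7
    exact DVal.D_mono (by omega) g6

/-- Multiplicative reduction.

PROOF. Suppose no multiple `m P`, `m ≥ 1`, is `NS`. Then `m P = (x_m, y_m)` is singular for every
`m ≥ 1` (in particular not `0`). Let `N` be the node data (`exists_nodeData` for `m = 1`), `n` its
valuation. By `NodeData.D_X`, `D 1 (x_m - x0)`. If `x_m = x0` or `n ≤ 2 V.v (x_m - x0)` for some `m`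
then `2 m P` is `NS` by `ns_middle`. So `i_m := V.v (x_m - x0)` satisfies `1 ≤ i_m`, `2 i_m < n`. By
the infinite pigeonhole principle (`i` maps the infinite set of `m ≥ 1` into the finite interval
`[1, n]`, e.g. `Finite.exists_infinite_fiber` or `Set.Infinite.exists_ne_map_eq_of_mapsTo` three
times) there are `m1 < m2 < m3` with the same `i`. By `NodeData.slope`, `y_{mj} = r_j X_{mj}` with
`D 1 (r_j^2 - c)`. So `(r_1 - r_2) (r_1 + r_2)` has `D 1`, and one of the factors has `D 1` (`V` is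
prime: if `¬ D 1` for both then `¬ D 1` for the product by `not_D_mul`). The same for `(1, 3)`. If
`D 1 (r_1 + r_2)` and `D 1 (r_1 + r_3)` then `D 1 (r_2 - r_3)`. So there are `j < k` with
`D 1 (r_j - r_k)`, and `P_k - P_j = (m_k - m_j) P` is `NS` by `ns_sub` (with `r = r_k`,
`s = r_j - r_k`), a contradiction. -/
theorem exists_ns_mult [DecidableEq K] (h2 : ¬ V.D 1 (2 : K)) (h3 : ¬ V.D 1 (3 : K))
    (ha : ¬ V.D 1 a) (ha0 : V.D 0 a) (hΔ : 4 * a ^ 3 + 27 * b ^ 2 ≠ 0) (P : (scurve a b).Point) :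
    ∃ m : ℕ, 1 ≤ m ∧ V.NS (m • P) := by
  by_contra hcon
  push Not at hcon
  have hpt : ∀ m : ℕ, 1 ≤ m → ∃ (x y : K) (h : (scurve a b).Nonsingular x y),
      m • P = Point.some x y h ∧ V.Sing a x y := by
    intro m hm
    have h1 := hcon m hm
    unfold DVal.NS at h1
    push Not at h1
    exact h1
  obtain ⟨x', y', h', -, hs'⟩ := hpt 1 le_rfl
  obtain ⟨x0, c, d1, d0, n, N⟩ := exists_nodeData h2 h3 ha ha0 hΔ (nonsing_iff.mp h').1 hs'
  have hdat : ∀ m : ℕ, ∃ (x y : K) (h : (scurve a b).Nonsingular x y) (i : ℤ) (r : K),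
      (m + 1) • P = Point.some x y h ∧ 1 ≤ i ∧ 2 * i < n ∧ V.D i (x - x0) ∧
      ¬ V.D (i + 1) (x - x0) ∧ y = r * (x - x0) ∧ V.D 0 r ∧ V.D 1 (r ^ 2 - c) := by
    intro m
    obtain ⟨x, y, h, e, hs⟩ := hpt (m + 1) (by omega)
    have hmid : ∀ k : ℤ, n ≤ 2 * k → ¬ V.D k (x - x0) := by
      intro k hk hD
      have h4 := N.ns_middle h hs hk hD
      rw [← e, smul_smul] at h4
      exact hcon _ (by omega) h4
    have hX0 : x - x0 ≠ 0 := by
      intro h0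
      apply hmid n (by have := N.n_pos; omega)
      rw [h0]
      exact DVal.D_zero n
    obtain ⟨hD, hnD⟩ := DVal.exists_exact (V := V) hX0
    have hi1 : 1 ≤ V.v (x - x0) :=
      (DVal.D_iff hX0).mp (N.D_X (nonsing_iff.mp h).1 hs)
    have hi2 : 2 * V.v (x - x0) < n := by
      by_contra hge
      exact hmid _ (by omega) hD
    obtain ⟨r, hr1, hr2, hr3⟩ := N.slope (nonsing_iff.mp h).1 hi1 hi2 hD hnD
    exact ⟨x, y, h, V.v (x - x0), r, e, hi1, hi2, hD, hnD, hr1, hr2, hr3⟩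
  choose xx yy hh ii rr hdat using hdat
  have hpair : ∀ m m' : ℕ, m < m' → ii m = ii m' → ¬ V.D 1 (rr m - rr m') := by
    intro m m' hlt hii hD
    obtain ⟨e1, a1, a2, a3, a4, a5, a6, a7⟩ := hdat m
    obtain ⟨f1, b1, b2, b3, b4, b5, b6, b7⟩ := hdat m'
    rw [hii] at a3 a4
    have e2 : yy m = (rr m' + (rr m - rr m')) * (xx m - x0) := by
      rw [add_sub_cancel]; exact a5
    have h4 := N.ns_sub (hh m') (hh m) b1 b3 b4 a3 a4 b5 e2 b6 b7 hD
    rw [← e1, ← f1, sub_eq_add_neg, ← sub_nsmul P (by omega : m + 1 ≤ m' + 1)] at h4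
    exact hcon _ (by omega) h4
  have hsign : ∀ m m' : ℕ, V.D 1 (rr m - rr m') ∨ V.D 1 (rr m + rr m') := by
    intro m m'
    by_contra hcon2
    push Not at hcon2
    obtain ⟨-, -, -, -, -, -, -, a7⟩ := hdat m
    obtain ⟨-, -, -, -, -, -, -, b7⟩ := hdat m'
    apply DVal.not_D_mul hcon2.1 hcon2.2
    have e1 : (rr m - rr m') * (rr m + rr m') = (rr m ^ 2 - c) - (rr m' ^ 2 - c) := by ring
    rw [e1]
    exact DVal.D_mono (by norm_num) (DVal.D_sub a7 b7)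
  let f : ℕ → Set.Icc (1 : ℤ) n := fun m =>
    ⟨ii m, (hdat m).2.1, by have h5 := (hdat m).2.1; have h6 := (hdat m).2.2.1; omega⟩
  obtain ⟨z, hz⟩ := Finite.exists_infinite_fiber f
  have hinf : (f ⁻¹' {z}).Infinite := Set.infinite_coe_iff.mp hz
  obtain ⟨m1, hm1⟩ := hinf.nonempty
  obtain ⟨m2, hm2, h12⟩ := hinf.exists_gt m1
  obtain ⟨m3, hm3, h23⟩ := hinf.exists_gt m2
  have q1 : ii m1 = z.1 := congrArg Subtype.val (Set.mem_singleton_iff.mp hm1)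
  have q2 : ii m2 = z.1 := congrArg Subtype.val (Set.mem_singleton_iff.mp hm2)
  have q3 : ii m3 = z.1 := congrArg Subtype.val (Set.mem_singleton_iff.mp hm3)
  have s12 := (hsign m1 m2).resolve_left (hpair m1 m2 h12 (q1.trans q2.symm))
  have s13 := (hsign m1 m3).resolve_left (hpair m1 m3 (h12.trans h23) (q1.trans q3.symm))
  apply hpair m2 m3 h23 (q2.trans q3.symm)
  have := DVal.D_sub s12 s13
  rwa [add_sub_add_left_eq_sub] at this

end Pool.Agent.Lib.MP_3550b5_nt.G
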