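import Mathlib
import Pool.Agent.Lib.MP_3550b5_nt.G.UFD

/-!
Representations of points; reduction to lowest terms.
-/

namespace Pool.Agent.Lib.MP_3550b5_nt.G

open WeierstrassCurve.Affine

variable {A : Type*} [CommRing A] [IsDomain A] [UniqueFactorizationMonoid A]
  {K : Type*} [Field K]

omit [IsDomain A] [UniqueFactorizationMonoid A] in
private lemma phi_ne {φ : A →+* K} (hφ : IsFrac φ) {W : A} (hW : W ≠ 0) : φ W ≠ 0 := by
  rwa [Ne, map_eq_zero_iff φ hφ.inj]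

/-- The equation in `A`. PROOF. `scurve_eq`, multiply by `φ W ^ 6`, injectivity. -/
lemma Rep.eqn {φ : A →+* K} (hφ : IsFrac φ) {a b X Y W : A} {P : (scurve (φ a) (φ b)).Point}
    (h : Rep φ X Y W P) : Y ^ 2 = X ^ 3 + a * X * W ^ 4 + b * W ^ 6 := by
  obtain ⟨hW, hns, -⟩ := h
  have hw := phi_ne hφ hW
  have e := scurve_eq hns
  apply hφ.inj
  simp only [map_add, map_mul, map_pow]
  have h1 : φ Y ^ 2 = (φ Y / φ W ^ 3) ^ 2 * φ W ^ 6 := by field_simp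
  rw [h1, e]
  field_simp

/-- Every nonzero point has a representation. PROOF. `x = φ f / φ g`, `y = φ f' / φ g'`: take
`W = g g'`, `X = f g g'^2`, `Y = f' g^3 g'^2`. -/
lemma exists_rep0 {φ : A →+* K} (hφ : IsFrac φ) {a b : A} {P : (scurve (φ a) (φ b)).Point}
    (hP : P ≠ 0) : ∃ X Y W : A, Rep φ X Y W P := by
  rcases P with _ | ⟨x, y, h⟩
  · exact absurd rfl hP
  obtain ⟨f, g, hg, hx⟩ := hφ.surj x
  obtain ⟨f', g', hg', hy⟩ := hφ.surj y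
  have h1 := phi_ne hφ hg
  have h2 := phi_ne hφ hg'
  have ex : φ (f * g * g' ^ 2) / φ (g * g') ^ 2 = x := by
    rw [hx]
    simp only [map_mul, map_pow]
    field_simp
  have ey : φ (f' * g ^ 3 * g' ^ 2) / φ (g * g') ^ 3 = y := by
    rw [hy]
    simp only [map_mul, map_pow]
    field_simp
  refine ⟨f * g * g' ^ 2, f' * g ^ 3 * g' ^ 2, g * g', mul_ne_zero hg hg', ?_⟩
  rw [ex, ey]
  exact ⟨h, rfl⟩

/-- Reduction to lowest terms. PROOF. Induction on `W` along proper divisibility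
(`WfDvdMonoid`, e.g. `WellFounded.induction` for `DvdNotUnit`, generalising `X`, `Y`). If
`Low X W`: `G = 1`. Otherwise let `π` be a prime with `X = π X1`, `W = π W1`. Then `π ^ 3 ∣ Y ^ 2`,
so `π ∣ Y`, `Y = π Y1`, `π ∣ Y1 ^ 2`, so `π ^ 2 ∣ Y`. So
`π ^ 4 ∣ Y ^ 2 - a X W ^ 4 - b W ^ 6 = X ^ 3`, i.e. `π ∣ X1 ^ 3`, so `π ^ 2 ∣ X`. So
`π ^ 5 ∣ Y ^ 2` (`π ^ 6 ∣ X ^ 3`, `π ^ 5 ∣ X W ^ 4`), which with `Y = π ^ 2 Y2` gives `π ∣ Y2 ^ 2`,
so `π ^ 3 ∣ Y`. Apply the induction hypothesis to `(X / π ^ 2, Y / π ^ 3, W / π)`, which satisfies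
the same equation (cancel `π ^ 6`), and multiply the resulting `G` by `π`. -/
theorem exists_reduced {a b X Y W : A} (hW : W ≠ 0)
    (h : Y ^ 2 = X ^ 3 + a * X * W ^ 4 + b * W ^ 6) :
    ∃ G X' Y' W' : A, G ≠ 0 ∧ W = G * W' ∧ X = G ^ 2 * X' ∧ Y = G ^ 3 * Y' ∧ Low X' W' := by
  have key : ∀ W : A, ∀ X Y : A, W ≠ 0 → Y ^ 2 = X ^ 3 + a * X * W ^ 4 + b * W ^ 6 →
      ∃ G X' Y' W' : A, G ≠ 0 ∧ W = G * W' ∧ X = G ^ 2 * X' ∧ Y = G ^ 3 * Y' ∧ Low X' W' := by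
    intro W
    refine (IsWellFounded.wf (α := A) (r := DvdNotUnit)).induction
      (C := fun W : A => ∀ X Y : A, W ≠ 0 → Y ^ 2 = X ^ 3 + a * X * W ^ 4 + b * W ^ 6 →
        ∃ G X' Y' W' : A, G ≠ 0 ∧ W = G * W' ∧ X = G ^ 2 * X' ∧ Y = G ^ 3 * Y' ∧ Low X' W') W ?_
    intro W ih X Y hW h
    by_cases hlow : Low X W
    · exact ⟨1, X, Y, W, one_ne_zero, by ring, by ring, by ring, hlow⟩
    unfold Low at hlow
    push Not at hlow
    obtain ⟨π, hπ, ⟨X1, rfl⟩, ⟨W1, rfl⟩⟩ := hlow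
    have hπ0 : π ≠ 0 := hπ.ne_zero
    have hW1 : W1 ≠ 0 := right_ne_zero_of_mul hW
    have d1 : π ∣ Y := by
      apply hπ.dvd_of_dvd_pow (n := 2)
      rw [h]
      exact ⟨π ^ 2 * X1 ^ 3 + a * π ^ 4 * X1 * W1 ^ 4 + b * π ^ 5 * W1 ^ 6, by ring⟩
    obtain ⟨Y1, rfl⟩ := d1
    have h1 : Y1 ^ 2 = π * (X1 ^ 3 + a * π ^ 2 * X1 * W1 ^ 4 + b * π ^ 3 * W1 ^ 6) := by
      apply mul_left_cancel₀ (pow_ne_zero 2 hπ0)
      linear_combination h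
    have d2 : π ∣ Y1 := by
      apply hπ.dvd_of_dvd_pow (n := 2)
      rw [h1]
      exact dvd_mul_right _ _
    obtain ⟨Y2, rfl⟩ := d2
    have h2 : X1 ^ 3 = π * (Y2 ^ 2 - a * π * X1 * W1 ^ 4 - b * π ^ 2 * W1 ^ 6) := by
      apply mul_left_cancel₀ hπ0
      linear_combination -h1
    have d3 : π ∣ X1 := by
      apply hπ.dvd_of_dvd_pow (n := 3)
      rw [h2]
      exact dvd_mul_right _ _
    obtain ⟨X2, rfl⟩ := d3
    have h3 : Y2 ^ 2 = π * (π * (X2 ^ 3 + a * X2 * W1 ^ 4 + b * W1 ^ 6)) := by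
      apply mul_left_cancel₀ hπ0
      linear_combination -h2
    have d4 : π ∣ Y2 := by
      apply hπ.dvd_of_dvd_pow (n := 2)
      rw [h3]
      exact dvd_mul_right _ _
    obtain ⟨Y3, rfl⟩ := d4
    have h4 : Y3 ^ 2 = X2 ^ 3 + a * X2 * W1 ^ 4 + b * W1 ^ 6 := by
      apply mul_left_cancel₀ (pow_ne_zero 2 hπ0)
      linear_combination h3
    obtain ⟨G, X', Y', W', hG, e1, e2, e3, e4⟩ := ih W1
      ⟨hW1, π, hπ.not_unit, mul_comm _ _⟩ X2 Y3 hW1 h4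
    refine ⟨π * G, X', Y', W', mul_ne_zero hπ0 hG, ?_, ?_, ?_, e4⟩
    · rw [e1]; ring
    · rw [e2]; ring
    · rw [e3]; ring
  exact key W X Y hW h

/-- PROOF. Direct from the definitions (`φ G ≠ 0`). -/
lemma Rep.cancel {φ : A →+* K} (hφ : IsFrac φ) {a b X Y W G : A}
    {P : (scurve (φ a) (φ b)).Point} (h : Rep φ (G ^ 2 * X) (G ^ 3 * Y) (G * W) P) :
    Rep φ X Y W P := by
  obtain ⟨hGW, h⟩ := h
  have hW : W ≠ 0 := right_ne_zero_of_mul hGW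
  have hG : G ≠ 0 := left_ne_zero_of_mul hGW
  have h1 := phi_ne hφ hW
  have h2 := phi_ne hφ hG
  have ex : φ (G ^ 2 * X) / φ (G * W) ^ 2 = φ X / φ W ^ 2 := by
    simp only [map_mul, map_pow]
    field_simp
  have ey : φ (G ^ 3 * Y) / φ (G * W) ^ 3 = φ Y / φ W ^ 3 := by
    simp only [map_mul, map_pow]
    field_simp
  refine ⟨hW, ?_⟩
  rw [ex, ey] at h
  exact h

end Pool.Agent.Lib.MP_3550b5_nt.G
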