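import Mathlib
import Pool.Agent.Lib.MP_3550b5_nt.G.Red

/-!
Nonsingularity in terms of a representation in lowest terms.
-/

namespace Pool.Agent.Lib.MP_3550b5_nt.G

open WeierstrassCurve.Affine

variable {A : Type*} [CommRing A] [IsDomain A] [UniqueFactorizationMonoid A]
  {K : Type*} [Field K]

/-- Nonsingularity in terms of a representation in lowest terms. PROOF. Let `V` be the valuation.
If `π ∣ W` then `π ∤ X`: the right side is true since `π ∣ 3 X^2 + a W^4` would give `π ∣ 3 X^2`;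
and `φ X / φ W ^ 2` has negative valuation (`V.D 0 (φ X / φ W^2)` would give
`V.D 2 (φ X) = V.D 2 ((φ X / φ W^2) * φ W ^ 2)`, so `π ∣ X`), so `V.NS P`. If `π ∤ W`: `φ W` is a
unit for `V` (`¬ V.D 1 (φ W)`, `V.D 0 (φ W)`), and `V.D 0 (φ X / φ W^2)`,
`V.D 1 (φ Y / φ W^3) ↔ π ∣ Y`, `V.D 1 (3 (φ X / φ W^2)^2 + φ a) ↔ π ∣ 3 X^2 + a W^4`. -/
theorem ns_iff {φ : A →+* K} (hφ : IsFrac φ) {π : A} (hπ : Prime π) (h3 : ¬ π ∣ 3) {a b X Y W : A}
    {P : (scurve (φ a) (φ b)).Point} (h : Rep φ X Y W P) (hl : Low X W) :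
    (primeVal hφ hπ).NS P ↔ ¬ (π ∣ Y ∧ π ∣ 3 * X ^ 2 + a * W ^ 4) := by
  have hD := primeVal_D hφ hπ
  set V := primeVal hφ hπ with hV
  have hD0 : ∀ f : A, V.D 0 (φ f) := by
    intro f
    have := (hD 0 f).2 (by simp)
    simpa using this
  have hD1 : ∀ f : A, V.D 1 (φ f) ↔ π ∣ f := by
    intro f
    have := hD 1 f
    simpa using this
  have hD2 : ∀ f : A, V.D 2 (φ f) ↔ π ^ 2 ∣ f := by
    intro f
    have := hD 2 f
    simpa using this
  obtain ⟨hW0, hns, hP⟩ := h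
  subst hP
  rw [DVal.NS_some, not_iff_not]
  have hφW : φ W ≠ 0 := (map_ne_zero_iff φ hφ.inj).2 hW0
  by_cases hW : π ∣ W
  · have hX : ¬ π ∣ X := fun hX => hl π hπ ⟨hX, hW⟩
    constructor
    · rintro ⟨h0, -, -⟩
      exfalso
      apply hX
      have h1 : V.D 2 (φ X) := by
        have e : φ X = (φ X / φ W ^ 2) * φ W ^ 2 := by
          field_simp
        rw [e]
        refine DVal.D_mul' h0 (DVal.D_pow' ((hD1 W).2 hW) 2 (l := 2) (by norm_num)) (by norm_num)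
      exact (dvd_pow_self π two_ne_zero).trans ((hD2 X).1 h1)
    · rintro ⟨-, h1⟩
      exfalso
      have h2 : π ∣ 3 * X ^ 2 := by
        have h4 : π ∣ a * W ^ 4 := (hW.trans (dvd_pow_self W (by norm_num))).mul_left a
        exact (dvd_add_left h4).1 h1
      rcases hπ.dvd_or_dvd h2 with h4 | h4
      · exact h3 h4
      · exact hX (hπ.dvd_of_dvd_pow h4)
  · have hv0 : V.v (φ W) = 0 := by
      have h1 := (DVal.D_iff hφW).1 (hD0 W)
      have h2 := (DVal.not_D_iff hφW).1 (fun hh => hW ((hD1 W).1 hh))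
      omega
    have hdiv : ∀ (k : ℤ) (x : K) (m : ℕ), V.D k (x / φ W ^ m) ↔ V.D k x := by
      intro k x m
      by_cases hx : x = 0
      · subst hx
        rw [zero_div]
      rw [DVal.D_iff (div_ne_zero hx (pow_ne_zero m hφW)), DVal.D_iff hx,
        DVal.v_div hx (pow_ne_zero m hφW), DVal.v_pow hφW, hv0, mul_zero, sub_zero]
    have e : 3 * (φ X / φ W ^ 2) ^ 2 + φ a = φ (3 * X ^ 2 + a * W ^ 4) / φ W ^ 4 := by
      rw [map_add, map_mul, map_mul, map_pow, map_pow, map_ofNat]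
      field_simp
    unfold DVal.Sing
    rw [e, hdiv, hdiv, hdiv, hD1, hD1]
    exact ⟨fun hh => hh.2, fun hh => ⟨hD0 X, hh⟩⟩

end Pool.Agent.Lib.MP_3550b5_nt.G
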