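import Mathlib
import Pool.Agent.Lib.MP_3550b5_nt.G.NsIff
import Pool.Agent.Lib.MP_3550b5_nt.G.Additive
import Pool.Agent.Lib.MP_3550b5_nt.G.Mult
import Pool.Agent.Lib.MP_3550b5_nt.G.Closed

/-!
Some multiple of every point is nonsingular at all primes, on a minimal curve over the fraction
field of a factorial ring in which `2` and `3` are not divisible by primes.
-/

namespace Pool.Agent.Lib.MP_3550b5_nt.G

open WeierstrassCurve.Affine

variable {A : Type*} [CommRing A] [IsDomain A] [UniqueFactorizationMonoid A]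
  {K : Type*} [Field K] [DecidableEq K]

/-- One prime. PROOF. `V = primeVal hφ hπ`. By `primeVal_D` (with `k = 1`, `φ 2 = 2`, `φ 3 = 3`):
`¬ V.D 1 2`, `¬ V.D 1 3`, `V.D 0 (φ a)`, `¬ (V.D 4 (φ a) ∧ V.D 6 (φ b))`. If `V.D 1 (φ a)` use
`exists_ns_additive`, otherwise `exists_ns_mult`. -/
theorem exists_ns_prime {φ : A →+* K} (hφ : IsFrac φ) {π : A} (hπ : Prime π) (h2 : ¬ π ∣ 2)
    (h3 : ¬ π ∣ 3) {a b : A} (hmin : ¬ (π ^ 4 ∣ a ∧ π ^ 6 ∣ b)) (hΔ : 4 * a ^ 3 + 27 * b ^ 2 ≠ 0)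
    (P : (scurve (φ a) (φ b)).Point) : ∃ m : ℕ, 1 ≤ m ∧ (primeVal hφ hπ).NS (m • P) := by
  have hD := primeVal_D hφ hπ
  set V := primeVal hφ hπ with hV
  have hD0 : ∀ f : A, V.D 0 (φ f) := by
    intro f
    have := (hD 0 f).2 (by simp)
    simpa using this
  have hD1 : ∀ f : A, V.D 1 (φ f) ↔ π ∣ f := by
    intro f
    have := hD 1 f
    simpa using this
  have h2' : ¬ V.D 1 (2 : K) := by
    intro h
    apply h2
    rw [← hD1, map_ofNat]
    exact h
  have h3' : ¬ V.D 1 (3 : K) := by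
    intro h
    apply h3
    rw [← hD1, map_ofNat]
    exact h
  by_cases ha : V.D 1 (φ a)
  · refine exists_ns_additive h2' h3' ha ?_ P
    rintro ⟨h4, h6⟩
    apply hmin
    have e4 := hD 4 a
    have e6 := hD 6 b
    push_cast at e4 e6
    exact ⟨e4.1 h4, e6.1 h6⟩
  · refine exists_ns_mult h2' h3' ha (hD0 a) ?_ P
    intro h
    apply hΔ
    apply hφ.inj
    rw [map_zero, map_add, map_mul, map_mul, map_pow, map_pow, map_ofNat, map_ofNat]
    exact h

omit [DecidableEq K] in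
/-- A representation in lowest terms. -/
private lemma exists_low {φ : A →+* K} (hφ : IsFrac φ) {a b : A}
    {P : (scurve (φ a) (φ b)).Point} (hP : P ≠ 0) :
    ∃ X Y W : A, Rep φ X Y W P ∧ Low X W := by
  obtain ⟨X, Y, W, h⟩ := exists_rep0 hφ hP
  obtain ⟨G, X', Y', W', -, e1, e2, e3, hl⟩ := exists_reduced h.1 (h.eqn hφ)
  subst e1 e2 e3
  exact ⟨X', Y', W', h.cancel hφ, hl⟩

/-- PROOF. If `P = 0` trivial. Otherwise (`exists_rep0`, `Rep.eqn`, `exists_reduced`, `Rep.cancel`)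
`P` has a representation with `Low X W`; apply `ns_iff` for `π` and for `π'` and use that associated
elements divide the same elements. -/
theorem ns_assoc {φ : A →+* K} (hφ : IsFrac φ) {π π' : A} (hπ : Prime π) (hπ' : Prime π')
    (has : Associated π π') (h3 : ¬ π ∣ 3) {a b : A} (P : (scurve (φ a) (φ b)).Point)
    (h : (primeVal hφ hπ).NS P) : (primeVal hφ hπ').NS P := by
  by_cases hP : P = 0
  · rw [hP]
    exact DVal.NS_zero
  obtain ⟨X, Y, W, hr, hl⟩ := exists_low hφ hP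
  rw [ns_iff hφ hπ h3 hr hl] at h
  rw [ns_iff hφ hπ' (fun hh => h3 (has.dvd_iff_dvd_left.2 hh)) hr hl]
  rw [← has.dvd_iff_dvd_left, ← has.dvd_iff_dvd_left]
  exact h

/-- All primes. PROOF. If `P = 0`, `m = 1` (`NS_zero`, `smul_zero`). Otherwise take a
representation with `Low X W` (as in `ns_assoc`) and `B := Y` if `Y ≠ 0`, `B := 3 X^2 + a W^4`
otherwise; `B ≠ 0`, because the point is nonsingular (`nonsing_iff`) . The multiset
`S = UniqueFactorizationMonoid.factors B` consists of primes. For `π ∈ S` choose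
`m_π` by `exists_ns_prime` and put `m = ∏ π ∈ S, m_π` (`Multiset.map`/`Multiset.prod`, or
`Finset` products over `S.toFinset`; one may also prove by multiset induction the statement (there
is `m ≥ 1` such that `NS (m • P)` for all primes in `S`)). Let `π` be any prime. If `π ∤ B` then
`NS P` (`ns_iff`), so `NS (m • P)` (`NS_nsmul`). If `π ∣ B` then `π` is associated to some `π' ∈ S`
(`UniqueFactorizationMonoid.exists_mem_factors_of_dvd`), `m_π' ∣ m`, so `NS (m • P)` at `π'`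
(`NS_nsmul`, `mul_smul`), and at `π` by `ns_assoc`. -/
theorem exists_ns_all {φ : A →+* K} (hφ : IsFrac φ) (h2 : ∀ π : A, Prime π → ¬ π ∣ 2)
    (h3 : ∀ π : A, Prime π → ¬ π ∣ 3) {a b : A}
    (hmin : ∀ π : A, Prime π → ¬ (π ^ 4 ∣ a ∧ π ^ 6 ∣ b)) (hΔ : 4 * a ^ 3 + 27 * b ^ 2 ≠ 0)
    (P : (scurve (φ a) (φ b)).Point) :
    ∃ m : ℕ, 1 ≤ m ∧ ∀ (π : A) (hπ : Prime π), (primeVal hφ hπ).NS (m • P) := by
  by_cases hP : P = 0
  · refine ⟨1, le_rfl, fun π hπ => ?_⟩
    rw [hP, smul_zero]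
    exact DVal.NS_zero
  obtain ⟨X, Y, W, hr, hl⟩ := exists_low hφ hP
  have hB : ∃ B : A, B ≠ 0 ∧ ∀ π : A, π ∣ Y → π ∣ 3 * X ^ 2 + a * W ^ 4 → π ∣ B := by
    by_cases hY : Y = 0
    · refine ⟨3 * X ^ 2 + a * W ^ 4, ?_, fun π _ h => h⟩
      intro h0
      obtain ⟨hW0, hns, -⟩ := hr
      have hφW : φ W ≠ 0 := (map_ne_zero_iff φ hφ.inj).2 hW0
      rcases (nonsing_iff.1 hns).2 with h | h
      · apply h
        rw [hY, map_zero, zero_div, mul_zero]
      · apply h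
        have e : 3 * (φ X / φ W ^ 2) ^ 2 + φ a = φ (3 * X ^ 2 + a * W ^ 4) / φ W ^ 4 := by
          rw [map_add, map_mul, map_mul, map_pow, map_pow, map_ofNat]
          field_simp
        rw [e, h0, map_zero, zero_div]
    · exact ⟨Y, hY, fun π h _ => h⟩
  obtain ⟨B, hB0, hB⟩ := hB
  have key : ∀ S : Multiset A, (∀ π ∈ S, Prime π) →
      ∃ m : ℕ, 1 ≤ m ∧ ∀ π ∈ S, ∀ hπ : Prime π, (primeVal hφ hπ).NS (m • P) := by
    intro S
    induction S using Multiset.induction_on with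
    | empty => exact fun _ => ⟨1, le_rfl, fun π hπ => absurd hπ (Multiset.notMem_zero π)⟩
    | cons p S ih =>
      intro hS
      have hp : Prime p := hS p (Multiset.mem_cons_self p S)
      obtain ⟨m, hm, h⟩ := ih (fun π hπ => hS π (Multiset.mem_cons_of_mem hπ))
      obtain ⟨m', hm', h'⟩ := exists_ns_prime hφ hp (h2 p hp) (h3 p hp) (hmin p hp) hΔ P
      refine ⟨m * m', Nat.mul_pos hm hm', fun π hπ hprime => ?_⟩
      rcases Multiset.mem_cons.1 hπ with e | e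
      · subst e
        rw [mul_smul]
        exact DVal.NS_nsmul h' m
      · rw [mul_comm, mul_smul]
        exact DVal.NS_nsmul (h π e hprime) m'
  obtain ⟨m, hm, h⟩ := key (UniqueFactorizationMonoid.factors B)
    (fun π hπ => UniqueFactorizationMonoid.prime_of_factor π hπ)
  refine ⟨m, hm, fun π hπ => ?_⟩
  by_cases hd : π ∣ B
  · obtain ⟨q, hq, hassoc⟩ :=
      UniqueFactorizationMonoid.exists_mem_factors_of_dvd hB0 hπ.irreducible hd
    have hqp : Prime q := UniqueFactorizationMonoid.prime_of_factor q hq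
    exact ns_assoc hφ hqp hπ hassoc.symm (h3 q hqp) _ (h q hq hqp)
  · apply DVal.NS_nsmul
    rw [ns_iff hφ hπ (h3 π hπ) hr hl]
    exact fun hh => hd (hB π hh.1 hh.2)

/-- A finite family of points. PROOF. `m = ∏ i, m_i` (`exists_ns_all`), `NS_nsmul`, `mul_smul`. -/
theorem exists_ns_family {φ : A →+* K} (hφ : IsFrac φ) (h2 : ∀ π : A, Prime π → ¬ π ∣ 2)
    (h3 : ∀ π : A, Prime π → ¬ π ∣ 3) {a b : A}
    (hmin : ∀ π : A, Prime π → ¬ (π ^ 4 ∣ a ∧ π ^ 6 ∣ b)) (hΔ : 4 * a ^ 3 + 27 * b ^ 2 ≠ 0)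
    {r : ℕ} (P : Fin r → (scurve (φ a) (φ b)).Point) :
    ∃ m : ℕ, 1 ≤ m ∧ ∀ (i : Fin r) (π : A) (hπ : Prime π), (primeVal hφ hπ).NS (m • P i) := by
  choose m hm h using fun i => exists_ns_all hφ h2 h3 hmin hΔ (P i)
  refine ⟨∏ i, m i, Nat.one_le_iff_ne_zero.2 (Finset.prod_ne_zero_iff.2
    (fun i _ => Nat.one_le_iff_ne_zero.1 (hm i))), fun i π hπ => ?_⟩
  obtain ⟨c, hc⟩ := Finset.dvd_prod_of_mem m (Finset.mem_univ i)
  rw [hc, mul_comm, mul_smul]
  exact DVal.NS_nsmul (h i π hπ) c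

end Pool.Agent.Lib.MP_3550b5_nt.G
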