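import Mathlib

/-!
Functions on abelian groups satisfying the parallelogram law.
-/

namespace Pool.Agent.Lib.MP_3550b5_nt.G

variable {G : Type*} [AddCommGroup G]

/-- The polar form is additive in the first variable.

PROOF. Put `B x y = f x + f y - f (x - y)`. First `f 0 = 0` (given), `f (-x) = f x` (law with `0`,
`x`). By the law `B x y = f (x + y) - f x - f y`. Additivity of `B` in `x` is the standard
computation of Jordan and von Neumann: from the law for `(x + z, y)`, `(x, z)` etc. one gets
`f (x + y + z) - f (x + y) - f (y + z) - f (x + z) + f x + f y + f z = 0` (use the law for the pairs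
`(x + y, z)`, `(x, y - z)`, `(x + z, y)`, `(y, z)`: 
`f (x + y + z) + f (x + y - z) = 2 f (x + y) + 2 f z`,
`f (x + z + y) + f (x + z - y) = 2 f (x + z) + 2 f y`,
`f (x + (y - z)) + f (x - (y - z)) = 2 f x + 2 f (y - z)`, `f (y + z) + f (y - z) = 2 f y + 2 f z`;
add the first two, subtract the third and twice the fourth; divide by `2`). -/
theorem polar_add (f : G → ℤ) (h0 : f 0 = 0)
    (hpar : ∀ x y, f (x + y) + f (x - y) = 2 * f x + 2 * f y) (x y z : G) :
    f (x + y) + f z - f (x + y - z) = (f x + f z - f (x - z)) + (f y + f z - f (y - z)) := by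
  have p1 := hpar (x + y) z
  have p2 := hpar (x + z) y
  have p3 := hpar x (y - z)
  have p6 := hpar x z
  have e1 : x + z + y = x + y + z := by abel
  have e2 : x + z - y = x - (y - z) := by abel
  have e3 : x + (y - z) = x + y - z := by abel
  rw [e1, e2] at p2
  rw [e3] at p3
  linarith

/-- If `f` is positive outside `0` the polar form of a linearly independent family is
nondegenerate.

PROOF. Let `B x y = f x + f y - f (x - y)`: symmetric (`f (-x) = f x`), biadditive (`polar_add`), so
it is `ℤ`-bilinear, `B x x = 2 f x`. The matrix in the statement is `M i j = B (Q i) (Q j)` (for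
`i > j` use symmetry; `min`/`max`). If `det M = 0` there is `v ≠ 0` in `ℤ^r` with `M *ᵥ v = 0`
(`Matrix.exists_mulVec_eq_zero_iff`). Then `2 f (∑ v_i Q_i) = B (∑ v_i Q_i) (∑ v_j Q_j) =
∑ v_i v_j M i j = 0`. So `f (∑ v_i Q_i) = 0`, so `∑ v_i Q_i = 0` by positivity, so `v = 0`, a
contradiction. (One can build `B` as `G →+ G →+ ℤ` with `AddMonoidHom.mk'`.) -/
theorem det_ne_zero_of_par (f : G → ℤ) (h0 : f 0 = 0)
    (hpar : ∀ x y, f (x + y) + f (x - y) = 2 * f x + 2 * f y) (hpos : ∀ x, x ≠ 0 → 0 < f x)
    {r : ℕ} (Q : Fin r → G) (hind : ∀ v : Fin r → ℤ, ∑ i, v i • Q i = 0 → v = 0) :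
    (Matrix.of fun i j : Fin r => if i = j then 2 * f (Q i)
      else f (Q i) + f (Q j) - f (Q (min i j) - Q (max i j))).det ≠ 0 := by
  have hneg : ∀ x, f (-x) = f x := by
    intro x
    have := hpar 0 x
    rw [zero_add, zero_sub, h0] at this
    linarith
  have hsub : ∀ x y, f (x - y) = f (y - x) := by
    intro x y
    rw [← hneg (x - y), neg_sub]
  intro hdet
  obtain ⟨v, hv, hMv⟩ := Matrix.exists_mulVec_eq_zero_iff.2 hdet
  set L : G → G →+ ℤ := fun y => AddMonoidHom.mk' (fun x => f x + f y - f (x - y))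
    (fun a b => polar_add f h0 hpar a b y) with hL
  have hLa : ∀ x y, L y x = f x + f y - f (x - y) := fun x y => rfl
  have hsymm : ∀ x y, L y x = L x y := by
    intro x y
    rw [hLa, hLa, hsub x y]
    ring
  have hM : ∀ i j, (Matrix.of fun i j : Fin r => if i = j then 2 * f (Q i)
      else f (Q i) + f (Q j) - f (Q (min i j) - Q (max i j))) i j = L (Q j) (Q i) := by
    intro i j
    rw [Matrix.of_apply, hLa]
    split_ifs with h
    · subst h
      rw [sub_self, h0]
      ring
    · rcases le_total i j with hij | hij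
      · rw [min_eq_left hij, max_eq_right hij]
      · rw [min_eq_right hij, max_eq_left hij, hsub (Q j) (Q i)]
  have hexp : ∀ y, L y (∑ i, v i • Q i) = ∑ i, v i * L y (Q i) := by
    intro y
    rw [map_sum]
    refine Finset.sum_congr rfl fun i _ => ?_
    rw [map_zsmul, smul_eq_mul]
  have hX : L (∑ i, v i • Q i) (∑ i, v i • Q i) = 0 := by
    rw [hexp]
    refine Finset.sum_eq_zero fun i _ => ?_
    have h1 := congrFun hMv i
    rw [Matrix.mulVec, dotProduct, Pi.zero_apply] at h1
    have h2 : L (∑ i, v i • Q i) (Q i) = 0 := by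
      rw [hsymm, hexp, ← h1]
      refine Finset.sum_congr rfl fun j _ => ?_
      rw [hM, hsymm (Q i) (Q j), mul_comm]
    rw [h2, mul_zero]
  have hX0 : ∑ i, v i • Q i = 0 := by
    by_contra hne
    have h3 := hpos _ hne
    rw [hLa, sub_self, h0] at hX
    linarith
  exact hv (hind v hX0)

end Pool.Agent.Lib.MP_3550b5_nt.G
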