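import Mathlib

/-!
Elimination: polynomials without common factor.
-/

namespace Pool.Agent.Lib.MP_3550b5_nt.G

open Polynomial

/-- Two polynomials over a factorial ring whose common divisors are constants satisfy
`U F + V G = ρ` with a nonzero constant `ρ`.

PROOF. Let `L = FractionRing B` and `F'`, `G'` the images in `L[X]`. Claim: `IsCoprime F' G'`.
Otherwise (`L[X]` is a Euclidean domain, not both `F'`, `G'` are zero) there is an irreducible, so a
nonconstant, common divisor `D'` of `F'` and `G'`. Clear denominators and take the primitive part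
(`IsLocalization.integerNormalization`, `Polynomial.primPart`, with a `NormalizedGCDMonoid B` from
`UniqueFactorizationMonoid.toNormalizedGCDMonoid`/`toGCDMonoid`): there is a primitive `D : B[X]` of
the same positive degree whose image is associated to `D'`. By Gauss's lemma
(`Polynomial.IsPrimitive.dvd_iff_fraction_map_dvd_fraction_map` applied to the primitive parts
of `F`, `G`; the case `F = 0` or `G = 0` is trivial) `D ∣ F` and `D ∣ G`, so `D.natDegree = 0`, a
contradiction. So `u F' + v G' = 1`; clear denominators (see `bezout_int` in `SRes.lean` for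
`B = ℤ`). -/
theorem elim {B : Type*} [CommRing B] [IsDomain B] [UniqueFactorizationMonoid B] (F G : B[X])
    (h : ∀ D : B[X], D ∣ F → D ∣ G → D.natDegree = 0) (hne : F ≠ 0 ∨ G ≠ 0) :
    ∃ (U V : B[X]) (ρ : B), ρ ≠ 0 ∧ U * F + V * G = C ρ := by
  classical
  have hK : ∃ (K : Type _) (_ : Field K) (_ : Algebra B K), IsFractionRing B K :=
    ⟨FractionRing B, inferInstance, inferInstance, inferInstance⟩
  obtain ⟨K, _, _, _⟩ := hK
  let _ : NormalizedGCDMonoid B := Nonempty.some inferInstance
  obtain ⟨φ, hφ⟩ : ∃ φ : B →+* K, φ = algebraMap B K := ⟨_, rfl⟩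
  have hinj : Function.Injective φ := by rw [hφ]; exact IsFractionRing.injective B K
  have clear : ∀ u : K[X], ∃ (b : B) (U : B[X]), b ≠ 0 ∧ U.map φ = C (φ b) * u := by
    intro u
    obtain ⟨b, hbm, hb⟩ := IsLocalization.integerNormalization_spec (nonZeroDivisors B) u
    refine ⟨b, IsLocalization.integerNormalization (nonZeroDivisors B) u,
      nonZeroDivisors.ne_zero hbm, ?_⟩
    rw [hφ, hb, Algebra.smul_def]
    simp
  have hcop : IsCoprime (F.map φ) (G.map φ) := by
    rw [← EuclideanDomain.gcd_isUnit_iff]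
    obtain ⟨D', hD'⟩ : ∃ D' : K[X], D' = EuclideanDomain.gcd (F.map φ) (G.map φ) := ⟨_, rfl⟩
    rw [← hD']
    have hD'0 : D' ≠ 0 := by
      rw [hD', Ne, EuclideanDomain.gcd_eq_zero_iff]
      rintro ⟨h1, h2⟩
      rw [Polynomial.map_eq_zero_iff hinj] at h1 h2
      rcases hne with h3 | h3
      · exact h3 h1
      · exact h3 h2
    obtain ⟨b, N, hb0, hN⟩ := clear D'
    have hφb : φ b ≠ 0 := fun h0 => hb0 (hinj (by rw [h0, map_zero]))
    have hN0 : N ≠ 0 := by
      rintro rfl
      rw [Polynomial.map_zero] at hN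
      have := mul_ne_zero (C_ne_zero.mpr hφb) hD'0
      exact this hN.symm
    have hNmap : C (φ N.content) * N.primPart.map φ = C (φ b) * D' := by
      rw [← hN]
      conv_rhs => rw [N.eq_C_content_mul_primPart]
      rw [Polynomial.map_mul, Polynomial.map_C]
    have hdvd : N.primPart.map φ ∣ D' := by
      refine ⟨C ((φ b)⁻¹) * C (φ N.content), ?_⟩
      have h1 : C ((φ b)⁻¹) * C (φ b) = (1 : K[X]) := by
        rw [← C_mul, inv_mul_cancel₀ hφb, C_1]
      calc D' = (C ((φ b)⁻¹) * C (φ b)) * D' := by rw [h1, one_mul]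
        _ = C ((φ b)⁻¹) * (C (φ b) * D') := by ring
        _ = C ((φ b)⁻¹) * (C (φ N.content) * N.primPart.map φ) := by rw [hNmap]
        _ = _ := by ring
    have hdF : N.primPart ∣ F := by
      refine N.isPrimitive_primPart.dvd_of_fraction_map_dvd_fraction_map (K := K) ?_
      rw [← hφ]
      exact hdvd.trans (hD' ▸ EuclideanDomain.gcd_dvd_left _ _)
    have hdG : N.primPart ∣ G := by
      refine N.isPrimitive_primPart.dvd_of_fraction_map_dvd_fraction_map (K := K) ?_
      rw [← hφ]
      exact hdvd.trans (hD' ▸ EuclideanDomain.gcd_dvd_right _ _)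
    have hdeg := h _ hdF hdG
    rw [Polynomial.natDegree_primPart] at hdeg
    obtain ⟨c, hc⟩ : ∃ c, N = C c := ⟨_, eq_C_of_natDegree_eq_zero hdeg⟩
    have hc0 : φ c ≠ 0 := by
      intro h0
      apply hN0
      rw [hc, show c = 0 from hinj (by rw [h0, map_zero]), C_0]
    rw [hc, Polynomial.map_C] at hN
    refine isUnit_of_dvd_unit (Dvd.intro_left _ hN.symm) ?_
    exact isUnit_C.mpr (isUnit_iff_ne_zero.mpr hc0)
  obtain ⟨u, v, huv⟩ := hcop
  obtain ⟨b1, U, hb1, hU⟩ := clear u
  obtain ⟨b2, V, hb2, hV⟩ := clear v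
  refine ⟨C b2 * U, C b1 * V, b1 * b2, mul_ne_zero hb1 hb2, ?_⟩
  apply Polynomial.map_injective φ hinj
  rw [Polynomial.map_add, Polynomial.map_mul, Polynomial.map_mul, Polynomial.map_mul,
    Polynomial.map_mul, Polynomial.map_C, Polynomial.map_C, Polynomial.map_C, hU, hV, map_mul,
    C_mul]
  linear_combination (C (φ b1) * C (φ b2)) * huv

end Pool.Agent.Lib.MP_3550b5_nt.G
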