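import Mathlib
import Pool.Agent.Lib.MP_3550b5_nt.G.Elim

/-!
Binary forms without common factor have no common complex zero.
-/

namespace Pool.Agent.Lib.MP_3550b5_nt.G

open MvPolynomial

/-- Common divisors over `ℤ` are constants if they are units over `ℚ`. PROOF. `D ∣ F`, `D ∣ G` over
`ℤ` give the same over `ℚ` (`map_dvd`), so `D` over `ℚ` is a unit, so a constant
(`MvPolynomial.isUnit_iff_eq_C_of_isReduced` or `MvPolynomial.isUnit_iff_totalDegree_of_isReduced`),
so all coefficients of `D` except the constant one vanish (`Int.cast_injective`). -/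
lemma const_of_common {n : ℕ} {F G : MvPolynomial (Fin n) ℤ}
    (h : ∀ D : MvPolynomial (Fin n) ℚ, D ∣ F.map (Int.castRingHom ℚ) →
      D ∣ G.map (Int.castRingHom ℚ) → IsUnit D) (D : MvPolynomial (Fin n) ℤ) (h1 : D ∣ F)
    (h2 : D ∣ G) : ∃ c : ℤ, D = C c := by
  have hu := h (D.map (Int.castRingHom ℚ)) (map_dvd (MvPolynomial.map (Int.castRingHom ℚ)) h1)
    (map_dvd (MvPolynomial.map (Int.castRingHom ℚ)) h2)
  rw [MvPolynomial.isUnit_iff_eq_C_of_isReduced] at hu
  obtain ⟨r, -, hr⟩ := hu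
  refine ⟨D.coeff 0, ?_⟩
  ext d
  rw [MvPolynomial.coeff_C]
  split_ifs with hd
  · rw [← hd]
  · have h3 := congrArg (MvPolynomial.coeff d) hr
    rw [MvPolynomial.coeff_map, MvPolynomial.coeff_C, if_neg hd] at h3
    have h4 : ((D.coeff d : ℤ) : ℚ) = 0 := h3
    exact_mod_cast h4

/-- Elimination of one variable. PROOF. `finSuccEquiv ℤ n` is an isomorphism onto
`Polynomial (MvPolynomial (Fin n) ℤ)`; apply `elim` to the images of `F` and `G` (a common divisor
corresponds to a common divisor `D` of `F`, `G`, so `D = C c`, whose image is a constant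
polynomial of degree `0`; not both are zero, as otherwise `X 0` would be a constant). Pull back with
`(finSuccEquiv ℤ n).symm`: the constant `ρ : MvPolynomial (Fin n) ℤ` corresponds to
`rename Fin.succ ρ` (`MvPolynomial.finSuccEquiv_rename_finSuccEquiv` or
`finSuccEquiv_symm`/`rename`, check on `C` and `X`). -/
lemma elim_mv {n : ℕ} {F G : MvPolynomial (Fin (n + 1)) ℤ}
    (h : ∀ D, D ∣ F → D ∣ G → ∃ c : ℤ, D = C c) :
    ∃ (U V : MvPolynomial (Fin (n + 1)) ℤ) (ρ : MvPolynomial (Fin n) ℤ), ρ ≠ 0 ∧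
      U * F + V * G = rename Fin.succ ρ := by
  set e := finSuccEquiv ℤ n with he
  have hdvd : ∀ (D' : Polynomial (MvPolynomial (Fin n) ℤ)) (F : MvPolynomial (Fin (n + 1)) ℤ),
      D' ∣ e F → e.symm D' ∣ F := by
    intro D' F hD
    have h1 := map_dvd e.symm hD
    rwa [AlgEquiv.symm_apply_apply] at h1
  have hC : ∀ ρ : MvPolynomial (Fin n) ℤ, e (rename Fin.succ ρ) = Polynomial.C ρ := by
    intro ρ
    induction ρ using MvPolynomial.induction_on with
    | C a =>
      rw [rename_C]
      rw [show (C a : MvPolynomial (Fin (n + 1)) ℤ) = ((a : ℤ) : MvPolynomial (Fin (n + 1)) ℤ)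
        from eq_intCast _ a, show (C a : MvPolynomial (Fin n) ℤ) = ((a : ℤ) : MvPolynomial (Fin n) ℤ)
        from eq_intCast _ a, map_intCast, map_intCast]
    | add p q hp hq => rw [map_add, map_add, hp, hq, map_add]
    | mul_X p i hp => rw [map_mul, map_mul, hp, rename_X, he, finSuccEquiv_X_succ, map_mul]
  obtain ⟨U, V, ρ, hρ, huv⟩ := elim (e F) (e G) (by
    intro D' h1 h2
    obtain ⟨c, hc⟩ := h _ (hdvd D' F h1) (hdvd D' G h2)
    have h3 : D' = ((c : ℤ) : Polynomial (MvPolynomial (Fin n) ℤ)) := by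
      have h4 := congrArg e hc
      rw [AlgEquiv.apply_symm_apply] at h4
      rw [h4, show (C c : MvPolynomial (Fin (n + 1)) ℤ) = ((c : ℤ) : MvPolynomial (Fin (n + 1)) ℤ)
        from eq_intCast _ c, map_intCast]
    rw [h3]
    exact Polynomial.natDegree_intCast c) (by
    by_contra hcon
    push Not at hcon
    obtain ⟨hF, hG⟩ := hcon
    rw [map_eq_zero_iff e e.injective] at hF hG
    obtain ⟨c, hc⟩ := h (X 0) (by rw [hF]; exact dvd_zero _) (by rw [hG]; exact dvd_zero _)
    have h0 := congrArg (MvPolynomial.eval (fun _ => (0 : ℤ))) hc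
    have h1 := congrArg (MvPolynomial.eval (fun _ => (1 : ℤ))) hc
    rw [eval_X, eval_C] at h0 h1
    omega)
  refine ⟨e.symm U, e.symm V, ρ, hρ, ?_⟩
  apply e.injective
  rw [map_add, map_mul, map_mul, AlgEquiv.apply_symm_apply, AlgEquiv.apply_symm_apply, huv, hC]

private lemma aeval_scale {n : ℕ} {F : MvPolynomial (Fin n) ℤ} {m : ℕ} (hF : F.IsHomogeneous m)
    (s : ℂ) (z : Fin n → ℂ) : aeval (fun i => s * z i) F = s ^ m * aeval z F := by
  rw [aeval_def, aeval_def, eval₂_eq', eval₂_eq', Finset.mul_sum]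
  refine Finset.sum_congr rfl fun d hd => ?_
  have hw : m = ∑ i, d i := by
    rw [hF.degree_eq_sum_deg_support hd]
    exact Finset.sum_subset (Finset.subset_univ _) (fun i _ hi => by simpa using hi)
  have h1 : ∏ i, (s * z i) ^ d i = s ^ m * ∏ i, z i ^ d i := by
    rw [hw, ← Finset.prod_pow_eq_pow_sum, ← Finset.prod_mul_distrib]
    exact Finset.prod_congr rfl fun i _ => mul_pow _ _ _
  rw [h1]; ring

private lemma no_common_zero_aux {F G : MvPolynomial (Fin 2) ℤ} {m m' : ℕ}
    (hF : F.IsHomogeneous m) (hG : G.IsHomogeneous m')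
    (h : ∀ D, D ∣ F → D ∣ G → ∃ c : ℤ, D = C c) (z : Fin 2 → ℂ)
    (hz : z 1 ≠ 0) : ¬ (aeval z F = 0 ∧ aeval z G = 0) := by
  rintro ⟨h1, h2⟩
  obtain ⟨U, V, ρ, hρ, e⟩ := elim_mv (n := 1) h
  have key : ∀ w : Fin 1 → ℂ, aeval w ρ = 0 := by
    intro w
    have e1 := congrArg (aeval (fun i => (w 0 / z 1) * z i)) e
    rw [map_add, map_mul, map_mul, aeval_scale hF, aeval_scale hG, h1, h2, mul_zero, mul_zero,
      mul_zero, mul_zero, add_zero, aeval_rename] at e1
    have e2 : (fun i => (w 0 / z 1) * z i) ∘ Fin.succ = w := by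
      funext i
      fin_cases i
      show (w 0 / z 1) * z 1 = w 0
      field_simp
    rw [e2] at e1
    exact e1.symm
  apply hρ
  have h3 : MvPolynomial.map (Int.castRingHom ℂ) ρ = 0 := by
    apply MvPolynomial.funext
    intro w
    rw [map_zero, eval_map]
    have := key w
    rwa [aeval_def, show algebraMap ℤ ℂ = Int.castRingHom ℂ from rfl] at this
  have hinj := MvPolynomial.map_injective (σ := Fin 1) (Int.castRingHom ℂ)
    (RingHom.injective_int (Int.castRingHom ℂ))
  exact hinj (by rw [h3, map_zero])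

/-- No common zero. PROOF. Let `z = (α, β)` be a common zero, `z ≠ 0`. Suppose `β ≠ 0`. By
`elim_mv` (`n = 1`): `U F + V G = ρ(z_1)`, `ρ ≠ 0`. For `s : ℂ`, by homogeneity `s z` is a common
zero (`IsHomogeneous.aeval`/`eval_scalV`-like: `F (s z) = s^m F z`), so `ρ (s β) = 0` for all `s`,
so `ρ` vanishes at all complex numbers, `ρ = 0` (`MvPolynomial.funext` after mapping to `ℂ`), a
contradiction. If `β = 0` then `α ≠ 0`; use the same argument after exchanging the variables
(`rename (Equiv.swap 0 1)` on `F` and `G`; common divisors correspond). -/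
theorem no_common_zero {F G : MvPolynomial (Fin 2) ℤ} {m m' : ℕ} (hF : F.IsHomogeneous m)
    (hG : G.IsHomogeneous m') (h : ∀ D, D ∣ F → D ∣ G → ∃ c : ℤ, D = C c) (z : Fin 2 → ℂ)
    (hz : z ≠ 0) : ¬ (aeval z F = 0 ∧ aeval z G = 0) := by
  by_cases h1 : z 1 ≠ 0
  · exact no_common_zero_aux hF hG h z h1
  push Not at h1
  have h0 : z 0 ≠ 0 := by
    intro h0
    apply hz
    funext i
    fin_cases i
    · exact h0
    · exact h1
  obtain ⟨σ, hσ⟩ : ∃ σ : Fin 2 → Fin 2, σ = fun i => Equiv.swap (0 : Fin 2) 1 i := ⟨_, rfl⟩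
  have hσσ : σ ∘ σ = id := by
    funext i
    rw [hσ]
    simp
  have hrr : ∀ D : MvPolynomial (Fin 2) ℤ, rename σ (rename σ D) = D := by
    intro D
    rw [rename_rename, hσσ, rename_id, AlgHom.id_apply]
  have key := no_common_zero_aux (F := rename σ F) (G := rename σ G) hF.rename_isHomogeneous
    hG.rename_isHomogeneous (by
      intro D hD1 hD2
      have e1 := map_dvd (rename σ) hD1
      have e2 := map_dvd (rename σ) hD2
      rw [hrr] at e1 e2
      obtain ⟨c, hc⟩ := h _ e1 e2
      refine ⟨c, ?_⟩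
      rw [← hrr D, hc, rename_C]) (z ∘ σ) (by
      rw [hσ]
      simpa using h0)
  rw [aeval_rename, aeval_rename, Function.comp_assoc, hσσ, Function.comp_id] at key
  exact key

end Pool.Agent.Lib.MP_3550b5_nt.G
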