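import Mathlib
import Pool.Agent.Lib.MP_3550b5_nt.SDefs

namespace Pool.Agent.Lib.MP_3550b5_nt

/-- The point `P` of the generic fibre is `(X / W^2, Y / W^3)`, where `X`, `Y`, `W` are forms of
degree `2 (d + w)`, `3 (d + w)`, `w`, and `W` is not zero. With `a`, `b` of degree `4 d`, `6 d` these
are the points of `y^2 = x^3 + a x + b` over the field of rational functions of degree zero in two
variables, i.e. the points of the curve over the rational function field `ℚ(t)`. -/
structure IsPointForm (d : ℕ) (a b : MvPolynomial (Fin 2) ℤ) (w : ℕ)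
    (X Y W : MvPolynomial (Fin 2) ℤ) (P : (genericCurve a b).Point) : Prop where
  homX : X.IsHomogeneous (2 * (d + w))
  homY : Y.IsHomogeneous (3 * (d + w))
  homW : W.IsHomogeneous w
  W_ne : W ≠ 0
  point : ∃ h : (genericCurve a b).Nonsingular
    (algebraMap _ (FractionRing (MvPolynomial (Fin 2) ℤ)) X /
      algebraMap _ (FractionRing (MvPolynomial (Fin 2) ℤ)) W ^ 2)
    (algebraMap _ (FractionRing (MvPolynomial (Fin 2) ℤ)) Y /
      algebraMap _ (FractionRing (MvPolynomial (Fin 2) ℤ)) W ^ 3), P = .some _ _ h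

end Pool.Agent.Lib.MP_3550b5_nt
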