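import Mathlib

/-!
Factors of weighted homogeneous polynomials.
-/

namespace Pool.Agent.Lib.MP_3550b5_nt.G

open MvPolynomial

section

variable {σ k : Type*} [CommRing k] [IsDomain k] {wt : σ → ℕ}

/-- The homomorphism `X i ↦ X i * T ^ wt i`. -/
private noncomputable def wPhi (wt : σ → ℕ) :
    MvPolynomial σ k →+* Polynomial (MvPolynomial σ k) :=
  MvPolynomial.eval₂Hom ((Polynomial.C : MvPolynomial σ k →+* _).comp MvPolynomial.C)
    (fun i => Polynomial.C (X i) * Polynomial.X ^ wt i)

omit [IsDomain k] in
private theorem wPhi_monomial (d : σ →₀ ℕ) (c : k) :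
    wPhi wt (monomial d c) =
      Polynomial.C (monomial d c) * Polynomial.X ^ (Finsupp.weight wt d) := by
  rw [wPhi, MvPolynomial.eval₂Hom_monomial]
  have h1 : (d.prod fun i n => ((Polynomial.C (X i : MvPolynomial σ k)) *
      Polynomial.X ^ wt i) ^ n) =
      Polynomial.C (d.prod fun i n => (X i : MvPolynomial σ k) ^ n) *
        Polynomial.X ^ (Finsupp.weight wt d) := by
    have h2 : ∀ (i : σ) (n : ℕ), ((Polynomial.C (X i : MvPolynomial σ k)) *
        Polynomial.X ^ wt i) ^ n =
        Polynomial.C ((X i : MvPolynomial σ k) ^ n) * Polynomial.X ^ (n • wt i) := by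
      intro i n
      rw [mul_pow, ← pow_mul, map_pow, smul_eq_mul, mul_comm n]
    simp only [h2]
    rw [Finsupp.prod_mul]
    congr 1
    · rw [map_finsuppProd]
    · rw [Finsupp.weight_apply]
      unfold Finsupp.prod Finsupp.sum
      rw [Finset.prod_pow_eq_pow_sum]
  rw [h1, MvPolynomial.monomial_eq, map_mul]
  simp only [RingHom.comp_apply]
  ring

omit [IsDomain k] in
private theorem wPhi_coeff (F : MvPolynomial σ k) (m : ℕ) :
    (wPhi wt F).coeff m = weightedHomogeneousComponent wt m F := by
  classical
  induction F using MvPolynomial.induction_on' with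
  | monomial d c =>
    rw [wPhi_monomial, Polynomial.coeff_C_mul_X_pow]
    ext e
    rw [coeff_weightedHomogeneousComponent]
    by_cases h : m = Finsupp.weight wt d
    · rw [if_pos h]
      by_cases he : d = e
      · subst he
        rw [if_pos h.symm]
      · rw [coeff_monomial, if_neg he]
        simp
    · rw [if_neg h]
      by_cases he : d = e
      · subst he
        rw [if_neg (fun h' => h h'.symm)]
        simp
      · rw [coeff_monomial, if_neg he]
        simp
  | add p q hp hq => rw [map_add, Polynomial.coeff_add, hp, hq, map_add]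

omit [IsDomain k] in
private theorem wPhi_of_hom {F : MvPolynomial σ k} {m : ℕ} (h : F.IsWeightedHomogeneous wt m) :
    wPhi wt F = Polynomial.C F * Polynomial.X ^ m := by
  ext1 n
  rw [wPhi_coeff, Polynomial.coeff_C_mul_X_pow]
  by_cases hn : n = m
  · rw [if_pos hn, hn, h.weightedHomogeneousComponent_same]
  · rw [if_neg hn]
    exact h.weightedHomogeneousComponent_ne n (fun h' => hn h')

omit [IsDomain k] in
private theorem wPhi_eval (F : MvPolynomial σ k) : (wPhi wt F).eval 1 = F := by
  have : ((Polynomial.evalRingHom (1 : MvPolynomial σ k)).comp (wPhi wt)) =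
      RingHom.id (MvPolynomial σ k) := by
    apply MvPolynomial.ringHom_ext
    · intro r
      simp [wPhi]
    · intro i
      simp [wPhi]
  exact congrArg (fun f : MvPolynomial σ k →+* MvPolynomial σ k => f F) this

omit [IsDomain k] in
private theorem hom_of_wPhi {F : MvPolynomial σ k} {i : ℕ}
    (h1 : (wPhi wt F).natDegree = i) (h2 : (wPhi wt F).natTrailingDegree = i) :
    F.IsWeightedHomogeneous wt i := by
  have h3 : ∀ n, n ≠ i → weightedHomogeneousComponent wt n F = 0 := by
    intro n hn
    rw [← wPhi_coeff]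
    rcases lt_or_gt_of_ne hn with h | h
    · exact Polynomial.coeff_eq_zero_of_lt_natTrailingDegree (by rw [h2]; exact h)
    · exact Polynomial.coeff_eq_zero_of_natDegree_lt (by rw [h1]; exact h)
  have h4 : weightedHomogeneousComponent wt i F = F := by
    conv_rhs => rw [← wPhi_eval (wt := wt) F]
    have h5 : wPhi wt F = Polynomial.C (weightedHomogeneousComponent wt i F) *
        Polynomial.X ^ i := by
      ext1 n
      rw [wPhi_coeff, Polynomial.coeff_C_mul_X_pow]
      by_cases hn : n = i
      · rw [if_pos hn, hn]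
      · rw [if_neg hn, h3 n hn]
    rw [h5]
    simp
  rw [← h4]
  exact weightedHomogeneousComponent_isWeightedHomogeneous i F

/-- The factors of a weighted homogeneous polynomial are weighted homogeneous.

PROOF. Let `Φ : MvPolynomial σ k →+* Polynomial (MvPolynomial σ k)` be the ring homomorphism
(`MvPolynomial.eval₂Hom`) with `C c ↦ C (C c)`, `X i ↦ C (X i) * X ^ wt i`. On a monomial of weight
`m` it is multiplication by `X ^ m`, so `(Φ F).coeff m = weightedHomogeneousComponent wt m F`, and
`F` is weighted homogeneous of degree `m` iff `Φ F = C F * X ^ m`; the evaluation at `1` of `Φ F` is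
`F`. So `Φ F * Φ G = C (F G) * X ^ m`, with `F G ≠ 0`. In the domain `MvPolynomial σ k` the degree
and the trailing degree are additive (`Polynomial.natDegree_mul`, `Polynomial.natTrailingDegree_mul`)
and `natTrailingDegree ≤ natDegree`, so `natDegree (Φ F) = natTrailingDegree (Φ F) =: i`, i.e.
`Φ F = C c * X ^ i`, evaluating at `1` gives `c = F`. The same for `G`. -/
theorem hom_of_mul {F G : MvPolynomial σ k} {m : ℕ} (h : (F * G).IsWeightedHomogeneous wt m)
    (hne : F * G ≠ 0) : ∃ i j, i + j = m ∧ F.IsWeightedHomogeneous wt i ∧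
      G.IsWeightedHomogeneous wt j := by
  have hF : wPhi wt F ≠ 0 := by
    intro h0
    apply hne
    have := wPhi_eval (wt := wt) F
    rw [h0] at this
    rw [← this]
    simp
  have hG : wPhi wt G ≠ 0 := by
    intro h0
    apply hne
    have := wPhi_eval (wt := wt) G
    rw [h0] at this
    rw [← this]
    simp
  have h1 : wPhi wt F * wPhi wt G = Polynomial.C (F * G) * Polynomial.X ^ m := by
    rw [← map_mul, wPhi_of_hom h]
  have h2 : (wPhi wt F).natDegree + (wPhi wt G).natDegree = m := by
    rw [← Polynomial.natDegree_mul hF hG, h1, Polynomial.natDegree_C_mul_X_pow m _ hne]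
  have h3 : (wPhi wt F).natTrailingDegree + (wPhi wt G).natTrailingDegree = m := by
    rw [← Polynomial.natTrailingDegree_mul hF hG, h1, Polynomial.natTrailingDegree_mul_X_pow
      (Polynomial.C_ne_zero.2 hne), Polynomial.natTrailingDegree_C, zero_add]
  have h4 := Polynomial.natTrailingDegree_le_natDegree (wPhi wt F)
  have h5 := Polynomial.natTrailingDegree_le_natDegree (wPhi wt G)
  exact ⟨_, _, h2, hom_of_wPhi rfl (by omega), hom_of_wPhi rfl (by omega)⟩

/-- PROOF. `G = F u` with a unit `u = C c` (`MvPolynomial.isUnit_iff_eq_C_of_isReduced` or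
`hom_of_mul`, or total degrees), `IsWeightedHomogeneous.inj_right`. -/
theorem hom_of_assoc {F G : MvPolynomial σ k} {m n : ℕ} (h : Associated F G)
    (hF : F.IsWeightedHomogeneous wt m) (hG : G.IsWeightedHomogeneous wt n) (hF0 : F ≠ 0) :
    m = n := by
  obtain ⟨u, hu⟩ := h
  have hG0 : F * (u : MvPolynomial σ k) ≠ 0 := mul_ne_zero hF0 u.ne_zero
  obtain ⟨i, j, hij, hi, hj⟩ := hom_of_mul (wt := wt) (F := F) (G := (u : MvPolynomial σ k))
    (m := n) (by rw [hu]; exact hG) hG0
  have hmi : m = i := IsWeightedHomogeneous.inj_right hF0 hF hi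
  have h1 : ((u : MvPolynomial σ k) * ((u⁻¹ : (MvPolynomial σ k)ˣ) : MvPolynomial σ k)) = 1 :=
    u.mul_inv
  obtain ⟨a, b, hab, ha, -⟩ := hom_of_mul (wt := wt) (F := (u : MvPolynomial σ k))
    (G := ((u⁻¹ : (MvPolynomial σ k)ˣ) : MvPolynomial σ k)) (m := 0)
    (by rw [h1]; exact isWeightedHomogeneous_one k wt) (by rw [h1]; exact one_ne_zero)
  have hja : j = a := IsWeightedHomogeneous.inj_right u.ne_zero hj ha
  omega

end

end Pool.Agent.Lib.MP_3550b5_nt.G
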