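import Mathlib
import Pool.Agent.Lib.MP_3550b5_nt.G.Red
import Pool.Agent.Lib.MP_3550b5_nt.G.Hom

/-!
Points given by weighted homogeneous polynomials.
-/

namespace Pool.Agent.Lib.MP_3550b5_nt.G

open WeierstrassCurve.Affine MvPolynomial

section

variable {n : ℕ} {K : Type*} [Field K]

/-- `P = (X / W^2, Y / W^3)` with weighted homogeneous `X`, `Y`, `W` of degrees `2 (d + e)`,
`3 (d + e)`, `e`. -/
structure HRep (φ : MvPolynomial (Fin n) ℚ →+* K) (wt : Fin n → ℕ) (d : ℕ)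
    {a b : MvPolynomial (Fin n) ℚ} (e : ℕ) (X Y W : MvPolynomial (Fin n) ℚ)
    (P : (scurve (φ a) (φ b)).Point) : Prop where
  homX : X.IsWeightedHomogeneous wt (2 * (d + e))
  homY : Y.IsWeightedHomogeneous wt (3 * (d + e))
  homW : W.IsWeightedHomogeneous wt e
  rep : Rep φ X Y W P

variable {φ : MvPolynomial (Fin n) ℚ →+* K} {wt : Fin n → ℕ} {d : ℕ}
  {a b : MvPolynomial (Fin n) ℚ}

private lemma rep_of {X Y W : MvPolynomial (Fin n) ℚ} {P : (scurve (φ a) (φ b)).Point}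
    (hW : W ≠ 0) {x y : K} (hns : (scurve (φ a) (φ b)).Nonsingular x y)
    (hP : P = Point.some x y hns) (ex : φ X / φ W ^ 2 = x) (ey : φ Y / φ W ^ 3 = y) :
    Rep φ X Y W P := by
  subst ex ey
  exact ⟨hW, hns, hP⟩

private lemma wh_cast {p : MvPolynomial (Fin n) ℚ} {m m' : ℕ}
    (h : p.IsWeightedHomogeneous wt m) (e : m = m') : p.IsWeightedHomogeneous wt m' := e ▸ h

private lemma wh_neg {p : MvPolynomial (Fin n) ℚ} {m : ℕ}
    (h : p.IsWeightedHomogeneous wt m) : (-p).IsWeightedHomogeneous wt m :=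
  (weightedHomogeneousSubmodule ℚ wt m).neg_mem h

private lemma wh_sub {p q : MvPolynomial (Fin n) ℚ} {m : ℕ}
    (h : p.IsWeightedHomogeneous wt m) (h' : q.IsWeightedHomogeneous wt m) :
    (p - q).IsWeightedHomogeneous wt m :=
  (weightedHomogeneousSubmodule ℚ wt m).sub_mem h h'

private lemma wh_pow {p : MvPolynomial (Fin n) ℚ} {m : ℕ}
    (h : p.IsWeightedHomogeneous wt m) (k : ℕ) :
    (p ^ k).IsWeightedHomogeneous wt (k * m) := by
  have := h.pow k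
  rwa [smul_eq_mul] at this

private lemma wh_nat (k : ℕ) :
    ((k : ℕ) : MvPolynomial (Fin n) ℚ).IsWeightedHomogeneous wt 0 := by
  have h := isWeightedHomogeneous_C wt (k : ℚ)
  rwa [map_natCast] at h

private lemma wh_nat_mul {p : MvPolynomial (Fin n) ℚ} {m : ℕ} (k : ℕ)
    (h : p.IsWeightedHomogeneous wt m) :
    (((k : ℕ) : MvPolynomial (Fin n) ℚ) * p).IsWeightedHomogeneous wt m :=
  wh_cast ((wh_nat k).mul h) (zero_add m)

/-- PROOF. `neg_coord`; `(X, -Y, W)`. -/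
lemma HRep.neg {e : ℕ} {X Y W : MvPolynomial (Fin n) ℚ} {P : (scurve (φ a) (φ b)).Point}
    (h : HRep φ wt d e X Y W P) : HRep φ wt d e X (-Y) W (-P) := by
  obtain ⟨hX, hY, hW, hW0, hns, hP⟩ := h
  obtain ⟨h', e'⟩ := neg_coord hns
  refine ⟨hX, wh_neg hY, hW, rep_of hW0 h' (by rw [hP, e']) rfl ?_⟩
  rw [map_neg, neg_div]

/-- Lowest terms. PROOF. `exists_reduced` (with `Rep.eqn`) gives `W = G W'`, `X = G^2 X'`,
`Y = G^3 Y'`, `Low X' W'`; `Rep.cancel`. By `hom_of_mul` `G` and `W'` are homogeneous of degrees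
`g`, `e'` with `g + e' = e`. If `X' ≠ 0`: by `hom_of_mul` `X'` is homogeneous of some degree `j`,
with `i + j = 2 (d + e)` where `G^2` is homogeneous of degree `i`, and `i = 2 g`
(`IsWeightedHomogeneous.inj_right`, `IsWeightedHomogeneous.pow`). So `j = 2 (d + e')`. If `X' = 0`
it is homogeneous of every degree (`isWeightedHomogeneous_zero`). The same for `Y'`. -/
lemma HRep.reduce (hφ : IsFrac φ) {e : ℕ} {X Y W : MvPolynomial (Fin n) ℚ}
    {P : (scurve (φ a) (φ b)).Point} (h : HRep φ wt d e X Y W P) :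
    ∃ (e' : ℕ) (X' Y' W' : MvPolynomial (Fin n) ℚ), HRep φ wt d e' X' Y' W' P ∧ Low X' W' := by
  obtain ⟨G, X', Y', W', hG, eW, eX, eY, hlow⟩ := exists_reduced h.rep.1 (Rep.eqn hφ h.rep)
  subst eW eX eY
  obtain ⟨hX, hY, hW, hrep⟩ := h
  obtain ⟨g, e', hge, hGg, hW'⟩ := hom_of_mul hW hrep.1
  have key : ∀ (k : ℕ) (Z : MvPolynomial (Fin n) ℚ),
      (G ^ k * Z).IsWeightedHomogeneous wt (k * (d + e)) →
      Z.IsWeightedHomogeneous wt (k * (d + e')) := by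
    intro k Z hZ
    by_cases hZ0 : Z = 0
    · rw [hZ0]
      exact isWeightedHomogeneous_zero ℚ wt _
    · have hne : G ^ k * Z ≠ 0 := mul_ne_zero (pow_ne_zero _ hG) hZ0
      obtain ⟨i, j, hij, hGi, hZj⟩ := hom_of_mul hZ hne
      have hi : i = k * g := IsWeightedHomogeneous.inj_right (pow_ne_zero _ hG) hGi (wh_pow hGg k)
      refine wh_cast hZj ?_
      subst hi hge
      have h1 : k * g + j = k * g + k * (d + e') := by rw [hij]; ring
      exact Nat.add_left_cancel h1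
  exact ⟨e', X', Y', W', ⟨key 2 X' hX, key 3 Y' hY, hW', Rep.cancel hφ hrep⟩, hlow⟩

/-- Sum of two points with different `x`-coordinate. PROOF. `add_coord`: with
`U = X1 W2^2 - X2 W1^2 ≠ 0` and `S = Y1 W2^3 - Y2 W1^3` take `W3 = W1 W2 U`,
`X3 = S^2 - (X1 W2^2 + X2 W1^2) U^2`, `Y3 = -Y1 W2^3 U^3 - S (X3 - X1 W2^2 U^2)`; with
`e3 = 2 d + 3 e1 + 3 e2` (so that `d + e3 = 3 (d + e1 + e2)`). `U` is homogeneous of degree
`2 (d + e1 + e2)`, `S` of degree `3 (d + e1 + e2)`. -/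
lemma HRep.add_ne [DecidableEq K] (hφ : IsFrac φ) {e1 e2 : ℕ}
    {X1 Y1 W1 X2 Y2 W2 : MvPolynomial (Fin n) ℚ} {P Q : (scurve (φ a) (φ b)).Point}
    (h1 : HRep φ wt d e1 X1 Y1 W1 P) (h2 : HRep φ wt d e2 X2 Y2 W2 Q) (hne : P ≠ Q)
    (hne' : P ≠ -Q) : ∃ (e : ℕ) (X Y W : MvPolynomial (Fin n) ℚ), HRep φ wt d e X Y W (P + Q) := by
  obtain ⟨hX1, hY1, hW1, hW10, hns1, hP⟩ := h1
  obtain ⟨hX2, hY2, hW2, hW20, hns2, hQ⟩ := h2
  have hx : φ X1 / φ W1 ^ 2 ≠ φ X2 / φ W2 ^ 2 := by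
    intro hx
    rcases eq_or_neg_of_x hns1 hns2 hx with h | h
    · exact hne (by rw [hP, hQ, h])
    · exact hne' (by rw [hP, hQ, h])
  obtain ⟨l, x3, y3, h3, e1', e2', e3', e4'⟩ := add_coord hns1 hns2 hx
  have w1 : φ W1 ≠ 0 := fun h0 => hW10 (hφ.inj (by rw [h0, map_zero]))
  have w2 : φ W2 ≠ 0 := fun h0 => hW20 (hφ.inj (by rw [h0, map_zero]))
  have hU0 : φ (X1 * W2 ^ 2 - X2 * W1 ^ 2) ≠ 0 := by
    intro h0
    apply hx
    rw [div_eq_div_iff (pow_ne_zero 2 w1) (pow_ne_zero 2 w2)]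
    simp only [map_sub, map_mul, map_pow] at h0
    linear_combination h0
  set U := X1 * W2 ^ 2 - X2 * W1 ^ 2 with hU
  set S := Y1 * W2 ^ 3 - Y2 * W1 ^ 3 with hS
  have hUh : U.IsWeightedHomogeneous wt (2 * (d + e1 + e2)) := by
    refine wh_sub (wh_cast (hX1.mul (wh_pow hW2 2)) (by ring))
      (wh_cast (hX2.mul (wh_pow hW1 2)) (by ring))
  have hSh : S.IsWeightedHomogeneous wt (3 * (d + e1 + e2)) := by
    refine wh_sub (wh_cast (hY1.mul (wh_pow hW2 3)) (by ring))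
      (wh_cast (hY2.mul (wh_pow hW1 3)) (by ring))
  have hX3 : (S ^ 2 - (X1 * W2 ^ 2 + X2 * W1 ^ 2) * U ^ 2).IsWeightedHomogeneous wt
      (2 * (d + (2 * d + 3 * e1 + 3 * e2))) := by
    refine wh_sub (wh_cast (wh_pow hSh 2) (by ring)) ?_
    have hs : (X1 * W2 ^ 2 + X2 * W1 ^ 2).IsWeightedHomogeneous wt (2 * (d + e1 + e2)) :=
      (wh_cast (hX1.mul (wh_pow hW2 2)) (by ring)).add
        (wh_cast (hX2.mul (wh_pow hW1 2)) (by ring))
    exact wh_cast (hs.mul (wh_pow hUh 2)) (by ring)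
  have ul : φ W1 * φ W2 * φ U * l = φ S := by
    have k1 : (φ X1 / φ W1 ^ 2 - φ X2 / φ W2 ^ 2) * (φ W1 ^ 2 * φ W2 ^ 2) = φ U := by
      rw [hU]
      simp only [map_sub, map_mul, map_pow]
      field_simp
    have k2 : (φ Y1 / φ W1 ^ 3 - φ Y2 / φ W2 ^ 3) * (φ W1 ^ 3 * φ W2 ^ 3) = φ S := by
      rw [hS]
      simp only [map_sub, map_mul, map_pow]
      field_simp
    rw [← k2, ← e1', ← k1]
    ring
  have hl : l = φ S / (φ W1 * φ W2 * φ U) := by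
    rw [eq_div_iff (mul_ne_zero (mul_ne_zero w1 w2) hU0)]
    linear_combination ul
  have hUd : φ U = φ X1 * φ W2 ^ 2 - φ X2 * φ W1 ^ 2 := by
    rw [hU]
    simp only [map_sub, map_mul, map_pow]
  have hW30 : W1 * W2 * U ≠ 0 := by
    refine mul_ne_zero (mul_ne_zero hW10 hW20) fun h0 => hU0 ?_
    rw [h0, map_zero]
  have hx3 : φ (S ^ 2 - (X1 * W2 ^ 2 + X2 * W1 ^ 2) * U ^ 2) / φ (W1 * W2 * U) ^ 2 = x3 := by
    rw [e2', hl]
    simp only [map_sub, map_add, map_mul, map_pow]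
    field_simp
    ring
  refine ⟨2 * d + 3 * e1 + 3 * e2, S ^ 2 - (X1 * W2 ^ 2 + X2 * W1 ^ 2) * U ^ 2,
    -(Y1 * W2 ^ 3 * U ^ 3) - S * ((S ^ 2 - (X1 * W2 ^ 2 + X2 * W1 ^ 2) * U ^ 2) -
      X1 * W2 ^ 2 * U ^ 2), W1 * W2 * U, ⟨hX3, ?_, ?_, ?_⟩⟩
  · refine wh_sub (wh_neg (wh_cast ((hY1.mul (wh_pow hW2 3)).mul (wh_pow hUh 3)) (by ring))) ?_
    have hs : ((S ^ 2 - (X1 * W2 ^ 2 + X2 * W1 ^ 2) * U ^ 2) -
        X1 * W2 ^ 2 * U ^ 2).IsWeightedHomogeneous wt (6 * (d + e1 + e2)) :=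
      wh_sub (wh_cast hX3 (by ring))
        (wh_cast ((hX1.mul (wh_pow hW2 2)).mul (wh_pow hUh 2)) (by ring))
    exact wh_cast (hSh.mul hs) (by ring)
  · exact wh_cast ((hW1.mul hW2).mul hUh) (by ring)
  · refine rep_of hW30 h3 (by rw [hP, hQ, e4']) hx3 ?_
    rw [e3', ← hx3, hl]
    simp only [map_sub, map_add, map_mul, map_pow, map_neg]
    field_simp

/-- Duplication. PROOF. `dbl_coord` (`2 y ≠ 0` as `P + P ≠ 0`): `W3 = 2 Y W`,
`X3 = (3 X^2 + a W^4)^2 - 8 X Y^2`, `Y3 = -8 Y^4 - (3 X^2 + a W^4) (X3 - 4 X Y^2)`,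
`e3 = 3 d + 4 e`. -/
lemma HRep.dbl [DecidableEq K] (hφ : IsFrac φ) (ha : a.IsWeightedHomogeneous wt (4 * d)) {e : ℕ}
    {X Y W : MvPolynomial (Fin n) ℚ} {P : (scurve (φ a) (φ b)).Point}
    (h : HRep φ wt d e X Y W P) (hne : P + P ≠ 0) :
    ∃ (e' : ℕ) (X' Y' W' : MvPolynomial (Fin n) ℚ), HRep φ wt d e' X' Y' W' (P + P) := by
  obtain ⟨hX, hY, hW, hW0, hns, hP⟩ := h
  have hy : 2 * (φ Y / φ W ^ 3) ≠ 0 := fun h0 => hne (by rw [hP]; exact dbl_eq_zero hns h0)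
  obtain ⟨l, x3, y3, h3, e1', e2', e3', e4'⟩ := dbl_coord hns hy
  have w : φ W ≠ 0 := fun h0 => hW0 (hφ.inj (by rw [h0, map_zero]))
  have h2 : (2 : K) ≠ 0 := fun h0 => hy (by rw [h0, zero_mul])
  have hY0 : φ Y ≠ 0 := fun h0 => hy (by rw [h0, zero_div, mul_zero])
  have hYne : Y ≠ 0 := fun h0 => hY0 (by rw [h0, map_zero])
  set N := ((3 : ℕ) : MvPolynomial (Fin n) ℚ) * X ^ 2 + a * W ^ 4 with hN
  have hNh : N.IsWeightedHomogeneous wt (4 * (d + e)) :=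
    (wh_cast (wh_nat_mul 3 (wh_pow hX 2)) (by ring)).add
      (wh_cast (ha.mul (wh_pow hW 4)) (by ring))
  have hNd : φ N = 3 * φ X ^ 2 + φ a * φ W ^ 4 := by
    rw [hN]
    simp only [map_add, map_mul, map_pow, map_natCast]
    push_cast
    ring
  set X3 := N ^ 2 - ((8 : ℕ) : MvPolynomial (Fin n) ℚ) * (X * Y ^ 2) with hX3d
  have hX3φ : φ X3 = φ N ^ 2 - 8 * (φ X * φ Y ^ 2) := by
    rw [hX3d]
    simp only [map_sub, map_mul, map_pow, map_natCast]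
    push_cast
    ring
  have hX3 : X3.IsWeightedHomogeneous wt (2 * (d + (3 * d + 4 * e))) :=
    wh_sub (wh_cast (wh_pow hNh 2) (by ring))
      (wh_cast (wh_nat_mul 8 (hX.mul (wh_pow hY 2))) (by ring))
  have hl : l = φ N / (2 * φ Y * φ W) := by
    rw [eq_div_iff (mul_ne_zero (mul_ne_zero h2 hY0) w), hNd]
    have k1 : 2 * (φ Y / φ W ^ 3) * l * φ W ^ 4 = 2 * φ Y * φ W * l := by
      field_simp
    have k2 : (3 * (φ X / φ W ^ 2) ^ 2 + φ a) * φ W ^ 4 = 3 * φ X ^ 2 + φ a * φ W ^ 4 := by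
      field_simp
    rw [← k2, ← e1', k1]
    ring
  have hW3 : φ (((2 : ℕ) : MvPolynomial (Fin n) ℚ) * (Y * W)) = 2 * φ Y * φ W := by
    simp only [map_mul, map_natCast]
    push_cast
    ring
  have hW30 : ((2 : ℕ) : MvPolynomial (Fin n) ℚ) * (Y * W) ≠ 0 := by
    intro h0
    have h5 : 2 * φ Y * φ W = 0 := by rw [← hW3, h0, map_zero]
    exact mul_ne_zero (mul_ne_zero h2 hY0) w h5
  have hx3 : φ X3 / φ (((2 : ℕ) : MvPolynomial (Fin n) ℚ) * (Y * W)) ^ 2 = x3 := by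
    rw [e2', hl, hW3, hX3φ]
    field_simp
    ring
  refine ⟨3 * d + 4 * e, X3, -(((8 : ℕ) : MvPolynomial (Fin n) ℚ) * Y ^ 4) -
    N * (X3 - ((4 : ℕ) : MvPolynomial (Fin n) ℚ) * (X * Y ^ 2)),
    ((2 : ℕ) : MvPolynomial (Fin n) ℚ) * (Y * W), ⟨hX3, ?_, ?_, ?_⟩⟩
  · refine wh_sub (wh_neg (wh_cast (wh_nat_mul 8 (wh_pow hY 4)) (by ring))) ?_
    have hs : (X3 - ((4 : ℕ) : MvPolynomial (Fin n) ℚ) * (X * Y ^ 2)).IsWeightedHomogeneous wt
        (8 * (d + e)) :=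
      wh_sub (wh_cast hX3 (by ring))
        (wh_cast (wh_nat_mul 4 (hX.mul (wh_pow hY 2))) (by ring))
    exact wh_cast (hNh.mul hs) (by ring)
  · exact wh_cast (wh_nat_mul 2 (hY.mul hW)) (by ring)
  · refine rep_of hW30 h3 (by rw [hP, e4']) hx3 ?_
    rw [e3', ← hx3, hl, hW3]
    simp only [map_sub, map_mul, map_pow, map_neg, map_natCast]
    push_cast
    field_simp
    ring

end

end Pool.Agent.Lib.MP_3550b5_nt.G
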