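import Mathlib
import Pool.Agent.Lib.MP_3550b5_nt.G.UFD

/-!
The parallelogram law for the denominators of points with nonsingular reduction at all primes.
-/

namespace Pool.Agent.Lib.MP_3550b5_nt.G

open WeierstrassCurve.Affine

variable {A : Type*} [CommRing A] [IsDomain A] [UniqueFactorizationMonoid A]
  {K : Type*} [Field K]

/-- The point with representation `(X / W^2, Y / W^3)` is nonsingular at all primes. -/
def Nar (a X Y W : A) : Prop := ∀ π : A, Prime π → ¬ (π ∣ Y ∧ π ∣ 3 * X ^ 2 + a * W ^ 4)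

/-- If `D ∣ E * D`, `D ∣ E * S`, `D ∣ E * T` and no prime divides `D`, `S`, `T`, then `D ∣ E`.
PROOF. `D ≠ 0`. Induction on `D` (`UniqueFactorizationMonoid.induction_on_prime` or
`WfDvdMonoid.induction_on_irreducible`), generalising `E`; or with a gcd
(`UniqueFactorizationMonoid.toGCDMonoid`): `gcd (gcd D S) T` is a unit, and
`D ∣ gcd (gcd (E D) (E S)) (E T) ~ E * gcd (gcd D S) T` (`gcd_mul_left'`, `dvd_gcd`). -/
lemma dvd_of_prim {D S T E : A} (hD : D ≠ 0) (hp : ∀ π : A, Prime π → ¬ (π ∣ D ∧ π ∣ S ∧ π ∣ T))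
    (h1 : D ∣ E * S) (h2 : D ∣ E * T) : D ∣ E := by
  classical
  letI : GCDMonoid A := UniqueFactorizationMonoid.toGCDMonoid A
  have hg0 : gcd (gcd D S) T ≠ 0 := by
    intro h
    have h3 : gcd (gcd D S) T ∣ D := (gcd_dvd_left _ _).trans (gcd_dvd_left _ _)
    rw [h, zero_dvd_iff] at h3
    exact hD h3
  have hu : IsUnit (gcd (gcd D S) T) := by
    by_contra hnu
    obtain ⟨π, hπ, hd⟩ := WfDvdMonoid.exists_irreducible_factor hnu hg0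
    have hπ' : Prime π := UniqueFactorizationMonoid.irreducible_iff_prime.1 hπ
    exact hp π hπ' ⟨hd.trans ((gcd_dvd_left _ _).trans (gcd_dvd_left _ _)),
      hd.trans ((gcd_dvd_left _ _).trans (gcd_dvd_right _ _)), hd.trans (gcd_dvd_right _ _)⟩
  have h4 : D ∣ gcd (gcd (E * D) (E * S)) (E * T) :=
    dvd_gcd (dvd_gcd (dvd_mul_left _ _) h1) h2
  have h5 : Associated (gcd (gcd (E * D) (E * S)) (E * T)) (E * gcd (gcd D S) T) := by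
    have h6 : Associated (gcd (gcd (E * D) (E * S)) (E * T)) (gcd (E * gcd D S) (E * T)) :=
      (gcd_mul_left' E D S).gcd (Associated.refl _)
    exact h6.trans (gcd_mul_left' E (gcd D S) T)
  exact (hu.dvd_mul_right).1 (h4.trans h5.dvd)

/-- Proportional primitive triples have associated first entries. PROOF. `dvd_of_prim` twice:
`D ∣ D' * S` because `D' * S = D * S'`. -/
lemma assoc_of_prop {D S T D' S' T' : A} (hD : D ≠ 0) (hD' : D' ≠ 0)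
    (hp : ∀ π : A, Prime π → ¬ (π ∣ D ∧ π ∣ S ∧ π ∣ T))
    (hp' : ∀ π : A, Prime π → ¬ (π ∣ D' ∧ π ∣ S' ∧ π ∣ T'))
    (h1 : D * S' = S * D') (h2 : D * T' = T * D') : Associated D D' := by
  refine associated_of_dvd_dvd ?_ ?_
  · refine dvd_of_prim hD hp ?_ ?_
    · exact ⟨S', by linear_combination -h1⟩
    · exact ⟨T', by linear_combination -h2⟩
  · refine dvd_of_prim hD' hp' ?_ ?_
    · exact ⟨S, by linear_combination h1⟩
    · exact ⟨T, by linear_combination h2⟩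

/-- Gauss. PROOF. If `π ∣ (W3 W4)^2` then e.g. `π ∣ W3`; then `π ∤ X3`, so from the second
`π ∣ X3 W4^2`, `π ∣ W4`, so `π ∤ X4`, but `π ∣ X3 X4`. Symmetrically for `π ∣ W4`. -/
lemma prim_prod {X3 W3 X4 W4 : A} (h3 : Low X3 W3) (h4 : Low X4 W4) (π : A) (hπ : Prime π) :
    ¬ (π ∣ (W3 * W4) ^ 2 ∧ π ∣ X3 * W4 ^ 2 + X4 * W3 ^ 2 ∧ π ∣ X3 * X4) := by
  rintro ⟨h1, h2, h5⟩
  have h6 : π ∣ W3 * W4 := hπ.dvd_of_dvd_pow h1
  have key : ∀ {U V U' V' : A}, Low U V → Low U' V' → π ∣ V → π ∣ U * V' ^ 2 + U' * V ^ 2 →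
      π ∣ U * U' → False := by
    intro U V U' V' hl hl' hV hs hm
    have hU : ¬ π ∣ U := fun h => hl π hπ ⟨h, hV⟩
    have h7 : π ∣ U * V' ^ 2 := by
      have h8 : π ∣ U' * V ^ 2 := (dvd_pow hV two_ne_zero).mul_left _
      exact (dvd_add_left h8).1 hs
    have h9 : π ∣ V' := hπ.dvd_of_dvd_pow ((hπ.dvd_or_dvd h7).resolve_left hU)
    have h10 : π ∣ U' := (hπ.dvd_or_dvd hm).resolve_left hU
    exact hl' π hπ ⟨h10, h9⟩
  rcases hπ.dvd_or_dvd h6 with h | h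
  · exact key h3 h4 h h2 h5
  · refine key h4 h3 h ?_ ?_
    · rwa [add_comm] at h2
    · rwa [mul_comm] at h5

/-- PROOF. Suppose `π` divides the three. First `π ∣ U := X1 W2^2 - X2 W1^2`.
If `π ∣ W1`: `π ∣ X1 W2^2`, `π ∤ X1` (`Low`), so `π ∣ W2`; then the third is congruent to
`(X1 X2)^2`, so `π ∣ X1` or `π ∣ X2`: both impossible. The same if `π ∣ W2`. So `π ∤ W1, W2`.
Modulo `U` one has (find the cofactors with `ring`/`linear_combination`)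
`S W1^2 = 4 W2^4 Y1^2 + U * (..)` and
`T W1^4 = W2^4 ((3 X1^2 + a W1^4)^2 - 8 X1 Y1^2) + U * (..)`, where `S`, `T` are the second and the
third expression and `Y1^2 = X1^3 + a X1 W1^4 + b W1^6`. So `π ∣ 4 W2^4 Y1^2`, `π ∣ Y1` (`π ∤ 2`),
and `π ∣ (3 X1^2 + a W1^4)^2`. This contradicts `Nar a X1 Y1 W1`. -/
lemma prim_DST {a b X1 Y1 W1 X2 W2 : A} (e1 : Y1 ^ 2 = X1 ^ 3 + a * X1 * W1 ^ 4 + b * W1 ^ 6)
    (l1 : Low X1 W1) (l2 : Low X2 W2) (n1 : Nar a X1 Y1 W1) (π : A) (hπ : Prime π)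
    (h2 : ¬ π ∣ 2) :
    ¬ (π ∣ (X1 * W2 ^ 2 - X2 * W1 ^ 2) ^ 2 ∧
      π ∣ 2 * ((X1 * W2 ^ 2 + X2 * W1 ^ 2) * (X1 * X2 + a * W1 ^ 2 * W2 ^ 2) +
        2 * b * W1 ^ 4 * W2 ^ 4) ∧
      π ∣ (X1 * X2 - a * W1 ^ 2 * W2 ^ 2) ^ 2 -
        4 * b * W1 ^ 2 * W2 ^ 2 * (X1 * W2 ^ 2 + X2 * W1 ^ 2)) := by
  rintro ⟨hD, hS, hT⟩
  have hU : π ∣ X1 * W2 ^ 2 - X2 * W1 ^ 2 := hπ.dvd_of_dvd_pow hD
  -- a common prime factor of `W1`, `W2` is impossible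
  have hWW : π ∣ W1 → π ∣ W2 → False := by
    intro hw1 hw2
    have hX : π ∣ (X1 * X2) ^ 2 := by
      have h3 : π ∣ W1 * (-2 * (X1 * X2) * a * W1 * W2 ^ 2 + a ^ 2 * W1 ^ 3 * W2 ^ 4 -
          4 * b * W1 * W2 ^ 2 * (X1 * W2 ^ 2 + X2 * W1 ^ 2)) := hw1.mul_right _
      have h4 := dvd_sub hT h3
      have e : (X1 * X2 - a * W1 ^ 2 * W2 ^ 2) ^ 2 -
          4 * b * W1 ^ 2 * W2 ^ 2 * (X1 * W2 ^ 2 + X2 * W1 ^ 2) -
          W1 * (-2 * (X1 * X2) * a * W1 * W2 ^ 2 + a ^ 2 * W1 ^ 3 * W2 ^ 4 -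
          4 * b * W1 * W2 ^ 2 * (X1 * W2 ^ 2 + X2 * W1 ^ 2)) = (X1 * X2) ^ 2 := by ring
      rwa [e] at h4
    rcases hπ.dvd_or_dvd (hπ.dvd_of_dvd_pow hX) with h | h
    · exact l1 π hπ ⟨h, hw1⟩
    · exact l2 π hπ ⟨h, hw2⟩
  have hW1 : ¬ π ∣ W1 := by
    intro h
    have h3 : π ∣ X1 * W2 ^ 2 :=
      (dvd_sub_left ((dvd_pow h two_ne_zero).mul_left X2)).1 hU
    have h4 : ¬ π ∣ X1 := fun h5 => l1 π hπ ⟨h5, h⟩
    exact hWW h (hπ.dvd_of_dvd_pow ((hπ.dvd_or_dvd h3).resolve_left h4))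
  have hW2 : ¬ π ∣ W2 := by
    intro h
    have h3 : π ∣ X2 * W1 ^ 2 :=
      (dvd_sub_right ((dvd_pow h two_ne_zero).mul_left X1)).1 hU
    have h4 : ¬ π ∣ X2 := fun h5 => l2 π hπ ⟨h5, h⟩
    exact hWW (hπ.dvd_of_dvd_pow ((hπ.dvd_or_dvd h3).resolve_left h4)) h
  have h4' : ¬ π ∣ 4 := by
    intro h
    apply h2
    have h3 : π ∣ (2 : A) ^ 2 := by
      have e : (2 : A) ^ 2 = 4 := by norm_num
      rwa [e]
    exact hπ.dvd_of_dvd_pow h3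
  have hY : π ∣ Y1 := by
    have h3 : π ∣ 4 * W2 ^ 4 * Y1 ^ 2 := by
      have h5 := dvd_sub (hS.mul_right (W1 ^ 2))
        (hU.mul_right (2 * ((X1 * W2 ^ 2 - X2 * W1 ^ 2) * X1 - 3 * X1 ^ 2 * W2 ^ 2 -
          a * W1 ^ 4 * W2 ^ 2)))
      refine h5.trans (dvd_of_eq ?_)
      linear_combination (-4 * W2 ^ 4) * e1
    have h6 : ¬ π ∣ 4 * W2 ^ 4 := by
      intro h
      rcases hπ.dvd_or_dvd h with h | h
      · exact h4' h
      · exact hW2 (hπ.dvd_of_dvd_pow h)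
    exact hπ.dvd_of_dvd_pow ((hπ.dvd_or_dvd h3).resolve_left h6)
  have hQ : π ∣ 3 * X1 ^ 2 + a * W1 ^ 4 := by
    have h3 : π ∣ W2 ^ 4 * ((3 * X1 ^ 2 + a * W1 ^ 4) ^ 2 - 8 * X1 * Y1 ^ 2) := by
      have h5 := dvd_sub (hT.mul_right (W1 ^ 4))
        (hU.mul_right (-2 * X1 * W2 ^ 2 * (X1 ^ 2 - a * W1 ^ 4) +
          (X1 * W2 ^ 2 - X2 * W1 ^ 2) * X1 ^ 2 + 4 * b * W1 ^ 6 * W2 ^ 2))
      refine h5.trans (dvd_of_eq ?_)
      linear_combination (8 * X1 * W2 ^ 4) * e1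
    have h6 : ¬ π ∣ W2 ^ 4 := fun h => hW2 (hπ.dvd_of_dvd_pow h)
    have h7 := (hπ.dvd_or_dvd h3).resolve_left h6
    have h8 : π ∣ 8 * X1 * Y1 ^ 2 := (dvd_pow hY two_ne_zero).mul_left _
    exact hπ.dvd_of_dvd_pow ((dvd_sub_left h8).1 h7)
  exact n1 π hπ ⟨hY, hQ⟩

end Pool.Agent.Lib.MP_3550b5_nt.G
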