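import Mathlib
import Pool.Agent.Lib.MP_3550b5_nt.G.Red
import Pool.Agent.Lib.MP_3550b5_nt.G.Para

/-!
The parallelogram law and the duplication law for denominators.
-/

namespace Pool.Agent.Lib.MP_3550b5_nt.G

open WeierstrassCurve.Affine

variable {A : Type*} [CommRing A] [IsDomain A] [UniqueFactorizationMonoid A]
  {K : Type*} [Field K]

omit [IsDomain A] [UniqueFactorizationMonoid A] in
private lemma para2_ne {φ : A →+* K} (hφ : IsFrac φ) {W : A} (h : W ≠ 0) : φ W ≠ 0 := by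
  intro h0
  exact h (hφ.inj (by rw [h0, map_zero]))

/-- The parallelogram law. PROOF. `P = (x1, y1)`, `Q = (x2, y2)`, `P + Q = (x3, y3)`,
`P - Q = (x4, y4)`. From `P + Q ≠ 0`, `P - Q ≠ 0`: `x1 ≠ x2` (`eq_or_neg_of_x`). `add_sub_coord`
gives `(x1 - x2)^2 (x3 + x4) = ..`, `(x1 - x2)^2 (x3 x4) = ..`. Clear denominators (`x1 = X1/W1^2`
etc., all `φ W ≠ 0`) and use injectivity: with `D`, `S`, `T` as in `prim_DST`,
`D * (X3 W4^2 + X4 W3^2) = S * (W3 W4)^2`, `D * (X3 X4) = T * (W3 W4)^2`. `D ≠ 0` as `x1 ≠ x2`. Now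
`assoc_of_prop` with `prim_DST`, `prim_prod`. -/
theorem para_assoc [DecidableEq K] {φ : A →+* K} (hφ : IsFrac φ)
    (h2 : ∀ π : A, Prime π → ¬ π ∣ 2) {a b X1 Y1 W1 X2 Y2 W2 X3 Y3 W3 X4 Y4 W4 : A}
    {P Q : (scurve (φ a) (φ b)).Point} (r1 : Rep φ X1 Y1 W1 P) (r2 : Rep φ X2 Y2 W2 Q)
    (r3 : Rep φ X3 Y3 W3 (P + Q)) (r4 : Rep φ X4 Y4 W4 (P - Q)) (l1 : Low X1 W1) (l2 : Low X2 W2)
    (l3 : Low X3 W3) (l4 : Low X4 W4) (n1 : Nar a X1 Y1 W1) :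
    Associated ((X1 * W2 ^ 2 - X2 * W1 ^ 2) ^ 2) ((W3 * W4) ^ 2) := by
  have eq1 := Rep.eqn hφ r1
  obtain ⟨w1, k1, p1⟩ := r1
  obtain ⟨w2, k2, p2⟩ := r2
  obtain ⟨w3, k3, p3⟩ := r3
  obtain ⟨w4, k4, p4⟩ := r4
  have v1 := para2_ne hφ w1
  have v2 := para2_ne hφ w2
  have v3 := para2_ne hφ w3
  have v4 := para2_ne hφ w4
  have hx : φ X1 / φ W1 ^ 2 ≠ φ X2 / φ W2 ^ 2 := by
    intro h0
    rcases eq_or_neg_of_x k1 k2 h0 with h5 | h5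
    · have : P - Q = 0 := by rw [p1, p2, h5, sub_self]
      rw [this] at p4
      exact Point.some_ne_zero k4 p4.symm
    · have : P + Q = 0 := by rw [p1, p2, h5, neg_add_cancel]
      rw [this] at p3
      exact Point.some_ne_zero k3 p3.symm
  obtain ⟨x3, y3, h3, x4, y4, h4, q3, q4, e1, e2⟩ := add_sub_coord k1 k2 hx
  rw [p1, p2, q3] at p3
  rw [p1, p2, q4] at p4
  have f3 : x3 = φ X3 / φ W3 ^ 2 := by
    have q := p3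
    simp only [Point.some.injEq] at q
    exact q.1
  have f4 : x4 = φ X4 / φ W4 ^ 2 := by
    have q := p4
    simp only [Point.some.injEq] at q
    exact q.1
  obtain ⟨x1, hx1⟩ : ∃ x1, x1 = φ X1 / φ W1 ^ 2 := ⟨_, rfl⟩
  obtain ⟨x2, hx2⟩ : ∃ x2, x2 = φ X2 / φ W2 ^ 2 := ⟨_, rfl⟩
  rw [← hx1, ← hx2] at e1 e2 hx
  have g1 : φ X1 = x1 * φ W1 ^ 2 := by rw [hx1, div_mul_cancel₀ _ (pow_ne_zero 2 v1)]
  have g2 : φ X2 = x2 * φ W2 ^ 2 := by rw [hx2, div_mul_cancel₀ _ (pow_ne_zero 2 v2)]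
  have g3 : φ X3 = x3 * φ W3 ^ 2 := by rw [f3, div_mul_cancel₀ _ (pow_ne_zero 2 v3)]
  have g4 : φ X4 = x4 * φ W4 ^ 2 := by rw [f4, div_mul_cancel₀ _ (pow_ne_zero 2 v4)]
  have hD : (X1 * W2 ^ 2 - X2 * W1 ^ 2) ^ 2 ≠ 0 := by
    apply pow_ne_zero 2
    intro h0
    have h5 : φ (X1 * W2 ^ 2 - X2 * W1 ^ 2) = 0 := by rw [h0, map_zero]
    have h6 : (x1 - x2) * (φ W1 ^ 2 * φ W2 ^ 2) = 0 := by
      rw [← h5]
      simp only [map_mul, map_sub, map_pow]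
      rw [g1, g2]
      ring
    rcases mul_eq_zero.mp h6 with h7 | h7
    · exact hx (sub_eq_zero.mp h7)
    · exact mul_ne_zero (pow_ne_zero 2 v1) (pow_ne_zero 2 v2) h7
  refine assoc_of_prop (S := 2 * ((X1 * W2 ^ 2 + X2 * W1 ^ 2) * (X1 * X2 + a * W1 ^ 2 * W2 ^ 2) +
        2 * b * W1 ^ 4 * W2 ^ 4)) (T := (X1 * X2 - a * W1 ^ 2 * W2 ^ 2) ^ 2 -
        4 * b * W1 ^ 2 * W2 ^ 2 * (X1 * W2 ^ 2 + X2 * W1 ^ 2))
    (S' := X3 * W4 ^ 2 + X4 * W3 ^ 2) (T' := X3 * X4) hD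
    (pow_ne_zero 2 (mul_ne_zero w3 w4))
    (fun π hπ => prim_DST eq1 l1 l2 n1 π hπ (h2 π hπ)) (fun π hπ => prim_prod l3 l4 π hπ) ?_ ?_
  · apply hφ.inj
    simp only [map_mul, map_sub, map_pow, map_add, map_ofNat]
    rw [g1, g2, g3, g4]
    linear_combination (φ W1 ^ 4 * φ W2 ^ 4 * φ W3 ^ 2 * φ W4 ^ 2) * e1
  · apply hφ.inj
    simp only [map_mul, map_sub, map_pow, map_add, map_ofNat]
    rw [g1, g2, g3, g4]
    linear_combination (φ W1 ^ 4 * φ W2 ^ 4 * φ W3 ^ 2 * φ W4 ^ 2) * e2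

/-- Duplication. PROOF. `P = (x1, y1)`, `2 P = (x3, y3)` with `2 y1 l = 3 x1^2 + a`,
`x3 = l^2 - 2 x1` (`dbl_coord`; `2 y1 ≠ 0` as `2 P ≠ 0`, `dbl_eq_zero`). So
`(2 y1)^2 x3 = (3 x1^2 + a)^2 - 8 x1 y1^2`, and after clearing denominators
`(2 Y1 W1)^2 X3 = N W3^2`, `N = (3 X1^2 + a W1^4)^2 - 8 X1 Y1^2`. No prime divides
`(2 Y1 W1)^2` and `N`: if `π ∣ Y1` then `π ∣ 3 X1^2 + a W1^4`, against `Nar`; if `π ∣ W1` then
from `Y1^2 = X1^3 + ..`, `Y1^2 ≡ X1^3`, `N ≡ 9 X1^4 - 8 X1^4 = X1^4`, so `π ∣ X1`, against `Low`. Use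
`assoc_of_prop` with `T = N`, `S = 0`, .. or directly. -/
theorem dbl_assoc [DecidableEq K] {φ : A →+* K} (hφ : IsFrac φ)
    (h2 : ∀ π : A, Prime π → ¬ π ∣ 2) {a b X1 Y1 W1 X3 Y3 W3 : A}
    {P : (scurve (φ a) (φ b)).Point} (r1 : Rep φ X1 Y1 W1 P)
    (r3 : Rep φ X3 Y3 W3 (P + P)) (l1 : Low X1 W1) (l3 : Low X3 W3) (n1 : Nar a X1 Y1 W1) :
    Associated ((2 * Y1 * W1) ^ 2) (W3 ^ 2) := by
  have eq1 := Rep.eqn hφ r1
  obtain ⟨w1, k1, p1⟩ := r1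
  obtain ⟨w3, k3, p3⟩ := r3
  have v1 := para2_ne hφ w1
  have v3 := para2_ne hφ w3
  have hy : 2 * (φ Y1 / φ W1 ^ 3) ≠ 0 := by
    intro h0
    have h5 := dbl_eq_zero k1 h0
    rw [← p1] at h5
    rw [h5] at p3
    exact Point.some_ne_zero k3 p3.symm
  obtain ⟨l, x3, y3, h3, e1, e2, e3, q3⟩ := dbl_coord k1 hy
  rw [p1, q3] at p3
  have f3 : x3 = φ X3 / φ W3 ^ 2 := by
    have q := p3
    simp only [Point.some.injEq] at q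
    exact q.1
  obtain ⟨x1, hx1⟩ : ∃ x1, x1 = φ X1 / φ W1 ^ 2 := ⟨_, rfl⟩
  obtain ⟨y1, hy1⟩ : ∃ y1, y1 = φ Y1 / φ W1 ^ 3 := ⟨_, rfl⟩
  rw [← hx1, ← hy1] at e1
  rw [← hx1] at e2
  rw [← hy1] at hy
  have g1 : φ X1 = x1 * φ W1 ^ 2 := by rw [hx1, div_mul_cancel₀ _ (pow_ne_zero 2 v1)]
  have g2 : φ Y1 = y1 * φ W1 ^ 3 := by rw [hy1, div_mul_cancel₀ _ (pow_ne_zero 3 v1)]
  have g3 : φ X3 = x3 * φ W3 ^ 2 := by rw [f3, div_mul_cancel₀ _ (pow_ne_zero 2 v3)]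
  have e4 : (2 * y1) ^ 2 * x3 = (3 * x1 ^ 2 + φ a) ^ 2 - 8 * x1 * y1 ^ 2 := by
    rw [e2, ← e1]
    ring
  have hD : (2 * Y1 * W1) ^ 2 ≠ 0 := by
    apply pow_ne_zero 2
    intro h0
    have h5 : φ (2 * Y1 * W1) = 0 := by rw [h0, map_zero]
    have h6 : (2 * y1) * φ W1 ^ 4 = 0 := by
      rw [← h5]
      simp only [map_mul, map_ofNat]
      rw [g2]
      ring
    rcases mul_eq_zero.mp h6 with h7 | h7
    · exact hy h7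
    · exact pow_ne_zero 4 v1 h7
  refine assoc_of_prop (S := (3 * X1 ^ 2 + a * W1 ^ 4) ^ 2 - 8 * X1 * Y1 ^ 2) (T := 0)
    (S' := X3) (T' := 0) hD (pow_ne_zero 2 w3) ?_ ?_ ?_ ?_
  · rintro π hπ ⟨c1, c2, -⟩
    rcases hπ.dvd_or_dvd (hπ.dvd_of_dvd_pow c1) with c3 | c3
    · rcases hπ.dvd_or_dvd c3 with c4 | c4
      · exact h2 π hπ c4
      · refine n1 π hπ ⟨c4, hπ.dvd_of_dvd_pow (n := 2) ?_⟩
        have c5 : π ∣ 8 * X1 * Y1 ^ 2 := Dvd.dvd.mul_left (c4.trans (dvd_pow_self _ two_ne_zero)) _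
        have c6 := dvd_add c2 c5
        rwa [sub_add_cancel] at c6
    · refine l1 π hπ ⟨hπ.dvd_of_dvd_pow (n := 4) ?_, c3⟩
      have c5 : π ∣ W1 * (W1 ^ 3 * (2 * a * X1 ^ 2 - a ^ 2 * W1 ^ 4 + 8 * b * X1 * W1 ^ 2)) :=
        Dvd.dvd.mul_right c3 _
      have c6 := dvd_add c2 c5
      have c7 : (3 * X1 ^ 2 + a * W1 ^ 4) ^ 2 - 8 * X1 * Y1 ^ 2 +
          W1 * (W1 ^ 3 * (2 * a * X1 ^ 2 - a ^ 2 * W1 ^ 4 + 8 * b * X1 * W1 ^ 2)) = X1 ^ 4 := by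
        rw [eq1]
        ring
      rwa [c7] at c6
  · rintro π hπ ⟨c1, c2, -⟩
    exact l3 π hπ ⟨c2, hπ.dvd_of_dvd_pow c1⟩
  · apply hφ.inj
    simp only [map_mul, map_sub, map_pow, map_add, map_ofNat]
    rw [g1, g2, g3]
    linear_combination (φ W1 ^ 8 * φ W3 ^ 2) * e4
  · rw [mul_zero, zero_mul]

/-- Uniqueness. PROOF. `φ X / φ W^2 = φ X' / φ W'^2`, so `X W'^2 = X' W^2`; `W^2 ∣ W'^2` because no
prime divides `X` and `W` (`assoc_of_prop`). -/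
theorem rep_unique {φ : A →+* K} (hφ : IsFrac φ) {a b X Y W X' Y' W' : A}
    {P : (scurve (φ a) (φ b)).Point} (r : Rep φ X Y W P) (r' : Rep φ X' Y' W' P)
    (l : Low X W) (l' : Low X' W') : Associated (W ^ 2) (W' ^ 2) := by
  obtain ⟨w, k, p⟩ := r
  obtain ⟨w', k', p'⟩ := r'
  have v := para2_ne hφ w
  have v' := para2_ne hφ w'
  rw [p] at p'
  have f : φ X / φ W ^ 2 = φ X' / φ W' ^ 2 := by
    have q := p'
    simp only [Point.some.injEq] at q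
    exact q.1
  rw [div_eq_div_iff (pow_ne_zero 2 v) (pow_ne_zero 2 v')] at f
  refine assoc_of_prop (S := X) (T := 0) (S' := X') (T' := 0) (pow_ne_zero 2 w)
    (pow_ne_zero 2 w') ?_ ?_ ?_ ?_
  · rintro π hπ ⟨c1, c2, -⟩
    exact l π hπ ⟨c2, hπ.dvd_of_dvd_pow c1⟩
  · rintro π hπ ⟨c1, c2, -⟩
    exact l' π hπ ⟨c2, hπ.dvd_of_dvd_pow c1⟩
  · apply hφ.inj
    simp only [map_mul, map_pow]
    linear_combination -f
  · rw [mul_zero, zero_mul]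

end Pool.Agent.Lib.MP_3550b5_nt.G
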