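import Mathlib
import Pool.Agent.Lib.MP_3550b5_nt.G.Hom2
import Pool.Agent.Lib.MP_3550b5_nt.G.NsIff
import Pool.Agent.Lib.MP_3550b5_nt.G.Para2
import Pool.Agent.Lib.MP_3550b5_nt.G.Closed

/-!
The narrow Mordell-Weil group and its height.
-/

namespace Pool.Agent.Lib.MP_3550b5_nt.G

open WeierstrassCurve.Affine MvPolynomial

variable {n : ℕ} {K : Type*} [Field K] [DecidableEq K] {φ : MvPolynomial (Fin n) ℚ →+* K}

/-- No prime divides the constant `2`. PROOF. `2 = C 2` is a unit. -/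
lemma not_dvd_two (π : MvPolynomial (Fin n) ℚ) (hπ : Prime π) : ¬ π ∣ 2 := by
  intro h
  apply hπ.not_isUnit
  have h2 : IsUnit (2 : MvPolynomial (Fin n) ℚ) := by
    have h3 : (2 : MvPolynomial (Fin n) ℚ) = C 2 := (map_ofNat C 2).symm
    rw [h3]
    exact (isUnit_iff_ne_zero.mpr (by norm_num : (2 : ℚ) ≠ 0)).map C
  exact isUnit_of_dvd_unit h h2

lemma not_dvd_three (π : MvPolynomial (Fin n) ℚ) (hπ : Prime π) : ¬ π ∣ 3 := by
  intro h
  apply hπ.not_isUnit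
  have h2 : IsUnit (3 : MvPolynomial (Fin n) ℚ) := by
    have h3 : (3 : MvPolynomial (Fin n) ℚ) = C 3 := (map_ofNat C 3).symm
    rw [h3]
    exact (isUnit_iff_ne_zero.mpr (by norm_num : (3 : ℚ) ≠ 0)).map C
  exact isUnit_of_dvd_unit h h2

omit [DecidableEq K] in
private lemma lam_rep_ne_zero {wt : Fin n → ℕ} {d : ℕ} {a b : MvPolynomial (Fin n) ℚ} {e : ℕ}
    {X Y W : MvPolynomial (Fin n) ℚ} {P : (scurve (φ a) (φ b)).Point}
    (h : HRep φ wt d e X Y W P) : P ≠ 0 := by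
  obtain ⟨-, hns, hP⟩ := h.rep
  rw [hP]
  exact Point.some_ne_zero hns

private lemma lam_rep_neg {wt : Fin n → ℕ} {d : ℕ} {a b : MvPolynomial (Fin n) ℚ}
    {P : (scurve (φ a) (φ b)).Point}
    (hP : P = 0 ∨ ∃ (e : ℕ) (X Y W : MvPolynomial (Fin n) ℚ), HRep φ wt d e X Y W P) :
    -P = 0 ∨ ∃ (e : ℕ) (X Y W : MvPolynomial (Fin n) ℚ), HRep φ wt d e X Y W (-P) := by
  rcases hP with rfl | ⟨e, X, Y, W, h⟩
  · left; exact neg_zero
  · right; exact ⟨e, X, -Y, W, h.neg⟩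

private lemma lam_rep_add (hφ : IsFrac φ) {wt : Fin n → ℕ} {d : ℕ}
    {a b : MvPolynomial (Fin n) ℚ} (ha : a.IsWeightedHomogeneous wt (4 * d))
    {P Q : (scurve (φ a) (φ b)).Point}
    (hP : P = 0 ∨ ∃ (e : ℕ) (X Y W : MvPolynomial (Fin n) ℚ), HRep φ wt d e X Y W P)
    (hQ : Q = 0 ∨ ∃ (e : ℕ) (X Y W : MvPolynomial (Fin n) ℚ), HRep φ wt d e X Y W Q) :
    P + Q = 0 ∨ ∃ (e : ℕ) (X Y W : MvPolynomial (Fin n) ℚ), HRep φ wt d e X Y W (P + Q) := by
  by_cases h0 : P + Q = 0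
  · exact Or.inl h0
  right
  rcases hP with rfl | ⟨e, X, Y, W, h⟩
  · rcases hQ with rfl | hQ
    · exact absurd (add_zero _) h0
    · rw [zero_add]; exact hQ
  rcases hQ with rfl | ⟨e', X', Y', W', h'⟩
  · rw [add_zero]; exact ⟨e, X, Y, W, h⟩
  by_cases hne : P = Q
  · subst hne
    exact h.dbl hφ ha h0
  · exact HRep.add_ne hφ h h' hne (fun hh => h0 (by rw [hh, neg_add_cancel]))

/-- The narrow Mordell-Weil group: the points given by weighted homogeneous polynomials which are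
nonsingular at all primes. PROOF of the closure under addition: if `P = 0` or `Q = 0` or `P + Q = 0`
trivial; if `P = Q` use `HRep.dbl`; if `P = -Q` then `P + Q = 0`; otherwise `HRep.add_ne`; and
`DVal.NS_add`. Negation: `HRep.neg`, `DVal.NS_neg`. -/
noncomputable def Lam (hφ : IsFrac φ) (wt : Fin n → ℕ) (d : ℕ) {a b : MvPolynomial (Fin n) ℚ}
    (ha : a.IsWeightedHomogeneous wt (4 * d)) : AddSubgroup (scurve (φ a) (φ b)).Point where
  carrier := {P | (P = 0 ∨ ∃ (e : ℕ) (X Y W : MvPolynomial (Fin n) ℚ), HRep φ wt d e X Y W P) ∧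
    ∀ (π : MvPolynomial (Fin n) ℚ) (hπ : Prime π), (primeVal hφ hπ).NS P}
  add_mem' := by
    intro P Q hP hQ
    exact ⟨lam_rep_add hφ ha hP.1 hQ.1, fun π hπ => DVal.NS_add (hP.2 π hπ) (hQ.2 π hπ)⟩
  zero_mem' := ⟨Or.inl rfl, fun _ _ => DVal.NS_zero⟩
  neg_mem' := by
    intro P hP
    exact ⟨lam_rep_neg hP.1, fun π hπ => DVal.NS_neg.mpr (hP.2 π hπ)⟩

open Classical in
/-- The height of a nonzero narrow point, divided by two. -/
noncomputable def ht (φ : MvPolynomial (Fin n) ℚ →+* K) (wt : Fin n → ℕ) (d : ℕ)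
    {a b : MvPolynomial (Fin n) ℚ} (P : (scurve (φ a) (φ b)).Point) : ℤ :=
  if h : ∃ (e : ℕ) (X Y W : MvPolynomial (Fin n) ℚ), HRep φ wt d e X Y W P ∧ Low X W then
    (d : ℤ) + h.choose else 0

variable {wt : Fin n → ℕ} {d : ℕ} {a b : MvPolynomial (Fin n) ℚ}

/-- PROOF. The chosen `e'` has a representation `W'` in lowest terms, `W^2` and `W'^2` are
associated (`rep_unique`) and homogeneous of degrees `2 e`, `2 e'`; `hom_of_assoc`. -/
lemma ht_eq (hφ : IsFrac φ) {e : ℕ} {X Y W : MvPolynomial (Fin n) ℚ}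
    {P : (scurve (φ a) (φ b)).Point} (h : HRep φ wt d e X Y W P) (hl : Low X W) :
    ht φ wt d P = d + e := by
  have hex : ∃ (e : ℕ) (X Y W : MvPolynomial (Fin n) ℚ), HRep φ wt d e X Y W P ∧ Low X W :=
    ⟨e, X, Y, W, h, hl⟩
  unfold ht
  rw [dif_pos hex]
  obtain ⟨X', Y', W', h', hl'⟩ := hex.choose_spec
  have h1 := rep_unique hφ h.rep h'.rep hl hl'
  have h2 := hom_of_assoc h1 (h.homW.pow 2) (h'.homW.pow 2) (pow_ne_zero 2 h.rep.1)
  simp only [smul_eq_mul] at h2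
  have h3 : hex.choose = e := by omega
  rw [h3]

/-- PROOF. `Rep` implies `P ≠ 0`. -/
lemma ht_zero : ht φ wt d (0 : (scurve (φ a) (φ b)).Point) = 0 := by
  unfold ht
  rw [dif_neg]
  rintro ⟨e, X, Y, W, h, -⟩
  exact lam_rep_ne_zero h rfl

/-- PROOF. `HRep.neg`: `(X, -Y, W)` is in lowest terms if `(X, Y, W)` is; `ht_eq`, `HRep.reduce`
(and `ht_zero` if `P = 0`). -/
lemma ht_neg (hφ : IsFrac φ) {P : (scurve (φ a) (φ b)).Point}
    (hP : P = 0 ∨ ∃ (e : ℕ) (X Y W : MvPolynomial (Fin n) ℚ), HRep φ wt d e X Y W P) :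
    ht φ wt d (-P) = ht φ wt d P := by
  rcases hP with rfl | ⟨e, X, Y, W, h⟩
  · rw [neg_zero]
  · obtain ⟨e', X', Y', W', h', hl'⟩ := h.reduce hφ
    rw [ht_eq hφ h' hl', ht_eq hφ h'.neg hl']

/-- PROOF. `HRep.reduce`, `ht_eq`, `1 ≤ d`. -/
lemma ht_pos (hφ : IsFrac φ) (hd : 1 ≤ d) (ha : a.IsWeightedHomogeneous wt (4 * d))
    {P : (scurve (φ a) (φ b)).Point} (hP : P ∈ Lam hφ wt d (b := b) ha) (h0 : P ≠ 0) :
    0 < ht φ wt d P := by
  rcases hP.1 with h | ⟨e, X, Y, W, h⟩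
  · exact absurd h h0
  · obtain ⟨e', X', Y', W', h', hl'⟩ := h.reduce hφ
    rw [ht_eq hφ h' hl']
    omega

end Pool.Agent.Lib.MP_3550b5_nt.G
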