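import Mathlib
import Pool.Agent.Lib.MP_3550b5_nt.SDefs
import Pool.Agent.Lib.MP_3550b5_nt.G.Lam

/-!
From rational to integral polynomials.
-/

namespace Pool.Agent.Lib.MP_3550b5_nt.G

open WeierstrassCurve.Affine MvPolynomial

/-- The field of rational functions in `n` variables. -/
abbrev RF (n : ℕ) : Type := FractionRing (MvPolynomial (Fin n) ℤ)

instance (n : ℕ) : CharZero (RF n) := by
  have : Function.Injective (algebraMap (MvPolynomial (Fin n) ℤ) (RF n)) :=
    IsFractionRing.injective _ _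
  exact charZero_of_injective_algebraMap this

/-- Polynomials over the rationals as rational functions. -/
noncomputable def toK (n : ℕ) : MvPolynomial (Fin n) ℚ →+* RF n :=
  eval₂Hom (algebraMap ℚ (RF n)) (fun i => algebraMap (MvPolynomial (Fin n) ℤ) (RF n) (X i))

/-- PROOF. Induction on `F` (`MvPolynomial.induction_on`) or `MvPolynomial.ringHom_ext`: both sides
are ring homomorphisms in `F` which agree on `C c` and `X i`. -/
lemma toK_map {n : ℕ} (F : MvPolynomial (Fin n) ℤ) :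
    toK n (F.map (Int.castRingHom ℚ)) = algebraMap (MvPolynomial (Fin n) ℤ) (RF n) F := by
  have h : (toK n).comp (MvPolynomial.map (Int.castRingHom ℚ)) =
      algebraMap (MvPolynomial (Fin n) ℤ) (RF n) := by
    refine MvPolynomial.ringHom_ext (fun r => ?_) (fun i => ?_)
    · rw [RingHom.comp_apply, MvPolynomial.map_C, toK, coe_eval₂Hom, eval₂_C, eq_intCast,
        map_intCast, eq_intCast (C : ℤ →+* MvPolynomial (Fin n) ℤ) r, map_intCast]
    · rw [RingHom.comp_apply, MvPolynomial.map_X, toK, coe_eval₂Hom, eval₂_X]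
  exact RingHom.congr_fun h F

/-- Clearing denominators. PROOF. Induction on `F`, or: `c` = the product of the denominators of the
coefficients of `F`, `F₀ = ∑ m ∈ F.support, monomial m ((c * coeff m F).num)`. -/
lemma exists_int {n : ℕ} (F : MvPolynomial (Fin n) ℚ) :
    ∃ (c : ℤ) (F₀ : MvPolynomial (Fin n) ℤ), c ≠ 0 ∧ F₀.map (Int.castRingHom ℚ) = C (c : ℚ) * F := by
  induction F using MvPolynomial.induction_on with
  | C a =>
    refine ⟨(a.den : ℤ), C a.num, by exact_mod_cast a.den_ne_zero, ?_⟩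
    rw [MvPolynomial.map_C, ← C_mul]
    congr 1
    have h := Rat.mul_den_eq_num a
    rw [eq_intCast, ← h, mul_comm]
    push_cast
    ring
  | add p q hp hq =>
    obtain ⟨c, F₀, hc, hF⟩ := hp
    obtain ⟨c', G₀, hc', hG⟩ := hq
    refine ⟨c * c', C c' * F₀ + C c * G₀, mul_ne_zero hc hc', ?_⟩
    rw [map_add, map_mul, map_mul, hF, hG, MvPolynomial.map_C, MvPolynomial.map_C, eq_intCast,
      eq_intCast]
    push_cast
    rw [C_mul]
    ring
  | mul_X p i hp =>
    obtain ⟨c, F₀, hc, hF⟩ := hp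
    refine ⟨c, F₀ * X i, hc, ?_⟩
    rw [map_mul, hF, MvPolynomial.map_X]
    ring

private lemma map_inj' {n : ℕ} : Function.Injective
    (MvPolynomial.map (σ := Fin n) (Int.castRingHom ℚ)) :=
  MvPolynomial.map_injective _ (Int.cast_injective)

private lemma C_ne' {n : ℕ} {c : ℤ} (hc : c ≠ 0) : (C (c : ℚ) : MvPolynomial (Fin n) ℚ) ≠ 0 := by
  intro h
  apply hc
  rw [← C_0 (σ := Fin n)] at h
  exact_mod_cast C_injective _ _ h

/-- PROOF. Injective: if `toK F = 0`, `C c * F = F₀.map _` (`exists_int`), so `algebraMap F₀ = 0`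
(`toK_map`), `F₀ = 0`, `C c * F = 0`, `F = 0`. Fractions: every element of `RF n` is
`algebraMap f / algebraMap g` (`IsFractionRing.div_surjective`) and `toK_map`. -/
lemma isFrac_toK (n : ℕ) : IsFrac (toK n) := by
  refine ⟨?_, fun x => ?_⟩
  · rw [injective_iff_map_eq_zero]
    intro F hF
    obtain ⟨c, F₀, hc, h⟩ := exists_int F
    have h1 : algebraMap (MvPolynomial (Fin n) ℤ) (RF n) F₀ = 0 := by
      rw [← toK_map, h, map_mul, hF, mul_zero]
    have h2 : F₀ = 0 := (IsFractionRing.injective (MvPolynomial (Fin n) ℤ) (RF n))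
      (by rw [h1, map_zero])
    rw [h2, map_zero] at h
    exact (mul_eq_zero.1 h.symm).resolve_left (C_ne' hc)
  · obtain ⟨f, g, hg, h⟩ := IsFractionRing.div_surjective (A := MvPolynomial (Fin n) ℤ) x
    refine ⟨f.map (Int.castRingHom ℚ), g.map (Int.castRingHom ℚ), ?_, ?_⟩
    · intro h0
      exact nonZeroDivisors.ne_zero hg (map_inj' (by rw [h0, map_zero]))
    · rw [toK_map, toK_map, h]

/-- The point `P` over the field of rational functions is `(X / W^2, Y / W^3)` with integral weighted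
homogeneous `X`, `Y`, `W` of degrees `2 (d + e)`, `3 (d + e)`, `e`. -/
structure IRep {n : ℕ} (wt : Fin n → ℕ) (d : ℕ) {α β : RF n} (e : ℕ)
    (X Y W : MvPolynomial (Fin n) ℤ) (P : (scurve α β).Point) : Prop where
  homX : X.IsWeightedHomogeneous wt (2 * (d + e))
  homY : Y.IsWeightedHomogeneous wt (3 * (d + e))
  homW : W.IsWeightedHomogeneous wt e
  W_ne : W ≠ 0
  point : ∃ h : (scurve α β).Nonsingular
    (algebraMap (MvPolynomial (Fin n) ℤ) (RF n) X / algebraMap _ (RF n) W ^ 2)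
    (algebraMap (MvPolynomial (Fin n) ℤ) (RF n) Y / algebraMap _ (RF n) W ^ 3),
    P = Point.some _ _ h

/-- `2 Y` and `3 X^2 + a W^4` are relatively prime over the rationals. -/
def NarZ {n : ℕ} (a X Y W : MvPolynomial (Fin n) ℤ) : Prop :=
  ∀ D : MvPolynomial (Fin n) ℚ, D ∣ (2 * Y).map (Int.castRingHom ℚ) →
    D ∣ (3 * X ^ 2 + a * W ^ 4).map (Int.castRingHom ℚ) → IsUnit D

variable {n : ℕ} {wt : Fin n → ℕ} {d : ℕ} {a b : MvPolynomial (Fin n) ℤ}

private lemma wh_map {F : MvPolynomial (Fin n) ℤ} {m : ℕ} (h : F.IsWeightedHomogeneous wt m) :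
    (F.map (Int.castRingHom ℚ)).IsWeightedHomogeneous wt m := by
  intro k hk
  apply h
  intro h0
  rw [coeff_map, h0, map_zero] at hk
  exact hk rfl

private lemma wh_of_map {F : MvPolynomial (Fin n) ℤ} {m : ℕ}
    (h : (F.map (Int.castRingHom ℚ)).IsWeightedHomogeneous wt m) :
    F.IsWeightedHomogeneous wt m := by
  intro k hk
  apply h
  rw [coeff_map, eq_intCast]
  exact_mod_cast hk

private lemma rep_of' {K : Type*} [Field K] {φ : MvPolynomial (Fin n) ℚ →+* K}
    {a b X Y W : MvPolynomial (Fin n) ℚ} {P : (scurve (φ a) (φ b)).Point}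
    (hW : W ≠ 0) {x y : K} (hns : (scurve (φ a) (φ b)).Nonsingular x y)
    (hP : P = Point.some x y hns) (ex : φ X / φ W ^ 2 = x) (ey : φ Y / φ W ^ 3 = y) :
    Rep φ X Y W P := by
  subst ex ey
  exact ⟨hW, hns, hP⟩

private lemma point_of {α β x y x' y' : RF n} {P : (scurve α β).Point}
    (hns : (scurve α β).Nonsingular x y) (hP : P = Point.some x y hns) (ex : x' = x)
    (ey : y' = y) : ∃ h : (scurve α β).Nonsingular x' y', P = Point.some _ _ h := by
  subst ex ey
  exact ⟨hns, hP⟩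

/-- PROOF. `toK_map`; weighted homogeneity is preserved by `map` (coefficients). -/
lemma IRep.hrep {e : ℕ} {X Y W : MvPolynomial (Fin n) ℤ}
    {P : (scurve (toK n (a.map (Int.castRingHom ℚ))) (toK n (b.map (Int.castRingHom ℚ)))).Point}
    (h : IRep wt d e X Y W P) :
    HRep (toK n) wt d e (X.map (Int.castRingHom ℚ)) (Y.map (Int.castRingHom ℚ))
      (W.map (Int.castRingHom ℚ)) P := by
  obtain ⟨hns, hP⟩ := h.point
  refine ⟨wh_map h.homX, wh_map h.homY, wh_map h.homW, ?_⟩
  refine rep_of' (fun h0 => h.W_ne (map_inj' (by rw [h0, map_zero]))) hns hP ?_ ?_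
  · rw [toK_map, toK_map]
  · rw [toK_map, toK_map]

/-- Integral representation of a narrow point. PROOF. Let `c ≠ 0` be an integer and `X₀`, `Y₀`, `W₀`
integral with `X₀ = c X'`, `Y₀ = c Y'`, `W₀ = c W'` over `ℚ` (`exists_int` three times, common
multiple). Take `X = c X₀`, `Y = c^2 Y₀`, `W = W₀`: over `ℚ`, `X = c^2 X'`, `Y = c^3 Y'`,
`W = c W'`. Homogeneity: coefficients over `ℚ` (`Int.cast_injective`). `NarZ`: let `D` divide
`2 c^3 Y'` and `c^4 (3 X'^2 + a W'^4)`; constants are units, so `D ∣ Y'` and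
`D ∣ 3 X'^2 + a W'^4`. `D ≠ 0`, as the two are not both `0` (the point is nonsingular,
`nonsing_iff`). If `D` were not a unit, a prime `π ∣ D` (`UniqueFactorizationMonoid`,
`WfDvdMonoid.exists_irreducible_factor`) would contradict `ns_iff`. -/
lemma exists_irep {e : ℕ} {X' Y' W' : MvPolynomial (Fin n) ℚ}
    {P : (scurve (toK n (a.map (Int.castRingHom ℚ))) (toK n (b.map (Int.castRingHom ℚ)))).Point}
    (h : HRep (toK n) wt d e X' Y' W' P) (hl : Low X' W')
    (hns : ∀ (π : MvPolynomial (Fin n) ℚ) (hπ : Prime π), (primeVal (isFrac_toK n) hπ).NS P) :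
    ∃ X Y W : MvPolynomial (Fin n) ℤ, IRep wt d e X Y W P ∧ NarZ a X Y W := by
  obtain ⟨c1, X1, hc1, e1⟩ := exists_int X'
  obtain ⟨c2, Y1, hc2, e2⟩ := exists_int Y'
  obtain ⟨c3, W1, hc3, e3⟩ := exists_int W'
  obtain ⟨c, hc, X₀, Y₀, W₀, eX, eY, eW⟩ : ∃ c : ℤ, c ≠ 0 ∧ ∃ X₀ Y₀ W₀ : MvPolynomial (Fin n) ℤ,
      X₀.map (Int.castRingHom ℚ) = C (c : ℚ) * X' ∧
      Y₀.map (Int.castRingHom ℚ) = C (c : ℚ) * Y' ∧
      W₀.map (Int.castRingHom ℚ) = C (c : ℚ) * W' := by
    refine ⟨c1 * c2 * c3, mul_ne_zero (mul_ne_zero hc1 hc2) hc3, C (c2 * c3) * X1,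
      C (c1 * c3) * Y1, C (c1 * c2) * W1, ?_, ?_, ?_⟩
    · rw [map_mul, e1, MvPolynomial.map_C, eq_intCast]
      push_cast
      simp only [C_mul]
      ring
    · rw [map_mul, e2, MvPolynomial.map_C, eq_intCast]
      push_cast
      simp only [C_mul]
      ring
    · rw [map_mul, e3, MvPolynomial.map_C, eq_intCast]
      push_cast
      simp only [C_mul]
      ring
  have hC : (C (c : ℚ) : MvPolynomial (Fin n) ℚ) ≠ 0 := C_ne' hc
  have hCu : IsUnit (C (c : ℚ) : MvPolynomial (Fin n) ℚ) := by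
    have : IsUnit (c : ℚ) := isUnit_iff_ne_zero.2 (by exact_mod_cast hc)
    exact this.map C
  have mX : (C c * X₀).map (Int.castRingHom ℚ) = C (c : ℚ) ^ 2 * X' := by
    rw [map_mul, eX, MvPolynomial.map_C, eq_intCast]
    ring
  have mY : (C c ^ 2 * Y₀).map (Int.castRingHom ℚ) = C (c : ℚ) ^ 3 * Y' := by
    rw [map_mul, map_pow, eY, MvPolynomial.map_C, eq_intCast]
    ring
  have hCpow : ∀ k : ℕ, ((C (c : ℚ) : MvPolynomial (Fin n) ℚ) ^ k).IsWeightedHomogeneous wt 0 := by
    intro k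
    rw [← C_pow]
    exact isWeightedHomogeneous_C wt _
  have hφC : toK n (C (c : ℚ)) ≠ 0 := fun h0 =>
    hC ((isFrac_toK n).inj (by rw [h0, map_zero]))
  obtain ⟨hW', hns', hP⟩ := h.rep
  have hφW : toK n W' ≠ 0 := fun h0 => hW' ((isFrac_toK n).inj (by rw [h0, map_zero]))
  refine ⟨C c * X₀, C c ^ 2 * Y₀, W₀, ⟨?_, ?_, ?_, ?_, ?_⟩, ?_⟩
  · apply wh_of_map
    rw [mX]
    have := (hCpow 2).mul h.homX
    rwa [zero_add] at this
  · apply wh_of_map
    rw [mY]
    have := (hCpow 3).mul h.homY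
    rwa [zero_add] at this
  · apply wh_of_map
    rw [eW]
    have := (hCpow 1).mul h.homW
    rwa [zero_add, pow_one] at this
  · intro h0
    rw [h0, map_zero] at eW
    exact mul_ne_zero hC hW' eW.symm
  · refine point_of hns' hP ?_ ?_
    · rw [← toK_map, ← toK_map, mX, eW, map_mul, map_mul, map_pow]
      field_simp
    · rw [← toK_map, ← toK_map, mY, eW, map_mul, map_mul, map_pow]
      field_simp
  · intro D hD1 hD2
    have h2 : IsUnit (2 : MvPolynomial (Fin n) ℚ) := by
      have : IsUnit (2 : ℚ) := isUnit_iff_ne_zero.2 two_ne_zero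
      have h3 := this.map (C : ℚ →+* MvPolynomial (Fin n) ℚ)
      rwa [map_ofNat] at h3
    have k1 : D ∣ Y' := by
      rw [map_mul, mY, map_ofNat] at hD1
      rw [← mul_assoc] at hD1
      exact ((h2.mul (hCu.pow 3)).dvd_mul_left).1 hD1
    have k2 : D ∣ 3 * X' ^ 2 + a.map (Int.castRingHom ℚ) * W' ^ 4 := by
      have e : (3 * (C c * X₀) ^ 2 + a * W₀ ^ 4).map (Int.castRingHom ℚ) =
          C (c : ℚ) ^ 4 * (3 * X' ^ 2 + a.map (Int.castRingHom ℚ) * W' ^ 4) := by
        rw [map_add, map_mul, map_mul, map_pow, map_pow, mX, eW, map_ofNat]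
        ring
      rw [e] at hD2
      exact ((hCu.pow 4).dvd_mul_left).1 hD2
    by_contra hnu
    have hD0 : D ≠ 0 := by
      intro h0
      subst h0
      rw [zero_dvd_iff] at k1 k2
      have k3 := nonsing_iff.1 hns'
      rcases k3.2 with k4 | k4
      · exact k4 (by rw [k1, map_zero, zero_div, mul_zero])
      · apply k4
        have k5 : toK n (3 * X' ^ 2 + a.map (Int.castRingHom ℚ) * W' ^ 4) = 0 := by
          rw [k2, map_zero]
        rw [map_add, map_mul, map_mul, map_pow, map_pow, map_ofNat] at k5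
        field_simp
        linear_combination k5
    obtain ⟨π, hπ, hd⟩ := WfDvdMonoid.exists_irreducible_factor hnu hD0
    have hπ' : Prime π := UniqueFactorizationMonoid.irreducible_iff_prime.1 hπ
    exact (ns_iff (isFrac_toK n) hπ' (not_dvd_three π hπ') h.rep hl).1 (hns π hπ')
      ⟨hd.trans k1, hd.trans k2⟩

end Pool.Agent.Lib.MP_3550b5_nt.G
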