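import Mathlib
import Pool.Agent.Lib.MP_3550b5_nt.G.Lam

/-!
The parallelogram law for the height of narrow points.
-/

namespace Pool.Agent.Lib.MP_3550b5_nt.G

open WeierstrassCurve.Affine MvPolynomial

variable {n : ℕ} {K : Type*} [Field K] [DecidableEq K] {φ : MvPolynomial (Fin n) ℚ →+* K}
  {wt : Fin n → ℕ} {d : ℕ} {a b : MvPolynomial (Fin n) ℚ}

private lemma nar_of_lam (hφ : IsFrac φ) (ha : a.IsWeightedHomogeneous wt (4 * d))
    {P : (scurve (φ a) (φ b)).Point} (hP : P ∈ Lam hφ wt d (b := b) ha)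
    {X Y W : MvPolynomial (Fin n) ℚ} (r : Rep φ X Y W P) (hl : Low X W) : Nar a X Y W := by
  intro π hπ
  exact (ns_iff hφ hπ (not_dvd_three π hπ) r hl).1 (hP.2 π hπ)

private lemma low_rep (hφ : IsFrac φ) (ha : a.IsWeightedHomogeneous wt (4 * d))
    {P : (scurve (φ a) (φ b)).Point} (hP : P ∈ Lam hφ wt d (b := b) ha) (h0 : P ≠ 0) :
    ∃ (e : ℕ) (X Y W : MvPolynomial (Fin n) ℚ), HRep φ wt d e X Y W P ∧ Low X W ∧
      Nar a X Y W := by
  rcases hP.1 with h | ⟨e, X, Y, W, h⟩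
  · exact absurd h h0
  · obtain ⟨e', X', Y', W', h', hl'⟩ := h.reduce hφ
    exact ⟨e', X', Y', W', h', hl', nar_of_lam hφ ha hP h'.rep hl'⟩

/-- A narrow point is not of order two. PROOF. Let `(X, Y, W)` be a representation of degree `e` in
lowest terms. If `P + P = 0` then `Y = 0` (`dbl_coord` gives `P + P ≠ 0` if `2 y ≠ 0`). By `ns_iff`
no prime divides `B = 3 X^2 + a W^4`. `B ≠ 0` as the point is nonsingular (`nonsing_iff`). So `B` is
a unit, so a constant `C c`, `c ≠ 0`, homogeneous of degree `0` and of degree `4 (d + e) > 0`: a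
contradiction (`IsWeightedHomogeneous.inj_right`). -/
lemma dbl_ne_zero (hφ : IsFrac φ) (hd : 1 ≤ d) (ha : a.IsWeightedHomogeneous wt (4 * d))
    {P : (scurve (φ a) (φ b)).Point} (hP : P ∈ Lam hφ wt d (b := b) ha) (h0 : P ≠ 0) :
    P + P ≠ 0 := by
  intro hPP
  obtain ⟨e, X, Y, W, h, hl, hn⟩ := low_rep hφ ha hP h0
  obtain ⟨hX, hY, hW, hW0, hns, hPe⟩ := h
  have w : φ W ≠ 0 := fun h0 => hW0 (hφ.inj (by rw [h0, map_zero]))
  have hy : 2 * (φ Y / φ W ^ 3) = 0 := by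
    by_contra hy
    obtain ⟨l, x3, y3, h3, -, -, -, e4⟩ := dbl_coord hns hy
    rw [hPe, e4] at hPP
    exact Point.some_ne_zero h3 hPP
  have h2 : (2 : K) ≠ 0 := by
    intro h2
    have h3 : φ (2 : MvPolynomial (Fin n) ℚ) = φ 0 := by
      rw [map_ofNat, h2, map_zero]
    have h4 := hφ.inj h3
    have h5 : (C (2 : ℚ) : MvPolynomial (Fin n) ℚ) = C 0 := by
      rw [map_ofNat, h4, map_zero]
    have h6 := C_injective (Fin n) ℚ h5
    norm_num at h6
  have hY0 : Y = 0 := by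
    rcases mul_eq_zero.mp hy with h5 | h5
    · exact absurd h5 h2
    · rcases div_eq_zero_iff.mp h5 with h6 | h6
      · exact hφ.inj (by rw [h6, map_zero])
      · exact absurd h6 (pow_ne_zero 3 w)
  have hB0 : 3 * X ^ 2 + a * W ^ 4 ≠ 0 := by
    intro hB
    rcases (nonsing_iff.1 hns).2 with h5 | h5
    · exact h5 hy
    · apply h5
      have h6 : φ (3 * X ^ 2 + a * W ^ 4) = 0 := by rw [hB, map_zero]
      simp only [map_add, map_mul, map_pow, map_ofNat] at h6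
      have h7 : (3 * (φ X / φ W ^ 2) ^ 2 + φ a) * φ W ^ 4 = 0 := by
        rw [← h6]
        field_simp
      rcases mul_eq_zero.mp h7 with h8 | h8
      · exact h8
      · exact absurd h8 (pow_ne_zero 4 w)
  have hBu : IsUnit (3 * X ^ 2 + a * W ^ 4) := by
    by_contra hnu
    obtain ⟨π, hπ, hdv⟩ := WfDvdMonoid.exists_irreducible_factor hnu hB0
    exact hn π (UniqueFactorizationMonoid.irreducible_iff_prime.1 hπ)
      ⟨by rw [hY0]; exact dvd_zero _, hdv⟩
  have hBh : (3 * X ^ 2 + a * W ^ 4).IsWeightedHomogeneous wt (4 * (d + e)) := by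
    have h3 : (3 : MvPolynomial (Fin n) ℚ).IsWeightedHomogeneous wt 0 := by
      have h := isWeightedHomogeneous_C wt (3 : ℚ)
      rwa [map_ofNat] at h
    have h5 : (3 * X ^ 2).IsWeightedHomogeneous wt (4 * (d + e)) := by
      have h6 := h3.mul (hX.pow 2)
      rw [smul_eq_mul] at h6
      have h7 : 0 + 2 * (2 * (d + e)) = 4 * (d + e) := by ring
      rwa [h7] at h6
    have h6 : (a * W ^ 4).IsWeightedHomogeneous wt (4 * (d + e)) := by
      have h6 := ha.mul (hW.pow 4)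
      rw [smul_eq_mul] at h6
      have h7 : 4 * d + 4 * e = 4 * (d + e) := by ring
      rwa [h7] at h6
    exact h5.add h6
  have h1h : (1 : MvPolynomial (Fin n) ℚ).IsWeightedHomogeneous wt 0 := isWeightedHomogeneous_one ℚ wt
  have := hom_of_assoc (associated_one_iff_isUnit.2 hBu) hBh h1h hB0
  omega

private lemma ht_two (hφ : IsFrac φ) (hd : 1 ≤ d) (ha : a.IsWeightedHomogeneous wt (4 * d))
    {P : (scurve (φ a) (φ b)).Point} (hP : P ∈ Lam hφ wt d (b := b) ha) (h0 : P ≠ 0) :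
    ht φ wt d (P + P) = 4 * ht φ wt d P := by
  obtain ⟨e, X, Y, W, h, hl, hn⟩ := low_rep hφ ha hP h0
  have hP2 := (Lam hφ wt d (b := b) ha).add_mem hP hP
  have h02 := dbl_ne_zero hφ hd ha hP h0
  obtain ⟨e', X', Y', W', h', hl', hn'⟩ := low_rep hφ ha hP2 h02
  have has := dbl_assoc hφ not_dvd_two h.rep h'.rep hl hl' hn
  rw [ht_eq hφ h hl, ht_eq hφ h' hl']
  have hh2 : (2 : MvPolynomial (Fin n) ℚ).IsWeightedHomogeneous wt 0 := by
    have h := isWeightedHomogeneous_C wt (2 : ℚ)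
    rwa [map_ofNat] at h
  have hhL : ((2 * Y * W) ^ 2).IsWeightedHomogeneous wt (2 * (0 + 3 * (d + e) + e)) := by
    have := ((hh2.mul h.homY).mul h.homW).pow 2
    rwa [smul_eq_mul] at this
  have hhR : (W' ^ 2).IsWeightedHomogeneous wt (2 * e') := by
    have := h'.homW.pow 2
    rwa [smul_eq_mul] at this
  have hne : (2 * Y * W) ^ 2 ≠ 0 := by
    intro h5
    rw [h5] at has
    have h6 := (has.eq_zero_iff).1 rfl
    exact pow_ne_zero 2 h'.rep.1 h6
  have := hom_of_assoc has hhL hhR hne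
  omega

/-- The parallelogram law. PROOF. If `P = 0` or `Q = 0`: `ht_neg`, `ht_zero`. If `P = Q`:
`ht (P + P) = 4 ht P` because `(2 Y W)^2` and `W3^2` are associated (`dbl_assoc`; `P + P ≠ 0` by
`dbl_ne_zero`), homogeneous of degrees `2 (3 (d + e) + e)` and `2 e3` (`hom_of_assoc`). If `P = -Q`:
the same for `Q` (`P - Q = -(Q + Q)`, `ht_neg`). Otherwise `P ± Q ≠ 0` are in `Lam`, take
representations in lowest terms of the four points (`HRep.reduce`); by `para_assoc` and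
`hom_of_assoc`, `2 * (2 (d + e1) + 2 e2) = 2 (e3 + e4)`. (`Nar` follows from `ns_iff`.) -/
theorem ht_par (hφ : IsFrac φ) (hd : 1 ≤ d) (ha : a.IsWeightedHomogeneous wt (4 * d))
    {P Q : (scurve (φ a) (φ b)).Point} (hP : P ∈ Lam hφ wt d (b := b) ha)
    (hQ : Q ∈ Lam hφ wt d (b := b) ha) :
    ht φ wt d (P + Q) + ht φ wt d (P - Q) = 2 * ht φ wt d P + 2 * ht φ wt d Q := by
  by_cases hP0 : P = 0
  · rw [hP0, zero_add, zero_sub, ht_neg hφ hQ.1, ht_zero]
    ring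
  by_cases hQ0 : Q = 0
  · rw [hQ0, add_zero, sub_zero, ht_zero]
    ring
  by_cases hPQ : P = Q
  · subst hPQ
    rw [sub_self, ht_zero, ht_two hφ hd ha hP hP0]
    ring
  by_cases hPQ' : P = -Q
  · subst hPQ'
    have h1 : -Q - Q = -(Q + Q) := by abel
    have hQ2 := (Lam hφ wt d (b := b) ha).add_mem hQ hQ
    rw [neg_add_cancel, ht_zero, h1, ht_neg hφ hQ2.1, ht_neg hφ hQ.1, ht_two hφ hd ha hQ hQ0]
    ring
  have hs0 : P + Q ≠ 0 := fun h => hPQ' (eq_neg_of_add_eq_zero_left h)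
  have hm0 : P - Q ≠ 0 := sub_ne_zero.mpr hPQ
  have hs := (Lam hφ wt d (b := b) ha).add_mem hP hQ
  have hm := (Lam hφ wt d (b := b) ha).sub_mem hP hQ
  obtain ⟨e1, X1, Y1, W1, h1, l1, n1⟩ := low_rep hφ ha hP hP0
  obtain ⟨e2, X2, Y2, W2, h2, l2, n2⟩ := low_rep hφ ha hQ hQ0
  obtain ⟨e3, X3, Y3, W3, h3, l3, n3⟩ := low_rep hφ ha hs hs0
  obtain ⟨e4, X4, Y4, W4, h4, l4, n4⟩ := low_rep hφ ha hm hm0
  have has := para_assoc hφ not_dvd_two h1.rep h2.rep h3.rep h4.rep l1 l2 l3 l4 n1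
  rw [ht_eq hφ h1 l1, ht_eq hφ h2 l2, ht_eq hφ h3 l3, ht_eq hφ h4 l4]
  have ha1 : (X1 * W2 ^ 2).IsWeightedHomogeneous wt (2 * (d + e1 + e2)) := by
    have h6 := h1.homX.mul (h2.homW.pow 2)
    rw [smul_eq_mul] at h6
    have h7 : 2 * (d + e1) + 2 * e2 = 2 * (d + e1 + e2) := by ring
    rwa [h7] at h6
  have ha2 : (X2 * W1 ^ 2).IsWeightedHomogeneous wt (2 * (d + e1 + e2)) := by
    have h6 := h2.homX.mul (h1.homW.pow 2)
    rw [smul_eq_mul] at h6
    have h7 : 2 * (d + e2) + 2 * e1 = 2 * (d + e1 + e2) := by ring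
    rwa [h7] at h6
  have hU : (X1 * W2 ^ 2 - X2 * W1 ^ 2).IsWeightedHomogeneous wt (2 * (d + e1 + e2)) :=
    (weightedHomogeneousSubmodule ℚ wt _).sub_mem ha1 ha2
  have hhL : ((X1 * W2 ^ 2 - X2 * W1 ^ 2) ^ 2).IsWeightedHomogeneous wt
      (2 * (2 * (d + e1 + e2))) := by
    have := hU.pow 2
    rwa [smul_eq_mul] at this
  have hhR : ((W3 * W4) ^ 2).IsWeightedHomogeneous wt (2 * (e3 + e4)) := by
    have := (h3.homW.mul h4.homW).pow 2
    rwa [smul_eq_mul] at this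
  have hne : (X1 * W2 ^ 2 - X2 * W1 ^ 2) ^ 2 ≠ 0 := by
    intro h5
    rw [h5] at has
    have h6 := (has.eq_zero_iff).1 rfl
    exact pow_ne_zero 2 (mul_ne_zero h3.rep.1 h4.rep.1) h6
  have := hom_of_assoc has hhL hhR hne
  omega

end Pool.Agent.Lib.MP_3550b5_nt.G
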