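import Mathlib
import Pool.Agent.Lib.MP_3550b5_nt.G.Forms
import Pool.Agent.Lib.MP_3550b5_nt.G.Lam2
import Pool.Agent.Lib.MP_3550b5_nt.G.Index
import Pool.Agent.Lib.MP_3550b5_nt.G.Quad

/-!
Multiples of independent points are narrow, with nondegenerate height matrix.
-/

namespace Pool.Agent.Lib.MP_3550b5_nt.G

open WeierstrassCurve.Affine MvPolynomial

variable {n : ℕ} {wt : Fin n → ℕ} {d : ℕ} {a b : MvPolynomial (Fin n) ℤ}

/-- The points which are `0` or given by weighted homogeneous polynomials are closed under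
addition. -/
private lemma narrow_hr_add {K : Type*} [Field K] [DecidableEq K]
    {φ : MvPolynomial (Fin n) ℚ →+* K} (hφ : IsFrac φ) {a' b' : MvPolynomial (Fin n) ℚ}
    (ha : a'.IsWeightedHomogeneous wt (4 * d)) {P Q : (scurve (φ a') (φ b')).Point}
    (hP : P = 0 ∨ ∃ (e : ℕ) (X Y W : MvPolynomial (Fin n) ℚ), HRep φ wt d e X Y W P)
    (hQ : Q = 0 ∨ ∃ (e : ℕ) (X Y W : MvPolynomial (Fin n) ℚ), HRep φ wt d e X Y W Q) :
    P + Q = 0 ∨ ∃ (e : ℕ) (X Y W : MvPolynomial (Fin n) ℚ), HRep φ wt d e X Y W (P + Q) := by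
  rcases hP with rfl | ⟨e1, X1, Y1, W1, h1⟩
  · rw [zero_add]
    exact hQ
  rcases hQ with rfl | ⟨e2, X2, Y2, W2, h2⟩
  · rw [add_zero]
    exact Or.inr ⟨e1, X1, Y1, W1, h1⟩
  by_cases h0 : P + Q = 0
  · exact Or.inl h0
  · right
    by_cases hPQ : P = Q
    · subst hPQ
      exact HRep.dbl hφ ha h1 h0
    · refine HRep.add_ne hφ h1 h2 hPQ ?_
      intro h
      apply h0
      rw [h, neg_add_cancel]

private lemma narrow_hr_nsmul {K : Type*} [Field K] [DecidableEq K]
    {φ : MvPolynomial (Fin n) ℚ →+* K} (hφ : IsFrac φ) {a' b' : MvPolynomial (Fin n) ℚ}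
    (ha : a'.IsWeightedHomogeneous wt (4 * d)) {P : (scurve (φ a') (φ b')).Point}
    (hP : P = 0 ∨ ∃ (e : ℕ) (X Y W : MvPolynomial (Fin n) ℚ), HRep φ wt d e X Y W P) (k : ℕ) :
    k • P = 0 ∨ ∃ (e : ℕ) (X Y W : MvPolynomial (Fin n) ℚ), HRep φ wt d e X Y W (k • P) := by
  induction k with
  | zero => exact Or.inl (zero_nsmul P)
  | succ k ih =>
    rw [succ_nsmul]
    exact narrow_hr_add hφ ha ih hP

private lemma narrow_map_hom {F : MvPolynomial (Fin n) ℤ} {k : ℕ}
    (h : F.IsWeightedHomogeneous wt k) :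
    (F.map (Int.castRingHom ℚ)).IsWeightedHomogeneous wt k := by
  intro s hs
  apply h
  intro h0
  apply hs
  rw [coeff_map, h0, map_zero]

/-- The statement over `scurve (toK ..) (toK ..)`.

PROOF. `φ = toK n`, `hφ = isFrac_toK n`. `a' = a.map _`, `b' = b.map _`. By `hmin`, no prime `π` has
`π^4 ∣ a'`, `π^6 ∣ b'` (a prime is not a unit). `exists_ns_family` (`not_dvd_two`,
`not_dvd_three`) gives `m`. With `IRep.hrep`, `m • P i ∈ Lam` (the set of points which are `0` or
have an `HRep` is closed under addition: `P i ∈` ...; the easiest way: `HRep` for `k • P i` by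
induction on `k` with `HRep.add_ne`, `HRep.dbl`, where `k • P i ≠ 0` for `k ≥ 1` by `hind`; if
`k • P i = P i` then `(k-1) • P i = 0`, `k = 1`; `k • P i ≠ - P i`). For `i ≤ j` the point
`R i j = if i = j then m • P i else m • P i - m • P j` is in `Lam` (`sub_mem`) and nonzero by `hind`.
So it has an `HRep` in lowest terms (`HRep.reduce`), of degree `w i j`, and
`ht (R i j) = d + w i j` (`ht_eq`), and `exists_irep` gives the integral polynomials. The matrix
`heightMatrix d w` equals the matrix of `det_ne_zero_of_par` for the group `Lam`, `f = ht`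
(`ht_par`, `ht_pos`, `ht_zero`) and `Q i = m • P i` (independent by `hind`: `∑ v i • (m • P i) =
∑ (m v i) • P i`). -/
theorem exists_narrow_aux (hd : 1 ≤ d) (ha : a.IsWeightedHomogeneous wt (4 * d))
    (hΔ : 4 * a ^ 3 + 27 * b ^ 2 ≠ 0)
    (hmin : ∀ F : MvPolynomial (Fin n) ℚ, F ^ 4 ∣ a.map (Int.castRingHom ℚ) →
      F ^ 6 ∣ b.map (Int.castRingHom ℚ) → IsUnit F) {r : ℕ} [DecidableEq (RF n)]
    (P : Fin r → (scurve (toK n (a.map (Int.castRingHom ℚ)))
      (toK n (b.map (Int.castRingHom ℚ)))).Point)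
    (hind : ∀ v : Fin r → ℤ, ∑ i, v i • P i = 0 → v = 0)
    (hP : ∀ i, ∃ (e : ℕ) (X Y W : MvPolynomial (Fin n) ℤ), IRep wt d e X Y W (P i)) :
    ∃ m : ℕ, 1 ≤ m ∧ ∃ (w : Fin r → Fin r → ℕ) (X Y W : Fin r → Fin r → MvPolynomial (Fin n) ℤ),
      (∀ i j, i ≤ j → IRep wt d (w i j) (X i j) (Y i j) (W i j)
        (if i = j then m • P i else m • P i - m • P j) ∧ NarZ a (X i j) (Y i j) (W i j)) ∧
      (heightMatrix d w).det ≠ 0 := by
  classical
  have hφ : IsFrac (toK n) := isFrac_toK n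
  have hah : (a.map (Int.castRingHom ℚ)).IsWeightedHomogeneous wt (4 * d) := narrow_map_hom ha
  have hΔ' : 4 * (a.map (Int.castRingHom ℚ)) ^ 3 + 27 * (b.map (Int.castRingHom ℚ)) ^ 2 ≠ 0 := by
    intro h0
    apply hΔ
    apply MvPolynomial.map_injective (Int.castRingHom ℚ) Int.cast_injective
    rw [map_zero, ← h0]
    simp only [map_add, map_mul, map_pow, map_ofNat]
  have hmin' : ∀ π : MvPolynomial (Fin n) ℚ, Prime π →
      ¬ (π ^ 4 ∣ a.map (Int.castRingHom ℚ) ∧ π ^ 6 ∣ b.map (Int.castRingHom ℚ)) :=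
    fun π hπ h => hπ.not_isUnit (hmin π h.1 h.2)
  obtain ⟨m, hm, hNS⟩ := exists_ns_family hφ not_dvd_two not_dvd_three hmin' hΔ' P
  have hm0 : (m : ℤ) ≠ 0 := by
    have : m ≠ 0 := by omega
    exact_mod_cast this
  have hmem : ∀ i, m • P i ∈ Lam hφ wt d (b := b.map (Int.castRingHom ℚ)) hah := by
    intro i
    obtain ⟨e, X, Y, W, h⟩ := hP i
    exact ⟨narrow_hr_nsmul hφ hah (Or.inr ⟨e, _, _, _, h.hrep⟩) m, hNS i⟩
  -- the points `R i j`
  have hRmem : ∀ i j, (if i = j then m • P i else m • P i - m • P j) ∈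
      Lam hφ wt d (b := b.map (Int.castRingHom ℚ)) hah := by
    intro i j
    split_ifs
    · exact hmem i
    · exact sub_mem (hmem i) (hmem j)
  have hR0 : ∀ i j, (if i = j then m • P i else m • P i - m • P j) ≠ 0 := by
    intro i j
    split_ifs with hij
    · intro h0
      have h1 := hind (Pi.single i (m : ℤ)) (by
        rw [Finset.sum_eq_single i]
        · rw [Pi.single_eq_same, natCast_zsmul]
          exact h0
        · intro k _ hk
          rw [Pi.single_eq_of_ne hk, zero_zsmul]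
        · intro h
          exact absurd (Finset.mem_univ i) h)
      have h2 := congrFun h1 i
      rw [Pi.single_eq_same, Pi.zero_apply] at h2
      exact hm0 h2
    · intro h0
      have h1 := hind (Pi.single i (m : ℤ) - Pi.single j (m : ℤ)) (by
        have e1 : ∀ l : Fin r, ∑ k, (Pi.single l (m : ℤ) : Fin r → ℤ) k • P k = m • P l := by
          intro l
          rw [Finset.sum_eq_single l]
          · rw [Pi.single_eq_same, natCast_zsmul]
          · intro k _ hk
            rw [Pi.single_eq_of_ne hk, zero_zsmul]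
          · intro h
            exact absurd (Finset.mem_univ l) h
        simp only [Pi.sub_apply, sub_smul, Finset.sum_sub_distrib]
        rw [e1, e1]
        exact h0)
      have h2 := congrFun h1 i
      rw [Pi.sub_apply, Pi.single_eq_same, Pi.single_eq_of_ne hij, Pi.zero_apply, sub_zero] at h2
      exact hm0 h2
  have hex : ∀ i j, ∃ (e : ℕ) (X Y W : MvPolynomial (Fin n) ℤ),
      (IRep wt d e X Y W (if i = j then m • P i else m • P i - m • P j) ∧ NarZ a X Y W) ∧
      ht (toK n) wt d (if i = j then m • P i else m • P i - m • P j) = (d : ℤ) + e := by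
    intro i j
    obtain ⟨h1, h2⟩ := hRmem i j
    obtain ⟨e, X, Y, W, h3⟩ := h1.resolve_left (hR0 i j)
    obtain ⟨e', X', Y', W', h4, h5⟩ := h3.reduce hφ
    obtain ⟨X'', Y'', W'', h6, h7⟩ := exists_irep h4 h5 h2
    exact ⟨e', X'', Y'', W'', ⟨h6, h7⟩, ht_eq hφ h4 h5⟩
  choose w X Y W hw using hex
  refine ⟨m, hm, w, X, Y, W, fun i j _ => (hw i j).1, ?_⟩
  let Q : Fin r → Lam hφ wt d (b := b.map (Int.castRingHom ℚ)) hah := fun i => ⟨m • P i, hmem i⟩
  let f : Lam hφ wt d (b := b.map (Int.castRingHom ℚ)) hah → ℤ := fun x =>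
    ht (toK n) wt d (x : (scurve (toK n (a.map (Int.castRingHom ℚ))) (toK n (b.map (Int.castRingHom ℚ)))).Point)
  have hdet := det_ne_zero_of_par f ht_zero
    (fun x y => ht_par hφ hd hah x.2 y.2)
    (fun x hx => ht_pos hφ hd hah x.2 (fun h => hx (Subtype.ext h))) Q
    (by
      intro v hv
      have h1 : ∑ i, (v i * (m : ℤ)) • P i = 0 := by
        have h2 := congrArg (Subtype.val : Lam hφ wt d (b := b.map (Int.castRingHom ℚ)) hah → _) hv
        rw [AddSubgroup.val_finsetSum] at h2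
        refine Eq.trans (Finset.sum_congr rfl fun i _ => ?_) h2
        rw [mul_zsmul, natCast_zsmul]
        rfl
      have h3 := hind _ h1
      funext i
      have h4 := congrFun h3 i
      rw [Pi.zero_apply] at h4
      exact (mul_eq_zero.1 h4).resolve_right hm0)
  have hM : heightMatrix d w = Matrix.of fun i j : Fin r => if i = j then 2 * f (Q i)
      else f (Q i) + f (Q j) - f (Q (min i j) - Q (max i j)) := by
    have hd1 : ∀ i, f (Q i) = (d : ℤ) + w i i := by
      intro i
      have h1 := (hw i i).2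
      rw [if_pos rfl] at h1
      exact h1
    have hd2 : ∀ i j, i ≠ j → f (Q i - Q j) = (d : ℤ) + w i j := by
      intro i j hij
      have h1 := (hw i j).2
      rw [if_neg hij] at h1
      exact h1
    ext i j
    unfold heightMatrix
    rw [Matrix.of_apply, Matrix.of_apply]
    by_cases hij : i = j
    · rw [if_pos hij, if_pos hij, hd1]
    · have hmm : min i j ≠ max i j := by
        intro h
        rcases le_total i j with h1 | h1
        · rw [min_eq_left h1, max_eq_right h1] at h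
          exact hij h
        · rw [min_eq_right h1, max_eq_left h1] at h
          exact hij h.symm
      rw [if_neg hij, if_neg hij, hd1, hd1, hd2 _ _ hmm]
      ring
  rw [hM]
  exact hdet

/-- Multiples of independent points given by weighted homogeneous polynomials are narrow.
PROOF. `toK_map` (generalise `algebraMap a`, `algebraMap b` and `subst`). -/
theorem exists_narrow (hd : 1 ≤ d) (ha : a.IsWeightedHomogeneous wt (4 * d))
    (hΔ : 4 * a ^ 3 + 27 * b ^ 2 ≠ 0)
    (hmin : ∀ F : MvPolynomial (Fin n) ℚ, F ^ 4 ∣ a.map (Int.castRingHom ℚ) →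
      F ^ 6 ∣ b.map (Int.castRingHom ℚ) → IsUnit F) {r : ℕ} [DecidableEq (RF n)]
    (P : Fin r → (scurve (algebraMap (MvPolynomial (Fin n) ℤ) (RF n) a)
      (algebraMap (MvPolynomial (Fin n) ℤ) (RF n) b)).Point)
    (hind : ∀ v : Fin r → ℤ, ∑ i, v i • P i = 0 → v = 0)
    (hP : ∀ i, ∃ (e : ℕ) (X Y W : MvPolynomial (Fin n) ℤ), IRep wt d e X Y W (P i)) :
    ∃ m : ℕ, 1 ≤ m ∧ ∃ (w : Fin r → Fin r → ℕ) (X Y W : Fin r → Fin r → MvPolynomial (Fin n) ℤ),
      (∀ i j, i ≤ j → IRep wt d (w i j) (X i j) (Y i j) (W i j)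
        (if i = j then m • P i else m • P i - m • P j) ∧ NarZ a (X i j) (Y i j) (W i j)) ∧
      (heightMatrix d w).det ≠ 0 := by
  have key : ∀ (α β : RF n), α = toK n (a.map (Int.castRingHom ℚ)) →
      β = toK n (b.map (Int.castRingHom ℚ)) → ∀ (P : Fin r → (scurve α β).Point),
      (∀ v : Fin r → ℤ, ∑ i, v i • P i = 0 → v = 0) →
      (∀ i, ∃ (e : ℕ) (X Y W : MvPolynomial (Fin n) ℤ), IRep wt d e X Y W (P i)) →
      ∃ m : ℕ, 1 ≤ m ∧ ∃ (w : Fin r → Fin r → ℕ)
      (X Y W : Fin r → Fin r → MvPolynomial (Fin n) ℤ),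
      (∀ i j, i ≤ j → IRep wt d (w i j) (X i j) (Y i j) (W i j)
        (if i = j then m • P i else m • P i - m • P j) ∧ NarZ a (X i j) (Y i j) (W i j)) ∧
      (heightMatrix d w).det ≠ 0 := by
    rintro α β rfl rfl P h1 h2
    exact exists_narrow_aux hd ha hΔ hmin P h1 h2
  exact key _ _ (toK_map a).symm (toK_map b).symm P hind hP

end Pool.Agent.Lib.MP_3550b5_nt.G
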