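import Mathlib
import Pool.Agent.Lib.MP_3550b5_nt.SFinal
import Pool.Agent.Lib.MP_3550b5_nt.G.Forms

/-!
Specialisation of multiples of a point over the field of rational functions.
-/

namespace Pool.Agent.Lib.MP_3550b5_nt.G

open WeierstrassCurve.Affine MvPolynomial

variable {n : ℕ} {a b : MvPolynomial (Fin n) ℤ}

/-- `P = (X / W^2, Y / W^3)`, no homogeneity. -/
def PRep {α β : RF n} (X Y W : MvPolynomial (Fin n) ℤ) (P : (scurve α β).Point) : Prop :=
  W ≠ 0 ∧ ∃ h : (scurve α β).Nonsingular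
    (algebraMap (MvPolynomial (Fin n) ℤ) (RF n) X / algebraMap _ (RF n) W ^ 2)
    (algebraMap (MvPolynomial (Fin n) ℤ) (RF n) Y / algebraMap _ (RF n) W ^ 3),
    P = Point.some _ _ h

/-- PROOF. `x = f / g`, `y = f' / g'` (`IsFractionRing.div_surjective`): `W = g g'`,
`X = f g g'^2`, `Y = f' g^3 g'^2`. -/
lemma exists_prep {α β : RF n} {P : (scurve α β).Point} (hP : P ≠ 0) :
    ∃ X Y W : MvPolynomial (Fin n) ℤ, PRep X Y W P := by
  rcases P with _ | ⟨x, y, h⟩
  · exact absurd rfl hP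
  obtain ⟨f, g, hg, hx⟩ := IsFractionRing.div_surjective (A := MvPolynomial (Fin n) ℤ) x
  obtain ⟨f', g', hg', hy⟩ := IsFractionRing.div_surjective (A := MvPolynomial (Fin n) ℤ) y
  have hg0 : g ≠ 0 := nonZeroDivisors.ne_zero hg
  have hg'0 : g' ≠ 0 := nonZeroDivisors.ne_zero hg'
  have hinj : Function.Injective (algebraMap (MvPolynomial (Fin n) ℤ) (RF n)) :=
    IsFractionRing.injective _ _
  have k1 : algebraMap (MvPolynomial (Fin n) ℤ) (RF n) g ≠ 0 := (map_ne_zero_iff _ hinj).2 hg0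
  have k2 : algebraMap (MvPolynomial (Fin n) ℤ) (RF n) g' ≠ 0 := (map_ne_zero_iff _ hinj).2 hg'0
  have ex : algebraMap (MvPolynomial (Fin n) ℤ) (RF n) (f * g * g' ^ 2) /
      algebraMap _ (RF n) (g * g') ^ 2 = x := by
    rw [← hx]
    simp only [map_mul, map_pow]
    field_simp
  have ey : algebraMap (MvPolynomial (Fin n) ℤ) (RF n) (f' * g ^ 3 * g' ^ 2) /
      algebraMap _ (RF n) (g * g') ^ 3 = y := by
    rw [← hy]
    simp only [map_mul, map_pow]
    field_simp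
  refine ⟨f * g * g' ^ 2, f' * g ^ 3 * g' ^ 2, g * g', mul_ne_zero hg0 hg'0, ?_⟩
  subst ex ey
  exact ⟨h, rfl⟩

/-- The equation. PROOF. As `IsSection.secForm` in `SFinal.lean` (there for two variables). -/
lemma PRep.eqn {X Y W : MvPolynomial (Fin n) ℤ}
    {P : (scurve (algebraMap (MvPolynomial (Fin n) ℤ) (RF n) a)
      (algebraMap (MvPolynomial (Fin n) ℤ) (RF n) b)).Point} (h : PRep X Y W P) :
    Y ^ 2 = X ^ 3 + a * X * W ^ 4 + b * W ^ 6 := by
  obtain ⟨hW0, hh, -⟩ := h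
  have hinj : Function.Injective (algebraMap (MvPolynomial (Fin n) ℤ) (RF n)) :=
    IsFractionRing.injective _ _
  have hW : algebraMap (MvPolynomial (Fin n) ℤ) (RF n) W ≠ 0 := (map_ne_zero_iff _ hinj).2 hW0
  have he := scurve_eq hh
  apply hinj
  rw [div_pow, div_eq_iff (pow_ne_zero _ (pow_ne_zero _ hW))] at he
  simp only [map_pow, map_add, map_mul]
  rw [he]
  field_simp

/-- The specialised point is on the specialised curve. PROOF. `PRep.eqn` evaluated at `z` and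
`nonsing_of_disc` (`SFinal.lean`). -/
lemma PRep.nonsing {X Y W : MvPolynomial (Fin n) ℤ}
    {P : (scurve (algebraMap (MvPolynomial (Fin n) ℤ) (RF n) a)
      (algebraMap (MvPolynomial (Fin n) ℤ) (RF n) b)).Point} (h : PRep X Y W P) {z : Fin n → ℤ}
    (hW : eval z W ≠ 0) (hΔ : eval z (4 * a ^ 3 + 27 * b ^ 2) ≠ 0) :
    (curve (eval z a) (eval z b)).Nonsingular
      (((eval z X : ℤ) : ℚ) / ((eval z W : ℤ) : ℚ) ^ 2)
      (((eval z Y : ℤ) : ℚ) / ((eval z W : ℤ) : ℚ) ^ 3) := by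
  have he := congrArg (eval z) h.eqn
  simp only [map_pow, map_add, map_mul] at he
  refine nonsing_of_disc hW he ?_
  simpa only [map_pow, map_add, map_mul, map_ofNat] using hΔ

/-- Specialisation of a difference `P₁ - P₂ = P₃`. PROOF. As `exists_spec` in `SFinal.lean` (there
for two variables): `subRel_of_sub`, `subRel_transfer`, then `sub_of_subRel` over `ℚ`
(`curve a b` is `scurve a b` by definition). Take `H = H' W₁ W₂ W₃` to ensure that the
denominators do not vanish. -/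
lemma spec_sub [DecidableEq (RF n)] {X₁ Y₁ W₁ X₂ Y₂ W₂ X₃ Y₃ W₃ : MvPolynomial (Fin n) ℤ}
    {P₁ P₂ : (scurve (algebraMap (MvPolynomial (Fin n) ℤ) (RF n) a)
      (algebraMap (MvPolynomial (Fin n) ℤ) (RF n) b)).Point}
    (h1 : PRep X₁ Y₁ W₁ P₁) (h2 : PRep X₂ Y₂ W₂ P₂) (h3 : PRep X₃ Y₃ W₃ (P₁ - P₂)) :
    ∃ H : MvPolynomial (Fin n) ℤ, H ≠ 0 ∧ ∀ z : Fin n → ℤ, eval z H ≠ 0 →
      ∀ (k1 : (curve (eval z a) (eval z b)).Nonsingular
          (((eval z X₁ : ℤ) : ℚ) / ((eval z W₁ : ℤ) : ℚ) ^ 2)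
          (((eval z Y₁ : ℤ) : ℚ) / ((eval z W₁ : ℤ) : ℚ) ^ 3))
        (k2 : (curve (eval z a) (eval z b)).Nonsingular
          (((eval z X₂ : ℤ) : ℚ) / ((eval z W₂ : ℤ) : ℚ) ^ 2)
          (((eval z Y₂ : ℤ) : ℚ) / ((eval z W₂ : ℤ) : ℚ) ^ 3))
        (k3 : (curve (eval z a) (eval z b)).Nonsingular
          (((eval z X₃ : ℤ) : ℚ) / ((eval z W₃ : ℤ) : ℚ) ^ 2)
          (((eval z Y₃ : ℤ) : ℚ) / ((eval z W₃ : ℤ) : ℚ) ^ 3)),
        (Point.some _ _ k1 : (curve (eval z a) (eval z b)).Point) - Point.some _ _ k2 =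
          Point.some _ _ k3 := by
  obtain ⟨W1n, hh1, e1⟩ := h1
  obtain ⟨W2n, hh2, e2⟩ := h2
  obtain ⟨W3n, hh3, e3⟩ := h3
  have hinj : Function.Injective (algebraMap (MvPolynomial (Fin n) ℤ) (RF n)) :=
    IsFractionRing.injective _ _
  rw [e1, e2] at e3
  have hrel := subRel_of_sub hh1 hh2 hh3 e3
  obtain ⟨H, hH, hspec⟩ := subRel_transfer
    (algebraMap (MvPolynomial (Fin n) ℤ) (RF n)) hinj W1n W2n W3n hrel
  refine ⟨H * W₁ * W₂ * W₃, mul_ne_zero (mul_ne_zero (mul_ne_zero hH W1n) W2n) W3n,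
    fun z hz k1 k2 k3 => ?_⟩
  simp only [map_mul] at hz
  have z3 : eval z W₃ ≠ 0 := right_ne_zero_of_mul hz
  have z2 : eval z W₂ ≠ 0 := right_ne_zero_of_mul (left_ne_zero_of_mul hz)
  have z1 : eval z W₁ ≠ 0 := right_ne_zero_of_mul (left_ne_zero_of_mul (left_ne_zero_of_mul hz))
  have z0 : eval z H ≠ 0 := left_ne_zero_of_mul (left_ne_zero_of_mul (left_ne_zero_of_mul hz))
  have hc : ∀ F : MvPolynomial (Fin n) ℤ, eval z F ≠ 0 →
      ((Int.castRingHom ℚ).comp (eval z)) F ≠ 0 := by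
    intro F hF
    rw [RingHom.comp_apply]
    simpa using hF
  have hsub := hspec ((Int.castRingHom ℚ).comp (eval z)) (hc _ z0) (hc _ z1) (hc _ z2) (hc _ z3)
  exact sub_of_subRel (F := ℚ) (a := ((eval z a : ℤ) : ℚ)) (b := ((eval z b : ℤ) : ℚ))
    k1 k2 k3 hsub

/-- Specialisation of a multiple. PROOF. Induction on `m`. `m = 1`: two representations of the same
point; `X W'^2 = X' W^2`, `Y W'^3 = Y' W^3` in the polynomial ring (injectivity of `algebraMap`), and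
evaluate; `H = W W'`. Step: `m • P ≠ 0` has a representation `(X'', Y'', W'')` (`exists_prep`); by
induction there is `H₁` for it, and by `spec_sub` for `(m + 1) • P - P = m • P` there is `H₂`. Take
`H = H₁ H₂ W'' (4 a^3 + 27 b^2)`; `PRep.nonsing` gives the point `k3`, and
`(m + 1) P(z) = m P(z) + P(z)`. -/
theorem spec_nsmul [DecidableEq (RF n)] (hΔ : 4 * a ^ 3 + 27 * b ^ 2 ≠ 0)
    {X Y W : MvPolynomial (Fin n) ℤ}
    {P : (scurve (algebraMap (MvPolynomial (Fin n) ℤ) (RF n) a)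
      (algebraMap (MvPolynomial (Fin n) ℤ) (RF n) b)).Point} (hP : PRep X Y W P) :
    ∀ m : ℕ, 1 ≤ m → (∀ k : ℕ, 1 ≤ k → k ≤ m → k • P ≠ 0) →
    ∀ X' Y' W' : MvPolynomial (Fin n) ℤ, PRep X' Y' W' (m • P) →
    ∃ H : MvPolynomial (Fin n) ℤ, H ≠ 0 ∧ ∀ z : Fin n → ℤ, eval z H ≠ 0 →
      ∀ (k1 : (curve (eval z a) (eval z b)).Nonsingular
          (((eval z X : ℤ) : ℚ) / ((eval z W : ℤ) : ℚ) ^ 2)
          (((eval z Y : ℤ) : ℚ) / ((eval z W : ℤ) : ℚ) ^ 3))
        (k2 : (curve (eval z a) (eval z b)).Nonsingular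
          (((eval z X' : ℤ) : ℚ) / ((eval z W' : ℤ) : ℚ) ^ 2)
          (((eval z Y' : ℤ) : ℚ) / ((eval z W' : ℤ) : ℚ) ^ 3)),
        m • (Point.some _ _ k1 : (curve (eval z a) (eval z b)).Point) = Point.some _ _ k2 := by
  have hinj : Function.Injective (algebraMap (MvPolynomial (Fin n) ℤ) (RF n)) :=
    IsFractionRing.injective _ _
  intro m hm
  induction m, hm using Nat.le_induction with
  | base =>
    intro _ X' Y' W' hP'
    rw [one_smul] at hP'
    obtain ⟨hW, hh, e⟩ := hP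
    obtain ⟨hW', hh', e'⟩ := hP'
    rw [e] at e'
    simp only [Point.some.injEq] at e'
    obtain ⟨ex, ey⟩ := e'
    have k1 : algebraMap (MvPolynomial (Fin n) ℤ) (RF n) W ≠ 0 := (map_ne_zero_iff _ hinj).2 hW
    have k2 : algebraMap (MvPolynomial (Fin n) ℤ) (RF n) W' ≠ 0 := (map_ne_zero_iff _ hinj).2 hW'
    rw [clear5 k1 k2] at ex ey
    have fx : X * W' ^ 2 = X' * W ^ 2 := by
      apply hinj
      simpa only [map_mul, map_pow] using ex
    have fy : Y * W' ^ 3 = Y' * W ^ 3 := by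
      apply hinj
      simpa only [map_mul, map_pow] using ey
    refine ⟨W * W', mul_ne_zero hW hW', fun z hz q1 q2 => ?_⟩
    rw [map_mul] at hz
    have z1 : ((eval z W : ℤ) : ℚ) ≠ 0 := by exact_mod_cast left_ne_zero_of_mul hz
    have z2 : ((eval z W' : ℤ) : ℚ) ≠ 0 := by exact_mod_cast right_ne_zero_of_mul hz
    rw [one_smul]
    simp only [Point.some.injEq]
    rw [clear5 z1 z2, clear5 z1 z2]
    have gx := congrArg (eval z) fx
    have gy := congrArg (eval z) fy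
    simp only [map_mul, map_pow] at gx gy
    constructor
    · exact_mod_cast gx
    · exact_mod_cast gy
  | succ m hm ih =>
    intro hne X' Y' W' hP'
    obtain ⟨X'', Y'', W'', hP''⟩ := exists_prep (hne m hm (Nat.le_succ m))
    obtain ⟨H₁, hH₁, ih'⟩ := ih (fun k hk hkm => hne k hk (hkm.trans (Nat.le_succ m))) X'' Y'' W'' hP''
    have hsub : (m + 1) • P - P = m • P := by
      rw [add_smul, one_smul, add_sub_cancel_right]
    have hP3 : PRep X'' Y'' W'' ((m + 1) • P - P) := by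
      rw [hsub]
      exact hP''
    obtain ⟨H₂, hH₂, hs⟩ := spec_sub hP' hP hP3
    refine ⟨H₁ * H₂ * W'' * (4 * a ^ 3 + 27 * b ^ 2),
      mul_ne_zero (mul_ne_zero (mul_ne_zero hH₁ hH₂) hP''.1) hΔ, fun z hz q1 q2 => ?_⟩
    rw [map_mul, map_mul, map_mul] at hz
    have z4 := right_ne_zero_of_mul hz
    have z3 := right_ne_zero_of_mul (left_ne_zero_of_mul hz)
    have z2 := right_ne_zero_of_mul (left_ne_zero_of_mul (left_ne_zero_of_mul hz))
    have z1 := left_ne_zero_of_mul (left_ne_zero_of_mul (left_ne_zero_of_mul hz))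
    have q3 := hP''.nonsing z3 z4
    have f1 := ih' z z1 q1 q3
    have f2 := hs z z2 q2 q1 q3
    rw [add_smul, one_smul, f1, ← f2, sub_add_cancel]

end Pool.Agent.Lib.MP_3550b5_nt.G
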