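import Mathlib
import Pool.Agent.Lib.MP_3550b5_nt.UFinal
import Pool.Agent.Lib.MP_3550b5_nt.G.DefsD
import Pool.Agent.Lib.MP_3550b5_nt.G.Narrow
import Pool.Agent.Lib.MP_3550b5_nt.G.Zero
import Pool.Agent.Lib.MP_3550b5_nt.G.Spec

/-!
All sections: the final theorem for one-parameter families.
-/

namespace Pool.Agent.Lib.MP_3550b5_nt

open MvPolynomial G

/-- The regulator of the multiples `m • Q i`. -/
lemma regulator_nsmul {p : ℕ} [Fact p.Prime] {a b : ℤ}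
    {B : (curve a b).Point → (curve a b).Point → ℚ_[p]} (hB : IsCanonicalHeight p a b B) {r : ℕ}
    (Q : Fin r → (curve a b).Point) (m : ℕ) :
    regulator B (fun i => m • Q i) = (m : ℚ_[p]) ^ (2 * r) * regulator B Q := by
  have h0 : ∀ P, B 0 P = 0 := by
    intro P
    have := hB.add 0 0 P
    rw [add_zero] at this
    linear_combination -this
  have h1 : ∀ (k : ℕ) P R, B (k • P) R = k * B P R := by
    intro k P R
    induction k with
    | zero => rw [zero_nsmul, h0]; simp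
    | succ k ih => rw [succ_nsmul, hB.add, ih]; push_cast; ring
  have h2 : ∀ (k : ℕ) P R, B P (k • R) = k * B P R := by
    intro k P R
    rw [hB.symm, h1, hB.symm]
  have h3 : (Matrix.of fun i j => B (m • Q i) (m • Q j)) =
      ((m : ℚ_[p]) ^ 2) • (Matrix.of fun i j => B (Q i) (Q j)) := by
    ext i j
    simp only [Matrix.of_apply, Matrix.smul_apply, smul_eq_mul]
    rw [h1, h2]; ring
  rw [regulator, h3, Matrix.det_smul, Fintype.card_fin, ← pow_mul]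
  rfl

/-- `FibreNear` for the multiples. -/
lemma FibreNear.nsmul {p : ℕ} [Fact p.Prime] {r : ℕ} {v : ℚ_[p]} {K : ℕ}
    {a b : MvPolynomial (Fin 2) ℤ} {X Y W X' Y' W' : Fin r → MvPolynomial (Fin 2) ℤ} {t : ℚ} {m : ℕ}
    (hW : ∀ i, formVal (W i) t ≠ 0) (hW' : ∀ i, formVal (W' i) t ≠ 0)
    (hns : ∀ i, (curve (formVal a t) (formVal b t)).Nonsingular
      ((formVal (X' i) t : ℚ) / (formVal (W' i) t : ℚ) ^ 2)
      ((formVal (Y' i) t : ℚ) / (formVal (W' i) t : ℚ) ^ 3))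
    (hmul : ∀ i, ∀ (k1 : (curve (formVal a t) (formVal b t)).Nonsingular
      ((formVal (X i) t : ℚ) / (formVal (W i) t : ℚ) ^ 2)
      ((formVal (Y i) t : ℚ) / (formVal (W i) t : ℚ) ^ 3)),
      m • (.some _ _ k1 : (curve (formVal a t) (formVal b t)).Point) = .some _ _ (hns i))
    (h : FibreNear p v K a b X Y W t) :
    FibreNear p ((m : ℚ_[p]) ^ (2 * r) * v) K a b X' Y' W' t := by
  obtain ⟨hgo, B, Q, hB, hcase⟩ := h
  refine ⟨hgo, B, ?_⟩
  rcases hcase with ⟨hval, hreg⟩ | ⟨hv, hMW, hreg⟩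
  · refine ⟨fun i => m • Q i, hB, Or.inl ⟨fun i => ?_, ?_⟩⟩
    · rcases hval i with ⟨h0, -⟩ | ⟨-, hh, he⟩
      · exact absurd h0 (hW i)
      · refine Or.inr ⟨hW' i, hns i, ?_⟩
        simp only
        rw [he]
        exact hmul i hh
    · rw [regulator_nsmul hB, ← mul_sub, norm_mul]
      have h1 : ‖(m : ℚ_[p]) ^ (2 * r)‖ ≤ 1 := by
        rw [norm_pow]
        apply pow_le_one₀ (norm_nonneg _)
        exact_mod_cast Padic.norm_int_le_one (m : ℤ)
      calc _ ≤ 1 * ‖regulator B Q - v‖ := by gcongr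
        _ ≤ _ := by rw [one_mul]; exact hreg
  · exact ⟨Q, hB, Or.inr ⟨by rw [hv, mul_zero], hMW, hreg⟩⟩

/-- Small balls for the regulators of the fibres, at all small primes, for arbitrary independent
points over the field of rational functions. -/
theorem fibres_all {r : ℕ} (hr : 1 ≤ r) {d : ℕ} (hd : 1 ≤ d)
    {a b : MvPolynomial (Fin 2) ℤ} (ha : a.IsHomogeneous (4 * d))
    (hb : b.IsHomogeneous (6 * d)) (hΔ : 4 * a ^ 3 + 27 * b ^ 2 ≠ 0)
    (hmin : ∀ F : MvPolynomial (Fin 2) ℚ, F ^ 4 ∣ a.map (Int.castRingHom ℚ) →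
      F ^ 6 ∣ b.map (Int.castRingHom ℚ) → IsUnit F)
    [DecidableEq (FractionRing (MvPolynomial (Fin 2) ℤ))]
    (P : Fin r → (genericCurve a b).Point) (hP : LinearIndependent ℤ P)
    {e : Fin r → ℕ} {X Y W : Fin r → MvPolynomial (Fin 2) ℤ}
    (hS : ∀ i, IsPointForm d a b (e i) (X i) (Y i) (W i) (P i)) :
    ∃ η C : ℝ, 0 < η ∧ ∀ M N : ℕ, 1 ≤ M → M ≤ N → ∀ v : (p : ℕ) → [Fact p.Prime] → ℚ_[p],
      (({t : ℚ | |t.num| ≤ N ∧ (t.den : ℤ) ≤ N ∧
        ∃ (p : ℕ) (_ : Fact p.Prime) (K : ℕ), 5 ≤ p ∧ (p : ℝ) ≤ (M : ℝ) ^ η ∧ M ≤ p ^ K ∧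
        FibreNear p (v p) K a b X Y W t}.ncard : ℕ) : ℝ) ≤ C * (M : ℝ) ^ (-η) * (N : ℝ) ^ 2 := by
  classical
  have hind : ∀ v : Fin r → ℤ, ∑ i, v i • P i = 0 → v = 0 := by
    intro v hv
    funext i
    exact (Fintype.linearIndependent_iff.mp hP) v hv i
  have hP' : ∀ i, ∃ (e : ℕ) (X Y W : MvPolynomial (Fin 2) ℤ),
      IRep (n := 2) (1 : Fin 2 → ℕ) d (α := algebraMap _ _ a) (β := algebraMap _ _ b) e X Y W
        (P i) := by
    intro i
    exact ⟨e i, X i, Y i, W i, (hS i).homX, (hS i).homY, (hS i).homW, (hS i).W_ne, (hS i).point⟩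
  obtain ⟨m, hm, w, X', Y', W', hrep, hdet⟩ := exists_narrow (n := 2) (wt := 1) hd ha hΔ hmin P
    hind hP'
  -- the multiples are sections through nonsingular points
  have hsec : ∀ i j, i ≤ j → IsSection d a b (w i j) (X' i j) (Y' i j) (W' i j)
      (if i = j then m • P i else m • P i - m • P j) := by
    intro i j hij
    obtain ⟨h1, h2⟩ := hrep i j hij
    refine ⟨h1.homX, h1.homY, h1.homW, h1.W_ne, h1.point, ?_⟩
    have hF : (2 * Y' i j).IsHomogeneous (3 * (d + w i j)) := by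
      have := (isHomogeneous_C (Fin 2) (2 : ℤ)).mul h1.homY
      rw [zero_add] at this
      exact this
    have hG : (3 * X' i j ^ 2 + a * W' i j ^ 4).IsHomogeneous (4 * (d + w i j)) := by
      have g1 := (isHomogeneous_C (Fin 2) (3 : ℤ)).mul ((show (X' i j).IsHomogeneous _ from
        h1.homX).pow 2)
      have g2 := ha.mul ((show (W' i j).IsHomogeneous _ from h1.homW).pow 4)
      rw [show 0 + 2 * (d + w i j) * 2 = 4 * (d + w i j) by ring] at g1
      rw [show 4 * d + w i j * 4 = 4 * (d + w i j) by ring] at g2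
      exact g1.add g2
    exact no_common_zero hF hG (const_of_common h2)
  have hspec : ∀ i j, ∃ H : MvPolynomial (Fin 2) ℤ, H ≠ 0 ∧ (i < j → ∀ z : Fin 2 → ℤ,
      eval z H ≠ 0 → eval z (W' i i) ≠ 0 → eval z (W' j j) ≠ 0 → eval z (W' i j) ≠ 0 →
      SubRel (((eval z a : ℤ) : ℚ))
        (((eval z (X' i i) : ℤ) : ℚ) / ((eval z (W' i i) : ℤ) : ℚ) ^ 2)
        (((eval z (Y' i i) : ℤ) : ℚ) / ((eval z (W' i i) : ℤ) : ℚ) ^ 3)
        (((eval z (X' j j) : ℤ) : ℚ) / ((eval z (W' j j) : ℤ) : ℚ) ^ 2)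
        (((eval z (Y' j j) : ℤ) : ℚ) / ((eval z (W' j j) : ℤ) : ℚ) ^ 3)
        (((eval z (X' i j) : ℤ) : ℚ) / ((eval z (W' i j) : ℤ) : ℚ) ^ 2)
        (((eval z (Y' i j) : ℤ) : ℚ) / ((eval z (W' i j) : ℤ) : ℚ) ^ 3)) := by
    intro i j
    by_cases hij : i < j
    · have h1 := hsec i i le_rfl
      have h2 := hsec j j le_rfl
      have h3 := hsec i j hij.le
      rw [if_pos rfl] at h1 h2
      rw [if_neg hij.ne] at h3
      obtain ⟨H, hH, hH2⟩ := exists_spec h1 h2 h3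
      exact ⟨H, hH, fun _ => hH2⟩
    · exact ⟨1, one_ne_zero, fun h => absurd h hij⟩
  choose H hH0 hH using hspec
  obtain ⟨η, C, hη, hcount⟩ := fibres_uniform hr hd ha hb hΔ
    (fun i j hij => (hsec i j hij).secForm) hdet H (fun i j _ => hH0 i j)
    (fun i j hij => hH i j hij)
  -- specialisation of the multiples
  have hne : ∀ i (k : ℕ), 1 ≤ k → k • P i ≠ 0 := by
    intro i k hk h0
    have h1 := hind (Pi.single i (k : ℤ)) (by
      rw [Finset.sum_eq_single i]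
      · rw [Pi.single_eq_same, natCast_zsmul, h0]
      · intro j _ hj
        rw [Pi.single_eq_of_ne hj]; exact zero_zsmul _
      · intro h; exact absurd (Finset.mem_univ i) h)
    have h2 := congrFun h1 i
    rw [Pi.single_eq_same] at h2
    simp only [Pi.zero_apply] at h2
    omega
  have hmul : ∀ i, ∃ H : MvPolynomial (Fin 2) ℤ, H ≠ 0 ∧ ∀ z : Fin 2 → ℤ, eval z H ≠ 0 →
      ∀ (k1 : (curve (eval z a) (eval z b)).Nonsingular
          (((eval z (X i) : ℤ) : ℚ) / ((eval z (W i) : ℤ) : ℚ) ^ 2)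
          (((eval z (Y i) : ℤ) : ℚ) / ((eval z (W i) : ℤ) : ℚ) ^ 3))
        (k2 : (curve (eval z a) (eval z b)).Nonsingular
          (((eval z (X' i i) : ℤ) : ℚ) / ((eval z (W' i i) : ℤ) : ℚ) ^ 2)
          (((eval z (Y' i i) : ℤ) : ℚ) / ((eval z (W' i i) : ℤ) : ℚ) ^ 3)),
        m • (.some _ _ k1 : (curve (eval z a) (eval z b)).Point) = .some _ _ k2 := by
    intro i
    have h1 := (hsec i i le_rfl).point
    rw [if_pos rfl] at h1
    exact spec_nsmul (n := 2) hΔ (P := P i) ⟨(hS i).W_ne, (hS i).point⟩ m hm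
      (fun k hk _ => hne i k hk) _ _ _ ⟨(hsec i i le_rfl).W_ne, h1⟩
  choose H' hH'0 hH' using hmul
  set Z : MvPolynomial (Fin 2) ℤ := (4 * a ^ 3 + 27 * b ^ 2) * ∏ i, (H' i * (W i * W' i i)) with hZ
  have hZ0 : Z ≠ 0 := by
    rw [hZ]
    refine mul_ne_zero hΔ (Finset.prod_ne_zero_iff.mpr fun i _ => ?_)
    exact mul_ne_zero (hH'0 i) (mul_ne_zero (hS i).W_ne (hsec i i le_rfl).W_ne)
  have hZf : ∀ z : Fin 2 → ℤ, eval z Z ≠ 0 → eval z (4 * a ^ 3 + 27 * b ^ 2) ≠ 0 ∧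
      ∀ i, eval z (H' i) ≠ 0 ∧ eval z (W i) ≠ 0 ∧ eval z (W' i i) ≠ 0 := by
    intro z hz
    rw [hZ, map_mul, map_prod] at hz
    refine ⟨left_ne_zero_of_mul hz, fun i => ?_⟩
    have h1 := Finset.prod_ne_zero_iff.mp (right_ne_zero_of_mul hz) i (Finset.mem_univ i)
    rw [map_mul, map_mul] at h1
    exact ⟨left_ne_zero_of_mul h1, left_ne_zero_of_mul (right_ne_zero_of_mul h1),
      right_ne_zero_of_mul (right_ne_zero_of_mul h1)⟩
  refine ⟨min η 1, max C 0 + 3 * Z.totalDegree, lt_min hη one_pos, fun M N hM hMN v => ?_⟩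
  have hMR : (1 : ℝ) ≤ M := by exact_mod_cast hM
  have hM0 : (0 : ℝ) < M := by linarith
  have hN1 : 1 ≤ N := hM.trans hMN
  have hNR : (1 : ℝ) ≤ N := by exact_mod_cast hN1
  set v' : (p : ℕ) → [Fact p.Prime] → ℚ_[p] := fun p _ => (m : ℚ_[p]) ^ (2 * r) * v p with hv'
  set S := {t : ℚ | |t.num| ≤ N ∧ (t.den : ℤ) ≤ N ∧
        ∃ (p : ℕ) (_ : Fact p.Prime) (K : ℕ), 5 ≤ p ∧ (p : ℝ) ≤ (M : ℝ) ^ (min η 1) ∧
        M ≤ p ^ K ∧ FibreNear p (v p) K a b X Y W t} with hSdef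
  set S₁ := {t : ℚ | |t.num| ≤ N ∧ (t.den : ℤ) ≤ N ∧
        ∃ (p : ℕ) (_ : Fact p.Prime) (K : ℕ), 5 ≤ p ∧ (p : ℝ) ≤ (M : ℝ) ^ η ∧
        M ≤ p ^ K ∧ FibreNear p (v' p) K a b (fun i => X' i i) (fun i => Y' i i)
          (fun i => W' i i) t} with hS₁
  set S₂ := {t : ℚ | |t.num| ≤ N ∧ (t.den : ℤ) ≤ N ∧ eval (pair t) Z = 0} with hS₂
  have hfin : {t : ℚ | |t.num| ≤ N ∧ (t.den : ℤ) ≤ N}.Finite := by
    apply Set.Finite.of_finite_image (f := pair) _ pair_injective.injOn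
    apply (Finset.finite_toSet (box 2 N)).subset
    rintro _ ⟨t, ⟨h1, h2⟩, rfl⟩
    exact pair_mem_box h1 h2
  have hsub : S ⊆ S₁ ∪ S₂ := by
    rintro t ⟨h1, h2, p, hp, K, h5, hpM, hK, hnear⟩
    by_cases hz : eval (pair t) Z = 0
    · exact Or.inr ⟨h1, h2, hz⟩
    · left
      obtain ⟨hd0, hrest⟩ := hZf _ hz
      refine ⟨h1, h2, p, hp, K, h5, hpM.trans ?_, hK, ?_⟩
      · exact Real.rpow_le_rpow_of_exponent_le hMR (min_le_left _ _)
      · have hns : ∀ i, (curve (formVal a t) (formVal b t)).Nonsingular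
            ((formVal (X' i i) t : ℚ) / (formVal (W' i i) t : ℚ) ^ 2)
            ((formVal (Y' i i) t : ℚ) / (formVal (W' i i) t : ℚ) ^ 3) := by
          intro i
          have h3 := (hsec i i le_rfl).point
          rw [if_pos rfl] at h3
          exact PRep.nonsing (n := 2) ⟨(hsec i i le_rfl).W_ne, h3⟩ (hrest i).2.2 hd0
        exact hnear.nsmul (fun i => (hrest i).2.1) (fun i => (hrest i).2.2) hns
          (fun i k1 => hH' i _ (hrest i).1 k1 (hns i))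
  have hS₁f : S₁.Finite := hfin.subset fun t ht => ⟨ht.1, ht.2.1⟩
  have hS₂f : S₂.Finite := hfin.subset fun t ht => ⟨ht.1, ht.2.1⟩
  have c1 : (S.ncard : ℝ) ≤ S₁.ncard + S₂.ncard := by
    exact_mod_cast (Set.ncard_le_ncard hsub (hS₁f.union hS₂f)).trans (Set.ncard_union_le _ _)
  have c2 : (S₁.ncard : ℝ) ≤ C * (M : ℝ) ^ (-η) * (N : ℝ) ^ 2 := hcount M N hM hMN v'
  have c3 : (S₂.ncard : ℝ) ≤ 3 * Z.totalDegree * N := by
    have h1 : Set.MapsTo pair S₂ (↑((box 2 N).filter (fun z => eval z Z = 0)) : Set _) := by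
      rintro t ⟨h1, h2, h3⟩
      rw [Finset.mem_coe]
      exact Finset.mem_filter.mpr ⟨pair_mem_box h1 h2, h3⟩
    have h2 := Set.ncard_le_ncard_of_injOn pair h1 pair_injective.injOn (Finset.finite_toSet _)
    rw [Set.ncard_coe_finset] at h2
    have h3 := h2.trans (card_zeros_le (n := 1) (N := N) hZ0)
    have h4 : Z.totalDegree * (2 * N + 1) ^ 1 ≤ 3 * Z.totalDegree * N := by
      rw [pow_one]
      calc Z.totalDegree * (2 * N + 1) ≤ Z.totalDegree * (3 * N) :=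
            Nat.mul_le_mul_left _ (by omega)
        _ = 3 * Z.totalDegree * N := by ring
    exact_mod_cast h3.trans h4
  have k1 : (M : ℝ) ^ (-η) ≤ (M : ℝ) ^ (-(min η 1)) :=
    Real.rpow_le_rpow_of_exponent_le hMR (neg_le_neg (min_le_left _ _))
  have k2 : (N : ℝ) ≤ (M : ℝ) ^ (-(min η 1)) * (N : ℝ) ^ 2 := by
    have k3 : (M : ℝ)⁻¹ ≤ (M : ℝ) ^ (-(min η 1)) := by
      rw [← Real.rpow_neg_one]
      exact Real.rpow_le_rpow_of_exponent_le hMR (neg_le_neg (min_le_right _ _))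
    calc (N : ℝ) = (M : ℝ)⁻¹ * (M * N) := by field_simp
      _ ≤ (M : ℝ)⁻¹ * (N * N) := by gcongr
      _ = (M : ℝ)⁻¹ * (N : ℝ) ^ 2 := by ring
      _ ≤ _ := by gcongr
  calc (S.ncard : ℝ) ≤ S₁.ncard + S₂.ncard := c1
    _ ≤ C * (M : ℝ) ^ (-η) * (N : ℝ) ^ 2 + 3 * Z.totalDegree * N := add_le_add c2 c3
    _ ≤ max C 0 * (M : ℝ) ^ (-(min η 1)) * (N : ℝ) ^ 2 +
        3 * Z.totalDegree * ((M : ℝ) ^ (-(min η 1)) * (N : ℝ) ^ 2) := by
        apply add_le_add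
        · calc C * (M : ℝ) ^ (-η) * (N : ℝ) ^ 2 ≤ max C 0 * (M : ℝ) ^ (-η) * (N : ℝ) ^ 2 := by
                gcongr
                exact le_max_left _ _
            _ ≤ _ := by gcongr
        · gcongr
    _ = _ := by ring

end Pool.Agent.Lib.MP_3550b5_nt
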